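import Pool.Agent.EVC.Basic

/-!
# The function field over the line given by a function
-/

set_option autoImplicit false

open Polynomial NumberField IntermediateField Module

namespace Pool.Agent.EVC

variable {k F : Type} [Field k] [Field F] [Algebra k F]

theorem fin_adjoin (hF : IsCurve k F) {x : F} (hx : Transcendental k x) :
    FiniteDimensional (IntermediateField.adjoin k {x}) F := by
  obtain ⟨t, ht, hfin⟩ := hF
  have hbasis : ∀ y : F, Transcendental k y → AlgebraicIndependent k (fun _ : Unit => y) := by
    intro y hy
    rw [algebraicIndependent_unique_type_iff]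
    exact hy
  have h2 : IsTranscendenceBasis k (fun _ : Unit => t) := by
    rw [(hbasis t ht).isTranscendenceBasis_iff_isAlgebraic, Set.range_const,
      ← IntermediateField.isAlgebraic_adjoin_iff_top]
    infer_instance
  have h3 : Algebra.trdeg k F = 1 := by
    rw [← h2.cardinalMk_eq_trdeg]
    simp
  have h5 : IsTranscendenceBasis k (fun _ : Unit => x) :=
    (hbasis x hx).isTranscendenceBasis_of_trdeg_le_of_finite (by rw [h3]; simp)
  have h6 : Algebra.IsAlgebraic (IntermediateField.adjoin k {x}) F := by
    rw [(hbasis x hx).isTranscendenceBasis_iff_isAlgebraic, Set.range_const,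
      ← IntermediateField.isAlgebraic_adjoin_iff_top] at h5
    exact h5
  have h7 : Algebra.EssFiniteType k (IntermediateField.adjoin k {t}) := by
    rw [IntermediateField.essFiniteType_iff]
    exact ⟨{t}, by simp⟩
  have h8 : Algebra.EssFiniteType k F :=
    Algebra.EssFiniteType.comp k (IntermediateField.adjoin k {t}) F
  have h9 : Algebra.EssFiniteType (IntermediateField.adjoin k {x}) F :=
    Algebra.EssFiniteType.of_comp k (IntermediateField.adjoin k {x}) F
  exact Algebra.finite_of_essFiniteType_of_isAlgebraic

/-- the ring `k[x]` in the function field -/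
theorem exists_setting (x : F) (hx : Transcendental k x) :
    ∃ (_ : Algebra k[X] F) (_ : IsScalarTower k k[X] F)
      (_ : Algebra k[X] (IntermediateField.adjoin k {x}))
      (_ : IsScalarTower k[X] (IntermediateField.adjoin k {x}) F),
      IsFractionRing k[X] (IntermediateField.adjoin k {x}) ∧ algebraMap k[X] F X = x := by
  let i1 : Algebra k[X] F := (aeval x : k[X] →ₐ[k] F).toRingHom.toAlgebra
  have e1 : ∀ g : k[X], algebraMap k[X] F g = aeval x g := fun g => rfl
  have i2 : IsScalarTower k k[X] F := IsScalarTower.of_algebraMap_eq fun c => by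
    rw [e1]
    exact (aeval_C x c).symm
  let i3 : Algebra k[X] (IntermediateField.adjoin k {x}) :=
    (aeval (AdjoinSimple.gen k x) : k[X] →ₐ[k] IntermediateField.adjoin k {x}).toRingHom.toAlgebra
  have e2 : ∀ g : k[X], algebraMap k[X] (IntermediateField.adjoin k {x}) g =
      aeval (AdjoinSimple.gen k x) g := fun g => rfl
  have i4 : IsScalarTower k[X] (IntermediateField.adjoin k {x}) F :=
    IsScalarTower.of_algebraMap_eq fun g => by
      rw [e1, e2, ← aeval_algebraMap_apply]
      rfl
  refine ⟨i1, i2, i3, i4, ?_, ?_⟩
  · have hinj : Function.Injective (algebraMap k[X] (IntermediateField.adjoin k {x})) := by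
      intro a b hab
      have h1 : algebraMap k[X] F a = algebraMap k[X] F b := by
        rw [IsScalarTower.algebraMap_apply k[X] (IntermediateField.adjoin k {x}) F, hab,
          ← IsScalarTower.algebraMap_apply]
      exact transcendental_iff_injective.1 hx h1
    have hfs : FaithfulSMul k[X] (IntermediateField.adjoin k {x}) :=
      (faithfulSMul_iff_algebraMap_injective _ _).2 hinj
    refine IsFractionRing.of_field k[X] (IntermediateField.adjoin k {x}) fun z => ?_
    obtain ⟨r, s, hrs⟩ := (IntermediateField.mem_adjoin_simple_iff k (z : F)).1 z.2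
    refine ⟨r, s, Subtype.ext ?_⟩
    rw [hrs, ← e1 r, ← e1 s, IsScalarTower.algebraMap_apply k[X] (IntermediateField.adjoin k {x}) F,
      IsScalarTower.algebraMap_apply k[X] (IntermediateField.adjoin k {x}) F]
    rfl
  · rw [e1, aeval_X]

end Pool.Agent.EVC
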