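import Pool.Agent.EVC.Ext

/-!
# The fibres are finite
-/

set_option autoImplicit false

open Polynomial NumberField IntermediateField Module

namespace Pool.Agent.EVC

variable {k F : Type} [Field k] [Field F] [Algebra k F] [Algebra k[X] F] [IsScalarTower k k[X] F]
variable (K : Type) [CharZero k] [Field K] [Algebra k[X] K] [IsFractionRing k[X] K] [Algebra K F]
  [IsScalarTower k[X] K F] [FiniteDimensional K F]

include K in
/-- there are only finitely many points with a given value of `x` -/
theorem finite_fibre (c : AlgebraicClosure k) :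
    {P : Pt k F | algebraMap k[X] F X ∈ P.ring ∧ P.eval (algebraMap k[X] F X) = c}.Finite := by
  classical
  obtain ⟨_, _, _⟩ := ded (k := k) (F := F) K
  obtain ⟨S, hS⟩ := (inferInstance : Module.Finite k[X] (integralClosure k[X] F)).fg_top
  -- the values at the generators are roots of fixed polynomials
  let Z : integralClosure k[X] F → Set (AlgebraicClosure k) := fun r =>
    {z | eval₂ (aeval c : k[X] →ₐ[k] AlgebraicClosure k).toRingHom z (minpoly k[X] r) = 0}
  have hZ : ∀ r, (Z r).Finite := by
    intro r
    have hr : IsIntegral k[X] r := Algebra.IsIntegral.isIntegral r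
    have hm : ((minpoly k[X] r).map (aeval c : k[X] →ₐ[k] AlgebraicClosure k).toRingHom).Monic :=
      (minpoly.monic hr).map _
    refine (Polynomial.rootSet_finite ((minpoly k[X] r).map
      (aeval c : k[X] →ₐ[k] AlgebraicClosure k).toRingHom) (AlgebraicClosure k)).subset ?_
    intro z hz
    rw [mem_rootSet]
    refine ⟨hm.ne_zero, ?_⟩
    rw [aeval_def, eval₂_map]
    exact hz
  have hpi : (Set.pi Set.univ fun s : {r // r ∈ S} => Z s).Finite := Set.Finite.pi fun s => hZ s
  refine Set.Finite.of_finite_image (f := fun P : Pt k F => fun s : {r // r ∈ S} =>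
    P.eval ((s : integralClosure k[X] F) : F)) (hpi.subset ?_) ?_
  · rintro _ ⟨P, ⟨hx, rfl⟩, rfl⟩ s _
    have h1 := congrArg (P.ihom hx) (minpoly.aeval k[X] (s : integralClosure k[X] F))
    rw [map_zero, aeval_def] at h1
    change eval₂ _ _ _ = 0
    rw [← h1]
    change _ = (P.ihom hx : integralClosure k[X] F →+* AlgebraicClosure k) _
    rw [hom_eval₂]
    congr 1
    apply RingHom.ext
    intro g
    exact (P.ihom_algebraMap hx g).symm
  · rintro P ⟨hx, hc⟩ P' ⟨hx', hc'⟩ h
    apply ext_int K hx hx'
    intro r
    have hr : r ∈ Submodule.span k[X] (S : Set (integralClosure k[X] F)) := by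
      rw [hS]
      exact Submodule.mem_top
    induction hr using Submodule.span_induction with
    | mem s hs => exact congrFun h ⟨s, hs⟩
    | zero => exact P.eval_zero.trans P'.eval_zero.symm
    | add a b _ _ ha hb =>
      have h1 := map_add (P.ihom hx) a b
      have h2 := map_add (P'.ihom hx') a b
      rw [Pt.ihom_apply, Pt.ihom_apply, Pt.ihom_apply] at h1 h2
      rw [h1, h2, ha, hb]
    | smul g a _ ha =>
      rw [Algebra.smul_def]
      have h1 := map_mul (P.ihom hx) (algebraMap k[X] _ g) a
      have h2 := map_mul (P'.ihom hx') (algebraMap k[X] _ g) a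
      rw [Pt.ihom_algebraMap, Pt.ihom_apply, Pt.ihom_apply] at h1 h2
      rw [h1, h2, ha, hc, hc']

end Pool.Agent.EVC
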