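import Pool.Agent.EVC.Basic

/-!
# Finitely many ramified primes
-/

set_option autoImplicit false

open Polynomial NumberField IntermediateField Module

namespace Pool.Agent.EVC

variable {k F : Type} [Field k] [Field F] [Algebra k F] [Algebra k[X] F] [IsScalarTower k k[X] F]
variable (K : Type) [CharZero k] [Field K] [Algebra k[X] K] [IsFractionRing k[X] K] [Algebra K F]
  [IsScalarTower k[X] K F] [FiniteDimensional K F]

open IsDedekindDomain

include K in
/-- only finitely many prime ideals are ramified -/
theorem finite_ram : {𝔓 : Ideal (integralClosure k[X] F) | 𝔓.IsPrime ∧ ∃ b : k[X],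
    Irreducible b ∧ algebraMap k[X] (integralClosure k[X] F) b ∈ 𝔓 ^ 2}.Finite := by
  obtain ⟨_, _, _⟩ := ded (k := k) (F := F) K
  have h3 : CharZero K := by
    have h4 : CharZero k[X] := inferInstance
    exact charZero_of_injective_algebraMap (IsFractionRing.injective k[X] K)
  have hinj : Function.Injective (algebraMap k[X] (integralClosure k[X] F)) := algebraMap_inj K
  have htf : Module.IsTorsionFree k[X] (integralClosure k[X] F) := tf K
  have hd : differentIdeal k[X] (integralClosure k[X] F) ≠ ⊥ := by
    rw [ne_eq, ← FractionalIdeal.coeIdeal_inj (K := F), coeIdeal_differentIdeal (K := K)]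
    simp
  have hfac := Ideal.finite_factors (R := integralClosure k[X] F)
    (I := differentIdeal k[X] (integralClosure k[X] F)) hd
  refine (hfac.image HeightOneSpectrum.asIdeal).subset ?_
  rintro 𝔓 ⟨hp, b, hb, hb2⟩
  have hb0 : algebraMap k[X] (integralClosure k[X] F) b ≠ 0 := by
    rw [Ne, map_eq_zero_iff _ hinj]
    exact hb.ne_zero
  have hbP : algebraMap k[X] (integralClosure k[X] F) b ∈ 𝔓 := Ideal.pow_le_self two_ne_zero hb2
  have hne : 𝔓 ≠ ⊥ := by
    rintro rfl
    exact hb0 hbP
  have hspan : 𝔓.comap (algebraMap k[X] (integralClosure k[X] F)) = Ideal.span {b} := by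
    have h1 : (Ideal.span {b}).IsMaximal :=
      PrincipalIdealRing.isMaximal_of_irreducible hb
    refine (h1.eq_of_le (Ideal.IsPrime.comap _).ne_top ?_).symm
    rw [Ideal.span_singleton_le_iff_mem]
    exact hbP
  have hmax : (𝔓.comap (algebraMap k[X] (integralClosure k[X] F))).IsMaximal := by
    rw [hspan]
    exact PrincipalIdealRing.isMaximal_of_irreducible hb
  have hpb : 𝔓.comap (algebraMap k[X] (integralClosure k[X] F)) ≠ ⊥ := by
    rw [hspan, Ne, Ideal.span_singleton_eq_bot]
    exact hb.ne_zero
  have hdvd : 𝔓 ^ 2 ∣ (𝔓.comap (algebraMap k[X] (integralClosure k[X] F))).map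
      (algebraMap k[X] (integralClosure k[X] F)) := by
    rw [hspan, Ideal.map_span, Set.image_singleton, Ideal.dvd_span_singleton]
    exact hb2
  have h8 := pow_sub_one_dvd_differentIdeal_aux k[X] K F 𝔓 (e := 2) (by norm_num) hpb hdvd
  rw [show 2 - 1 = 1 from rfl, pow_one] at h8
  exact ⟨⟨𝔓, hp, hne⟩, h8, rfl⟩

end Pool.Agent.EVC
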