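import Pool.Agent.EVC.Ram
import Pool.Agent.EVC.Fib
import Pool.Agent.EVC.Fin

/-!
# Finitely many ramified points
-/

set_option autoImplicit false

open Polynomial NumberField IntermediateField Module

namespace Pool.Agent.EVC

variable {k F : Type} [Field k] [Field F] [Algebra k F] [Algebra k[X] F] [IsScalarTower k k[X] F]
variable (K : Type) [CharZero k] [Field K] [Algebra k[X] K] [IsFractionRing k[X] K] [Algebra K F]
  [IsScalarTower k[X] K F] [FiniteDimensional K F]

include K in
/-- the points above finitely many values are finite in number -/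
theorem finite_over (S : Set (AlgebraicClosure k)) (hS : S.Finite) :
    {P : Pt k F | algebraMap k[X] F X ∈ P.ring ∧ P.eval (algebraMap k[X] F X) ∈ S}.Finite := by
  refine (Set.Finite.biUnion hS fun c _ => finite_fibre (F := F) K c).subset ?_
  rintro P ⟨hx, hP⟩
  exact Set.mem_biUnion hP ⟨hx, rfl⟩

include K in
/-- there are only finitely many ramified points -/
theorem finite_ram_pts :
    {P : Pt k F | algebraMap k[X] F X ∈ P.ring ∧ 1 < P.ram (algebraMap k[X] F X)}.Finite := by
  classical
  have h1 := finite_ram (k := k) (F := F) K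
  have h2 : ∀ 𝔓 : Ideal (integralClosure k[X] F), {P : Pt k F | ∃ hx : algebraMap k[X] F X ∈ P.ring,
      P.center hx = 𝔓 ∧ ∃ b : k[X], Irreducible b ∧
        algebraMap k[X] (integralClosure k[X] F) b ∈ 𝔓 ^ 2}.Finite := by
    intro 𝔓
    by_cases h : ∃ b : k[X], Irreducible b ∧ algebraMap k[X] (integralClosure k[X] F) b ∈ 𝔓 ^ 2
    · obtain ⟨b, hb, hb2⟩ := h
      refine (finite_over (F := F) K _ (Polynomial.rootSet_finite b (AlgebraicClosure k))).subset ?_
      rintro P ⟨hx, rfl, -⟩
      refine ⟨hx, ?_⟩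
      rw [mem_rootSet]
      refine ⟨hb.ne_zero, ?_⟩
      rw [← P.ihom_algebraMap hx]
      exact Ideal.pow_le_self two_ne_zero hb2
    · refine Set.finite_empty.subset ?_
      rintro P ⟨hx, -, h3⟩
      exact (h h3).elim
  refine (Set.Finite.biUnion h1 fun 𝔓 _ => h2 𝔓).subset ?_
  rintro P ⟨hx, hP⟩
  obtain ⟨h3, -, -⟩ := ram_spec K P hx
  have h4 : algebraMap k[X] (integralClosure k[X] F)
      (minpoly k (P.eval (algebraMap k[X] F X))) ∈ P.center hx ^ 2 :=
    Ideal.pow_le_pow_right hP h3
  have h5 := minpoly.irreducible (isIntegral_ac (P.eval (algebraMap k[X] F X)))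
  exact Set.mem_biUnion (x := P.center hx) ⟨P.center_isPrime hx, _, h5, h4⟩
    ⟨hx, rfl, _, h5, h4⟩

end Pool.Agent.EVC
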