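import Pool.Agent.EVC.SumFib
import Pool.Agent.EVC.RamPts
import Pool.Agent.EVC.Glue

/-!
# The degree of the canonical divisor
-/

set_option autoImplicit false

open Polynomial NumberField IntermediateField Module

namespace Pool.Agent.EVC

variable {k F : Type} [Field k] [CharZero k] [Field F] [Algebra k F]

theorem finite_over' (hF : IsCurve k F) {x : F} (hx : Transcendental k x)
    (S : Set (AlgebraicClosure k)) (hS : S.Finite) :
    {P : Pt k F | x ∈ P.ring ∧ P.eval x ∈ S}.Finite := by
  have h0 := fin_adjoin hF hx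
  obtain ⟨_, _, _, _, _, hX⟩ := exists_setting x hx
  have := finite_over (k := k) (F := F) (IntermediateField.adjoin k {x}) S hS
  rwa [hX] at this

theorem finite_ram' (hF : IsCurve k F) {x : F} (hx : Transcendental k x) :
    {P : Pt k F | x ∈ P.ring ∧ 1 < P.ram x}.Finite := by
  have h0 := fin_adjoin hF hx
  obtain ⟨_, _, _, _, _, hX⟩ := exists_setting x hx
  have := finite_ram_pts (k := k) (F := F) (IntermediateField.adjoin k {x})
  rwa [hX] at this

theorem ram_pos' (hF : IsCurve k F) {x : F} (hx : Transcendental k x) (P : Pt k F)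
    (hP : x ∈ P.ring) : 1 ≤ P.ram x := by
  have h0 := fin_adjoin hF hx
  obtain ⟨_, _, _, _, _, hX⟩ := exists_setting x hx
  have h1 : algebraMap k[X] F X ∈ P.ring := by rwa [hX]
  have := (ram_spec (k := k) (F := F) (IntermediateField.adjoin k {x}) P h1).2.2
  rwa [hX] at this

theorem sum_zero' (hF : IsCurve k F) {x : F} (hx : Transcendental k x) :
    ∑ᶠ P ∈ {P : Pt k F | x ∈ P.ring ∧ P.eval x = 0}, P.ram x =
      finrank (IntermediateField.adjoin k {x}) F := by
  have h0 := fin_adjoin hF hx
  obtain ⟨_, _, _, _, _, hX⟩ := exists_setting x hx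
  have := sum_zero (k := k) (F := F) (IntermediateField.adjoin k {x})
  rwa [hX] at this

omit [CharZero k] in
theorem transcendental_inv {x : F} (hx : Transcendental k x) : Transcendental k x⁻¹ := by
  intro h
  apply hx
  simpa using h.inv

omit [CharZero k] in
theorem adjoin_inv (x : F) : IntermediateField.adjoin k {x⁻¹} = IntermediateField.adjoin k {x} := by
  apply le_antisymm
  · rw [IntermediateField.adjoin_simple_le_iff]
    exact inv_mem (IntermediateField.mem_adjoin_simple_self k x)
  · rw [IntermediateField.adjoin_simple_le_iff]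
    have := inv_mem (IntermediateField.mem_adjoin_simple_self k x⁻¹)
    rwa [inv_inv] at this

omit [CharZero k] in
/-- the poles of `x` are the zeros of `x⁻¹`, with the same ramification index -/
theorem pole_iff (P : Pt k F) (x : F) :
    x ∉ P.ring ↔ x ≠ 0 ∧ x⁻¹ ∈ P.ring ∧ P.eval x⁻¹ = 0 := by
  constructor
  · intro h
    refine ⟨?_, P.eval_inv_of_notMem h⟩
    rintro rfl
    exact h (zero_mem _)
  · rintro ⟨h0, h1, h2⟩ h3
    have := P.eval_mul h3 h1
    rw [mul_inv_cancel₀ h0, P.eval_one, h2, mul_zero] at this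
    exact one_ne_zero this

omit [CharZero k] in
theorem ram_inv (P : Pt k F) (x : F) (h : x ∉ P.ring) : P.ram x⁻¹ = P.ram x := by
  obtain ⟨h0, h1, h2⟩ := (pole_iff P x).1 h
  unfold Pt.ram
  rw [if_pos h1, if_neg h, h2]
  have h3 : minpoly k (0 : AlgebraicClosure k) = X := minpoly.zero k _
  rw [h3, aeval_X]

/-- the number of the poles of a function without ramified poles -/
theorem ncard_poles (hF : IsCurve k F) {x : F} (hx : Transcendental k x)
    (hinf : ∀ P : Pt k F, x ∉ P.ring → P.ram x = 1) :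
    {P : Pt k F | x ∉ P.ring}.Finite ∧
      {P : Pt k F | x ∉ P.ring}.ncard = finrank (IntermediateField.adjoin k {x}) F := by
  have hx0 : x ≠ 0 := by
    rintro rfl
    exact hx isAlgebraic_zero
  have hset : {P : Pt k F | x ∉ P.ring} = {P : Pt k F | x⁻¹ ∈ P.ring ∧ P.eval x⁻¹ = 0} := by
    ext P
    rw [Set.mem_ofPred_eq, pole_iff]
    exact ⟨fun h => h.2, fun h => ⟨hx0, h⟩⟩
  have hfin : {P : Pt k F | x ∉ P.ring}.Finite := by
    rw [hset]
    refine (finite_over' hF (transcendental_inv hx) {0} (Set.finite_singleton 0)).subset ?_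
    rintro P ⟨h1, h2⟩
    exact ⟨h1, h2⟩
  refine ⟨hfin, ?_⟩
  have h1 := sum_zero' hF (transcendental_inv hx)
  rw [adjoin_inv, ← hset] at h1
  rw [← h1, finsum_mem_eq_finite_toFinset_sum _ hfin, Set.ncard_eq_toFinset_card _ hfin,
    Finset.card_eq_sum_ones]
  refine Finset.sum_congr rfl fun P hP => ?_
  rw [Set.Finite.mem_toFinset] at hP
  rw [ram_inv P x hP, hinf P hP]

/-- **The formula of Hurwitz**: the sum of `e_P - 1` over all ramified points is the degree of the
canonical divisor and twice the degree of the map. -/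
theorem ramSum_eq (hF : IsCurve k F) {x : F} (hx : Transcendental k x) (D : ℕ → Prop)
    (hinf : ∀ P : Pt k F, x ∉ P.ring → P.ram x = 1)
    (hD : ∀ P : Pt k F, x ∈ P.ring → 1 < P.ram x →
      D (finrank k (IntermediateField.adjoin k {P.eval x}))) :
    (ramSum k x D : ℤ) = canDeg k x + 2 * finrank (IntermediateField.adjoin k {x}) F := by
  classical
  obtain ⟨f1, c1⟩ := ncard_poles hF hx hinf
  have f2 := finite_ram' hF hx
  set A := f2.toFinset with hA
  set B := f1.toFinset with hB
  have hAB : Disjoint A B := by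
    rw [Finset.disjoint_left]
    intro P h1 h2
    rw [hA, Set.Finite.mem_toFinset] at h1
    rw [hB, Set.Finite.mem_toFinset] at h2
    exact h2 h1.1
  have e1 : ramSum k x D = ∑ P ∈ A, (P.ram x - 1) := by
    unfold ramSum
    refine finsum_mem_eq_sum_of_inter_support_eq _ ?_
    ext P
    simp only [Set.mem_inter_iff, Function.mem_support, Set.mem_ofPred_eq, Finset.mem_coe, hA,
      Set.Finite.mem_toFinset]
    constructor
    · rintro ⟨⟨h1, h2⟩, h3⟩
      exact ⟨⟨h1, by omega⟩, h3⟩
    · rintro ⟨⟨h1, h2⟩, h3⟩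
      exact ⟨⟨h1, hD P h1 h2⟩, h3⟩
  have e2 : canDeg k x = ∑ P ∈ A ∪ B, (if x ∈ P.ring then (P.ram x : ℤ) - 1
      else -((P.ram x : ℤ) + 1)) := by
    unfold canDeg
    refine finsum_eq_sum_of_support_subset _ ?_
    intro P hP
    rw [Function.mem_support] at hP
    rw [Finset.coe_union, Set.mem_union, Finset.mem_coe, Finset.mem_coe, hA, hB,
      Set.Finite.mem_toFinset, Set.Finite.mem_toFinset]
    by_cases h1 : x ∈ P.ring
    · left
      rw [if_pos h1] at hP
      have := ram_pos' hF hx P h1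
      exact ⟨h1, by omega⟩
    · exact Or.inr h1
  have e3 : ∑ P ∈ A, (if x ∈ P.ring then (P.ram x : ℤ) - 1 else -((P.ram x : ℤ) + 1)) =
      ∑ P ∈ A, ((P.ram x - 1 : ℕ) : ℤ) := by
    refine Finset.sum_congr rfl fun P hP => ?_
    rw [hA, Set.Finite.mem_toFinset] at hP
    rw [if_pos hP.1]
    have := hP.2
    omega
  have e4 : ∑ P ∈ B, (if x ∈ P.ring then (P.ram x : ℤ) - 1 else -((P.ram x : ℤ) + 1)) =
      ∑ P ∈ B, (-2 : ℤ) := by
    refine Finset.sum_congr rfl fun P hP => ?_
    rw [hB, Set.Finite.mem_toFinset] at hP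
    rw [if_neg hP, hinf P hP]
    norm_num
  rw [e1, e2, Finset.sum_union hAB, e3, e4, ← c1, Set.ncard_eq_toFinset_card _ f1,
    Finset.sum_const, Nat.cast_sum, nsmul_eq_mul]
  ring

end Pool.Agent.EVC
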