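import Pool.Agent.HD.Viol

/-!
# The exponents
-/

set_option autoImplicit false

namespace Pool.Agent.EVC

private theorem clog_le (N : ℕ) (hN : 1 ≤ N) : (Nat.clog 2 N : ℝ) ≤ 7 * (N : ℝ) ^ (1 / 4 : ℝ) := by
  have hN1 : (1 : ℝ) ≤ N := by exact_mod_cast hN
  have h1 : (1 : ℝ) ≤ (N : ℝ) ^ (1 / 4 : ℝ) := Real.one_le_rpow hN1 (by norm_num)
  rcases Nat.lt_or_ge N 2 with h2 | h2
  · obtain rfl : N = 1 := by omega
    simp
  have h3 : 2 ^ (Nat.clog 2 N - 1) < N := Nat.pow_pred_clog_lt_self one_lt_two h2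
  have h4 : (2 : ℝ) ^ (Nat.clog 2 N - 1) ≤ N := by exact_mod_cast h3.le
  have h5 : ((Nat.clog 2 N - 1 : ℕ) : ℝ) * Real.log 2 ≤ Real.log N := by
    rw [← Real.log_pow]
    exact Real.log_le_log (by positivity) h4
  have h6 : Real.log N ≤ (N : ℝ) ^ (1 / 4 : ℝ) / (1 / 4) :=
    Real.log_le_rpow_div (by positivity) (by norm_num)
  have h7 : (0.6931471803 : ℝ) < Real.log 2 := Real.log_two_gt_d9
  have h8 : ((Nat.clog 2 N - 1 : ℕ) : ℝ) ≤ 6 * (N : ℝ) ^ (1 / 4 : ℝ) := by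
    have h9 : ((Nat.clog 2 N - 1 : ℕ) : ℝ) * 0.6931471803 ≤ 4 * (N : ℝ) ^ (1 / 4 : ℝ) := by
      calc ((Nat.clog 2 N - 1 : ℕ) : ℝ) * 0.6931471803 ≤
          ((Nat.clog 2 N - 1 : ℕ) : ℝ) * Real.log 2 :=
            mul_le_mul_of_nonneg_left h7.le (Nat.cast_nonneg _)
        _ ≤ _ := h5.trans h6
        _ = _ := by ring
    nlinarith [(Nat.cast_nonneg (Nat.clog 2 N - 1) : (0 : ℝ) ≤ _)]
  have h9 : (Nat.clog 2 N : ℝ) ≤ ((Nat.clog 2 N - 1 : ℕ) : ℝ) + 1 := by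
    have : Nat.clog 2 N ≤ Nat.clog 2 N - 1 + 1 := by omega
    exact_mod_cast this
  linarith

/-- the exponent of the number of fields is small -/
theorem ex_le (d ν : ℕ) (h : 1 ≤ d * ν) : HD.ex d ν ≤ 63 * Real.sqrt (d * ν) := by
  refine (min_le_right _ _).trans ?_
  have h1 := clog_le (d * ν) h
  have hN1 : (1 : ℝ) ≤ ((d * ν : ℕ) : ℝ) := by exact_mod_cast h
  set z : ℝ := ((d * ν : ℕ) : ℝ) ^ (1 / 4 : ℝ) with hz
  have hz1 : 1 ≤ z := Real.one_le_rpow hN1 (by norm_num)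
  have h2 : Real.sqrt (d * ν) = z ^ 2 := by
    rw [hz, ← Real.rpow_natCast, ← Real.rpow_mul (by positivity), Real.sqrt_eq_rpow]
    push_cast
    norm_num
  rw [h2]
  have h0 : (0 : ℝ) ≤ (Nat.clog 2 (d * ν) : ℝ) := Nat.cast_nonneg _
  nlinarith

/-- the number of the points is larger than the number of the points with a small discriminant -/
theorem exists_nu (a δ : ℝ) (ha : 0 ≤ a) (hδ : 0 ≤ δ) (n d : ℕ) (hn : 1 ≤ n) (hd : 1 ≤ d) :
    ∃ ν₀ : ℕ, n ≤ ν₀ ∧ ∀ ν : ℕ, ν₀ ≤ ν → (a * HD.ex d ν + 2) * (d * ν) + δ ≤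
      (((ν / n : ℕ) : ℝ) + 1) * (d * ((ν / n : ℕ) : ℝ)) := by
  set M : ℝ := (63 * a * Real.sqrt d + 2 + δ) * (2 * n ^ 2) with hM
  refine ⟨⌈M ^ 2⌉₊ + 2 * n, by omega, fun ν hν => ?_⟩
  have hd1 : (1 : ℝ) ≤ d := by exact_mod_cast hd
  have hn1 : (1 : ℝ) ≤ n := by exact_mod_cast hn
  have hν2 : 2 * n ≤ ν := by omega
  have hν1 : 1 ≤ ν := by omega
  have hνr : (1 : ℝ) ≤ ν := by exact_mod_cast hν1
  have hM0 : 0 ≤ M := by positivity
  have h1 : M ^ 2 ≤ ν := (Nat.le_ceil _).trans (by exact_mod_cast (by omega : ⌈M ^ 2⌉₊ ≤ ν))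
  have h2 : M ≤ Real.sqrt ν := Real.le_sqrt_of_sq_le h1
  have hs1 : 1 ≤ Real.sqrt ν := Real.one_le_sqrt.2 hνr
  have h3 := ex_le d ν (Nat.mul_pos hd hν1)
  rw [Real.sqrt_mul (by positivity)] at h3
  -- the lower bound
  set m := ν / n with hm
  have hm1 : (ν : ℝ) ≤ (m + 1) * n := by
    have := Nat.lt_succ_iff.2 (le_refl (ν / n))
    have h4 : ν < n * (ν / n + 1) := Nat.lt_mul_div_succ ν (by omega)
    rw [← hm] at h4
    have h5 : (ν : ℝ) < n * (m + 1) := by exact_mod_cast h4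
    linarith
  have hm2 : (ν : ℝ) ≤ m * (2 * n) := by
    have h4 : ν < n * (ν / n + 1) := Nat.lt_mul_div_succ ν (by omega)
    have h6 : 2 * n ≤ ν := hν2
    have h5 : ν ≤ m * (2 * n) := by
      rw [← hm] at h4
      nlinarith
    exact_mod_cast h5
  have hm0 : (0 : ℝ) ≤ m := Nat.cast_nonneg _
  have h6 : (ν : ℝ) * ν ≤ ((m + 1) * m) * (2 * n ^ 2) := by
    calc (ν : ℝ) * ν ≤ ((m + 1) * n) * (m * (2 * n)) :=
          mul_le_mul hm1 hm2 (by positivity) (by positivity)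
      _ = _ := by ring
  -- the upper bound
  have h7 : a * HD.ex d ν + 2 + δ ≤ (63 * a * Real.sqrt d + 2 + δ) * Real.sqrt ν := by
    have h8 : a * HD.ex d ν ≤ a * (63 * (Real.sqrt d * Real.sqrt ν)) :=
      mul_le_mul_of_nonneg_left h3 ha
    nlinarith
  have h8 : (a * HD.ex d ν + 2 + δ) * (2 * n ^ 2) ≤ ν := by
    calc (a * HD.ex d ν + 2 + δ) * (2 * n ^ 2) ≤
        ((63 * a * Real.sqrt d + 2 + δ) * Real.sqrt ν) * (2 * n ^ 2) :=
          mul_le_mul_of_nonneg_right h7 (by positivity)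
      _ = M * Real.sqrt ν := by rw [hM]; ring
      _ ≤ Real.sqrt ν * Real.sqrt ν := mul_le_mul_of_nonneg_right h2 (by positivity)
      _ = ν := Real.mul_self_sqrt (by positivity)
  have hex := HD.ex_nonneg d ν
  have h9 : (a * HD.ex d ν + 2 + δ) * ν ≤ (m + 1) * m := by
    have h10 : ((a * HD.ex d ν + 2 + δ) * ν) * (2 * n ^ 2) ≤ ((m + 1) * m) * (2 * n ^ 2) := by
      refine le_trans ?_ h6
      calc ((a * HD.ex d ν + 2 + δ) * ν) * (2 * (n : ℝ) ^ 2) =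
          ((a * HD.ex d ν + 2 + δ) * (2 * (n : ℝ) ^ 2)) * (ν : ℝ) := by ring
        _ ≤ (ν : ℝ) * (ν : ℝ) := mul_le_mul_of_nonneg_right h8 (by positivity)
    exact le_of_mul_le_mul_right h10 (by positivity)
  calc (a * HD.ex d ν + 2) * (d * ν) + δ ≤ (a * HD.ex d ν + 2) * (d * ν) + δ * (d * ν) := by
        have : (1 : ℝ) ≤ d * ν := by nlinarith
        nlinarith
    _ = ((a * HD.ex d ν + 2 + δ) * ν) * d := by ring
    _ ≤ ((m + 1) * m) * d := mul_le_mul_of_nonneg_right h9 (by positivity)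
    _ = _ := by ring

end Pool.Agent.EVC
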