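import Pool.Agent.EVC.Cnt
import Pool.Agent.EVC.Num
import Pool.Agent.AA.Prox
import Pool.Agent.EVC.Inf

/-!
# Almost all points of bounded degree
-/

set_option autoImplicit false

open Polynomial NumberField IntermediateField Module

namespace Pool.Agent.EVC

section Core

variable (k : Type) [Field k] [NumberField k] {t : ℕ} (p : Fin t → ℕ)
    [∀ i, Fact (p i).Prime] (hp : Function.Injective p) (g : k[X]) (q : ℕ)
    (hq : q = g.natDegree ∨ q = g.natDegree + 1)
    (F : Type) [Field F] [Algebra k F] [Algebra k[X] F] [IsScalarTower k k[X] F]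
    (K : Type) [Field K] [Algebra k[X] K] [IsFractionRing k[X] K] [Algebra K F]
    [IsScalarTower k[X] K F] [FiniteDimensional K F]

omit [Algebra k[X] F] [IsScalarTower k k[X] F] [NumberField k] in
private theorem value_le (P : Pt k F) (x : F) (hx : x ∈ P.ring)
    (hfin : FiniteDimensional k P.field) :
    finrank k (IntermediateField.adjoin k {P.eval x}) ≤ finrank k P.field := by
  have hle : IntermediateField.adjoin k {P.eval x} ≤ P.field := by
    rw [IntermediateField.adjoin_simple_le_iff, P.eval_of_mem hx]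
    exact IntermediateField.subset_adjoin _ _ ⟨_, rfl⟩
  exact IntermediateField.finrank_le_of_le_right hle

include K in
private theorem ptsLe_finite (ν : ℕ) (T : ℝ) (hT : 0 ≤ T) :
    (PtsLe k (algebraMap k[X] F X) ν T).Finite := by
  have h1 : (⋃ m ∈ Finset.Icc 1 ν, {c : AlgebraicClosure k |
      finrank k (IntermediateField.adjoin k {c}) = m ∧ AA.height c ≤ T}).Finite := by
    refine Set.Finite.biUnion (Finset.finite_toSet _) fun m hm => ?_
    exact SFD.bounded_finite k m (Finset.mem_Icc.1 hm).1 T hT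
  refine (finite_over K _ h1).subset ?_
  rintro P ⟨hx, h2, h3⟩
  refine ⟨hx, ?_⟩
  have hfin := (finrank_field_le K P hx).1
  have h4 := (value_le k F P _ hx hfin).trans h2
  have h5 : 1 ≤ finrank k (IntermediateField.adjoin k {P.eval (algebraMap k[X] F X)}) := by
    have : FiniteDimensional k (IntermediateField.adjoin k {P.eval (algebraMap k[X] F X)}) :=
      IntermediateField.adjoin.finiteDimensional (isIntegral_ac _)
    exact finrank_pos
  rw [Set.mem_iUnion₂]
  exact ⟨_, Finset.mem_Icc.2 ⟨h5, h4⟩, rfl, h3⟩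

include K in
private theorem small_core (A B : ℝ) (hA : 0 ≤ A) (hB : 0 ≤ B) (ν : ℕ) : ∃ C : ℝ, ∀ T : ℝ, 0 ≤ T →
    {P : Pt k F | algebraMap k[X] F X ∈ P.ring ∧
      finrank k (IntermediateField.adjoin k {P.eval (algebraMap k[X] F X)}) ≤ ν ∧
      AA.height (P.eval (algebraMap k[X] F X)) ≤ T ∧
      P.logDiscr ≤ A * AA.height (P.eval (algebraMap k[X] F X)) + B}.Finite ∧
    ({P : Pt k F | algebraMap k[X] F X ∈ P.ring ∧
      finrank k (IntermediateField.adjoin k {P.eval (algebraMap k[X] F X)}) ≤ ν ∧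
      AA.height (P.eval (algebraMap k[X] F X)) ≤ T ∧
      P.logDiscr ≤ A * AA.height (P.eval (algebraMap k[X] F X)) + B}.ncard : ℝ) ≤
      C * Real.exp ((A * HD.ex (finrank ℚ k) ν + 2) * (finrank ℚ k * ν) * T) := by
  classical
  obtain ⟨y, s, hs0, hs, hdeg, hQ⟩ := exists_model (k := k) (F := F) K
  obtain ⟨hmon, hirr⟩ := minpoly_ok K y
  obtain ⟨C₁, hup⟩ := RP2.all_deg k (minpoly k[X] y) hmon A B hA hB ν
  set b := {P : Pt k F | algebraMap k[X] F X ∈ P.ring ∧
      P.eval (algebraMap k[X] F X) ∈ s.rootSet (AlgebraicClosure k)}.ncard with hb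
  refine ⟨|C₁| + b, fun T hT => ?_⟩
  set V := {P : Pt k F | algebraMap k[X] F X ∈ P.ring ∧
      finrank k (IntermediateField.adjoin k {P.eval (algebraMap k[X] F X)}) ≤ ν ∧
      AA.height (P.eval (algebraMap k[X] F X)) ≤ T ∧
      P.logDiscr ≤ A * AA.height (P.eval (algebraMap k[X] F X)) + B} with hV
  set W := {Q : AlgebraicClosure k × AlgebraicClosure k |
        ((minpoly k[X] y).map (mapRingHom (algebraMap k (AlgebraicClosure k)))).evalEval
          Q.1 Q.2 = 0 ∧
        finrank k (IntermediateField.adjoin k {Q.1}) ≤ ν ∧ AA.height Q.1 ≤ T ∧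
        HD.logDiscr Q ≤ A * AA.height Q.1 + B} with hW
  obtain ⟨hWf, hWc⟩ := hup T hT
  obtain ⟨hVf, hVW⟩ := trans_upper K y s hs0 hs W V (fun P hP => hP.1) (fun P hP he => by
    obtain ⟨hx, h1, h2, h3⟩ := hP
    exact ⟨evalEval_pair P hx y, h1, h2, by rw [← he]; exact h3⟩) hWf
  refine ⟨hVf, ?_⟩
  have hex := HD.ex_nonneg (finrank ℚ k) ν
  set e : ℝ := Real.exp ((A * HD.ex (finrank ℚ k) ν + 2) * (finrank ℚ k * ν) * T) with he
  have h3 : (V.ncard : ℝ) ≤ W.ncard + b := by exact_mod_cast hVW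
  have h4 : (1 : ℝ) ≤ e := Real.one_le_exp (by positivity)
  have h5 : C₁ * e ≤ |C₁| * e := mul_le_mul_of_nonneg_right (le_abs_self _) (Real.exp_pos _).le
  have h6 : (b : ℝ) ≤ b * e := le_mul_of_one_le_right (Nat.cast_nonneg _) h4
  calc (V.ncard : ℝ) ≤ W.ncard + b := h3
    _ ≤ |C₁| * e + b * e := by linarith [hWc]
    _ = _ := by ring

include hp hq K in
private theorem all_core (A B δ : ℝ) (hδ : 0 ≤ δ) : ∃ ν₀ : ℕ, ∀ ν : ℕ, ν₀ ≤ ν → ∃ C : ℝ, ∀ T : ℝ,
    0 ≤ T → (PtsLe k (algebraMap k[X] F X) ν T).Finite ∧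
      ({P ∈ PtsLe k (algebraMap k[X] F X) ν T | aeval (P.eval (algebraMap k[X] F X)) g ≠ 0 ∧
        P.logDiscr ≤ AA.proximity p g q (P.eval (algebraMap k[X] F X)) +
          A * AA.height (P.eval (algebraMap k[X] F X)) + B}.ncard : ℝ) ≤
        C * Real.exp (-δ * T) * (PtsLe k (algebraMap k[X] F X) ν T).ncard := by
  classical
  obtain ⟨y, s, hs0, hs, hdeg, hQ⟩ := exists_model (k := k) (F := F) K
  obtain ⟨hmon, hirr⟩ := minpoly_ok K y
  set n := finrank K F with hn
  have hn1 : 1 ≤ n := finrank_pos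
  set d := finrank ℚ k with hd
  have hd1 : 1 ≤ d := finrank_pos
  obtain ⟨C₀, hC₀, hprox⟩ := AA.prox_first k p hp g q (by omega)
  set A₁ : ℝ := max A 0 + q with hA₁
  set B₁ : ℝ := C₀ + max B 0 with hB₁
  have hA₁0 : 0 ≤ A₁ := add_nonneg (le_max_right _ _) (Nat.cast_nonneg _)
  have hB₁0 : 0 ≤ B₁ := add_nonneg hC₀ (le_max_right _ _)
  obtain ⟨ν₀, hν₀, hnum⟩ := exists_nu A₁ δ hA₁0 hδ n d hn1 hd1
  refine ⟨ν₀, fun ν hν => ?_⟩
  set m := ν / n with hm
  have hm1 : 1 ≤ m := (Nat.one_le_div_iff (by omega)).2 (hν₀.trans hν)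
  obtain ⟨C₁, hup⟩ := RP2.all_deg k (minpoly k[X] y) hmon A₁ B₁ hA₁0 hB₁0 ν
  obtain ⟨c, T₀, hc, hlow⟩ := COV.lower k (minpoly k[X] y) hmon (by rw [hdeg]; exact hn1) m hm1
  set b := {P : Pt k F | algebraMap k[X] F X ∈ P.ring ∧
      P.eval (algebraMap k[X] F X) ∈ s.rootSet (AlgebraicClosure k)}.ncard with hb
  set E₁ : ℝ := (A₁ * HD.ex d ν + 2) * (d * ν) with hE₁
  set E₂ : ℝ := (m + 1) * (d * m) with hE₂
  have hE : E₁ + δ ≤ E₂ := hnum ν hν
  have hE₁0 : 0 ≤ E₁ := by
    have := HD.ex_nonneg d ν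
    positivity
  refine ⟨max ((|C₁| + b) / c) (Real.exp (δ * max 0 T₀)), fun T hT => ?_⟩
  have hPf := ptsLe_finite k F K ν T hT
  refine ⟨hPf, ?_⟩
  set N := (PtsLe k (algebraMap k[X] F X) ν T).ncard with hN
  set V := {P ∈ PtsLe k (algebraMap k[X] F X) ν T | aeval (P.eval (algebraMap k[X] F X)) g ≠ 0 ∧
        P.logDiscr ≤ AA.proximity p g q (P.eval (algebraMap k[X] F X)) +
          A * AA.height (P.eval (algebraMap k[X] F X)) + B} with hV
  have hVN : V.ncard ≤ N := Set.ncard_le_ncard (Set.sep_subset _ _) hPf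
  set W := {Q : AlgebraicClosure k × AlgebraicClosure k |
        ((minpoly k[X] y).map (mapRingHom (algebraMap k (AlgebraicClosure k)))).evalEval
          Q.1 Q.2 = 0 ∧
        finrank k (IntermediateField.adjoin k {Q.1}) ≤ ν ∧ AA.height Q.1 ≤ T ∧
        HD.logDiscr Q ≤ A₁ * AA.height Q.1 + B₁} with hW
  obtain ⟨hWf, hWc⟩ := hup T hT
  obtain ⟨-, hVW⟩ := trans_upper K y s hs0 hs W V (fun P hP => hP.1.1) (fun P hP he => by
    obtain ⟨⟨hx, h1, h2⟩, h3, h4⟩ := hP
    have hfin := (finrank_field_le K P hx).1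
    refine ⟨evalEval_pair P hx y, (value_le k F P _ hx hfin).trans h1, h2, ?_⟩
    rw [← he]
    refine h4.trans ?_
    have h5 : AA.proximity p g q (P.eval (algebraMap k[X] F X)) ≤
        q * AA.height (P.eval (algebraMap k[X] F X)) + C₀ := by
      refine hprox _ _ ?_
      intro h6
      apply h3
      have h7 := congrArg (algebraMap (IntermediateField.adjoin k
        {P.eval (algebraMap k[X] F X)}) (AlgebraicClosure k)) h6
      rwa [map_zero, ← aeval_algebraMap_apply, AdjoinSimple.algebraMap_gen] at h7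
    have h6 : 0 ≤ AA.height (P.eval (algebraMap k[X] F X)) := SFD.height_nonneg _
    have h7 := mul_le_mul_of_nonneg_right (le_max_left A 0) h6
    have h8 := le_max_left B 0
    rw [hA₁, hB₁]
    linarith) hWf
  have hNlow : T₀ ≤ T → c * Real.exp (E₂ * T) ≤ N := by
    intro hT₀
    obtain ⟨-, h1⟩ := hlow T hT₀
    have h2 := trans_lower K y m hm1 T hT (fun _ => True)
    have e1 : {Q ∈ COV.Pts k (minpoly k[X] y) m T | True} = COV.Pts k (minpoly k[X] y) m T :=
      Set.ext fun Q => ⟨fun h => h.1, fun h => ⟨h, trivial⟩⟩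
    have e2 : {P ∈ Pts k (algebraMap k[X] F X) m T | True} = Pts k (algebraMap k[X] F X) m T :=
      Set.ext fun Q => ⟨fun h => h.1, fun h => ⟨h, trivial⟩⟩
    rw [e1, e2] at h2
    have h3 : (Pts k (algebraMap k[X] F X) m T).ncard ≤ N := by
      refine Set.ncard_le_ncard ?_ hPf
      rintro P ⟨hx, h4, h5⟩
      refine ⟨hx, ?_, h5⟩
      have h6 := (finrank_field_le K P hx).2
      rw [h4] at h6
      exact h6.trans (Nat.mul_div_le ν n)
    refine h1.trans ?_
    exact_mod_cast h2.trans h3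
  have hN0 : (0 : ℝ) ≤ N := Nat.cast_nonneg _
  by_cases hT₀ : max 0 T₀ ≤ T
  · have h1 := hNlow ((le_max_right _ _).trans hT₀)
    have h2 : (V.ncard : ℝ) ≤ (|C₁| + b) * Real.exp (E₁ * T) := by
      have h3 : (V.ncard : ℝ) ≤ W.ncard + b := by exact_mod_cast hVW
      have h4 : (1 : ℝ) ≤ Real.exp (E₁ * T) := Real.one_le_exp (by positivity)
      have h5 : C₁ * Real.exp (E₁ * T) ≤ |C₁| * Real.exp (E₁ * T) :=
        mul_le_mul_of_nonneg_right (le_abs_self _) (Real.exp_pos _).le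
      have h6 : (b : ℝ) ≤ b * Real.exp (E₁ * T) := le_mul_of_one_le_right (Nat.cast_nonneg _) h4
      calc (V.ncard : ℝ) ≤ W.ncard + b := h3
        _ ≤ |C₁| * Real.exp (E₁ * T) + b * Real.exp (E₁ * T) := by linarith [hWc]
        _ = _ := by ring
    have h3 : Real.exp (E₁ * T) ≤ Real.exp (-δ * T) * Real.exp (E₂ * T) := by
      rw [← Real.exp_add]
      refine Real.exp_le_exp.2 ?_
      have := mul_le_mul_of_nonneg_right hE hT
      linarith
    calc (V.ncard : ℝ) ≤ (|C₁| + b) * Real.exp (E₁ * T) := h2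
      _ ≤ (|C₁| + b) * (Real.exp (-δ * T) * Real.exp (E₂ * T)) :=
          mul_le_mul_of_nonneg_left h3 (by positivity)
      _ = ((|C₁| + b) / c) * Real.exp (-δ * T) * (c * Real.exp (E₂ * T)) := by
          field_simp
      _ ≤ ((|C₁| + b) / c) * Real.exp (-δ * T) * N :=
          mul_le_mul_of_nonneg_left h1 (by positivity)
      _ ≤ _ := mul_le_mul_of_nonneg_right (mul_le_mul_of_nonneg_right (le_max_left _ _)
          (Real.exp_pos _).le) hN0
  · push Not at hT₀
    have h1 : (1 : ℝ) ≤ Real.exp (δ * max 0 T₀) * Real.exp (-δ * T) := by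
      rw [← Real.exp_add]
      refine Real.one_le_exp ?_
      have := mul_le_mul_of_nonneg_left hT₀.le hδ
      linarith
    calc (V.ncard : ℝ) ≤ N := by exact_mod_cast hVN
      _ = 1 * (N : ℝ) := (one_mul _).symm
      _ ≤ (Real.exp (δ * max 0 T₀) * Real.exp (-δ * T)) * N :=
          mul_le_mul_of_nonneg_right h1 hN0
      _ ≤ _ := mul_le_mul_of_nonneg_right (mul_le_mul_of_nonneg_right (le_max_right _ _)
          (Real.exp_pos _).le) hN0

end Core

/-- the residue fields are finite extensions -/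
theorem Pt.finite_field {k F : Type} [Field k] [CharZero k] [Field F] [Algebra k F]
    (hF : IsCurve k F) (P : Pt k F) : FiniteDimensional k P.field := by
  obtain ⟨x, hx, hP⟩ : ∃ x : F, Transcendental k x ∧ x ∈ P.ring := by
    obtain ⟨t, ht, -⟩ := hF
    rcases P.ring.mem_or_inv_mem t with h | h
    · exact ⟨t, ht, h⟩
    · exact ⟨t⁻¹, transcendental_inv ht, h⟩
  have h0 := fin_adjoin hF hx
  obtain ⟨_, _, _, _, _, hX⟩ := exists_setting x hx
  exact (finrank_field_le (k := k) (F := F) (IntermediateField.adjoin k {x}) P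
    (by rwa [hX])).1

variable (k : Type) [Field k] [NumberField k] {t : ℕ} (p : Fin t → ℕ)
    [∀ i, Fact (p i).Prime] (hp : Function.Injective p) (g : k[X]) (q : ℕ)
    (hq : q = g.natDegree ∨ q = g.natDegree + 1)
    (F : Type) [Field F] [Algebra k F] (hF : IsCurve k F) {x : F} (hx : Transcendental k x)

omit [∀ i, Fact (p i).Prime] in
include hF hx in
/-- the points with a small discriminant above the numbers of degree at most `ν` -/
theorem small_curve (A B : ℝ) (hA : 0 ≤ A) (hB : 0 ≤ B) (ν : ℕ) : ∃ C : ℝ, ∀ T : ℝ, 0 ≤ T →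
    {P : Pt k F | x ∈ P.ring ∧ finrank k (IntermediateField.adjoin k {P.eval x}) ≤ ν ∧
      AA.height (P.eval x) ≤ T ∧ P.logDiscr ≤ A * AA.height (P.eval x) + B}.Finite ∧
    ({P : Pt k F | x ∈ P.ring ∧ finrank k (IntermediateField.adjoin k {P.eval x}) ≤ ν ∧
      AA.height (P.eval x) ≤ T ∧ P.logDiscr ≤ A * AA.height (P.eval x) + B}.ncard : ℝ) ≤
      C * Real.exp ((A * HD.ex (finrank ℚ k) ν + 2) * (finrank ℚ k * ν) * T) := by
  have h0 := fin_adjoin hF hx
  obtain ⟨_, _, _, _, _, hX⟩ := exists_setting x hx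
  have h1 := small_core k F (IntermediateField.adjoin k {x}) A B hA hB ν
  rwa [hX] at h1

include hp hq hF hx

/-- **Almost all points of degree at most `ν`**, for all large `ν` -/
theorem all_curve (A B δ : ℝ) (hδ : 0 ≤ δ) : ∃ ν₀ : ℕ, ∀ ν : ℕ, ν₀ ≤ ν → ∃ C : ℝ, ∀ T : ℝ,
    0 ≤ T → (PtsLe k x ν T).Finite ∧
      ({P ∈ PtsLe k x ν T | aeval (P.eval x) g ≠ 0 ∧ P.logDiscr ≤
        AA.proximity p g q (P.eval x) + A * AA.height (P.eval x) + B}.ncard : ℝ) ≤
        C * Real.exp (-δ * T) * (PtsLe k x ν T).ncard := by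
  have h0 := fin_adjoin hF hx
  obtain ⟨_, _, _, _, _, hX⟩ := exists_setting x hx
  have h1 := all_core k p hp g q hq F (IntermediateField.adjoin k {x}) A B δ hδ
  rwa [hX] at h1

end Pool.Agent.EVC
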