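import Pool.Agent.EVC.Defs

/-!
# Basic facts on geometric points
-/

set_option autoImplicit false

open Polynomial NumberField IntermediateField Module

namespace Pool.Agent.EVC

section Values

variable {k F : Type} [Field k] [Field F] [Algebra k F] (P : Pt k F)

theorem Pt.eval_of_mem {f : F} (hf : f ∈ P.ring) : P.eval f = P.val ⟨f, hf⟩ := dif_pos hf

theorem Pt.eval_coe (z : P.ring) : P.eval (z : F) = P.val z := P.eval_of_mem z.2

theorem Pt.eval_const (c : k) :
    P.eval (algebraMap k F c) = algebraMap k (AlgebraicClosure k) c := by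
  rw [P.eval_of_mem (P.const c), P.val_const]

theorem Pt.eval_zero : P.eval 0 = 0 := by
  have := P.eval_const 0
  rwa [map_zero, map_zero] at this

theorem Pt.eval_one : P.eval 1 = 1 := by
  have := P.eval_const 1
  rwa [map_one, map_one] at this

theorem Pt.eval_add {f g : F} (hf : f ∈ P.ring) (hg : g ∈ P.ring) :
    P.eval (f + g) = P.eval f + P.eval g := by
  rw [P.eval_of_mem hf, P.eval_of_mem hg, P.eval_of_mem (add_mem hf hg), ← map_add]
  rfl

theorem Pt.eval_sub {f g : F} (hf : f ∈ P.ring) (hg : g ∈ P.ring) :
    P.eval (f - g) = P.eval f - P.eval g := by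
  rw [P.eval_of_mem hf, P.eval_of_mem hg, P.eval_of_mem (sub_mem hf hg), ← map_sub]
  rfl

theorem Pt.eval_mul {f g : F} (hf : f ∈ P.ring) (hg : g ∈ P.ring) :
    P.eval (f * g) = P.eval f * P.eval g := by
  rw [P.eval_of_mem hf, P.eval_of_mem hg, P.eval_of_mem (mul_mem hf hg), ← map_mul]
  rfl

theorem Pt.eval_pow {f : F} (hf : f ∈ P.ring) (n : ℕ) : P.eval (f ^ n) = P.eval f ^ n := by
  rw [P.eval_of_mem hf, P.eval_of_mem (pow_mem hf n), ← map_pow]
  rfl

/-- an element of the local ring has the value `0` if and only if it is in the maximal ideal -/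
theorem Pt.val_eq_zero (z : P.ring) : P.val z = 0 ↔ z ∈ IsLocalRing.maximalIdeal P.ring := by
  rw [← P.ker, RingHom.mem_ker]

/-- an element of the local ring is a unit if and only if its value is not `0` -/
theorem Pt.isUnit_iff (z : P.ring) : IsUnit z ↔ P.val z ≠ 0 := by
  rw [Ne, P.val_eq_zero, IsLocalRing.mem_maximalIdeal, mem_nonunits_iff, not_not]

/-- the inverse of a function with a value other than `0` is regular -/
theorem Pt.inv_mem {f : F} (hf : f ∈ P.ring) (h : P.eval f ≠ 0) : f⁻¹ ∈ P.ring := by
  rw [P.eval_of_mem hf, ← P.isUnit_iff] at h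
  obtain ⟨u, hu⟩ := h
  have h1 : f * ((u⁻¹ : P.ringˣ) : P.ring) = 1 := by
    have h2 : ((u : P.ring) : F) = f := congrArg Subtype.val hu
    rw [← h2]
    exact congrArg Subtype.val u.mul_inv
  rw [← eq_inv_of_mul_eq_one_right h1]
  exact Subtype.prop _

theorem Pt.ne_zero_of_eval {f : F} (h : P.eval f ≠ 0) : f ≠ 0 := by
  rintro rfl
  exact h P.eval_zero

theorem Pt.eval_inv {f : F} (hf : f ∈ P.ring) (h : P.eval f ≠ 0) :
    P.eval f⁻¹ = (P.eval f)⁻¹ := by
  refine eq_inv_of_mul_eq_one_left ?_
  rw [← P.eval_mul (P.inv_mem hf h) hf, inv_mul_cancel₀ (P.ne_zero_of_eval h), P.eval_one]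

/-- the value at a zero of `f⁻¹` -/
theorem Pt.eval_inv_of_notMem {f : F} (hf : f ∉ P.ring) : f⁻¹ ∈ P.ring ∧ P.eval f⁻¹ = 0 := by
  have h1 : f⁻¹ ∈ P.ring := (P.ring.mem_or_inv_mem f).resolve_left hf
  refine ⟨h1, ?_⟩
  by_contra h
  apply hf
  have := P.inv_mem h1 h
  rwa [inv_inv] at this

theorem Pt.aeval_mem {f : F} (hf : f ∈ P.ring) (g : k[X]) : aeval f g ∈ P.ring := by
  rw [aeval_eq_sum_range]
  apply sum_mem
  intro i _
  rw [Algebra.smul_def]
  exact mul_mem (P.const _) (pow_mem hf i)

/-- the value of a polynomial in `f` -/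
theorem Pt.eval_aeval {f : F} (hf : f ∈ P.ring) (g : k[X]) :
    P.eval (aeval f g) = aeval (P.eval f) g := by
  induction g using Polynomial.induction_on' with
  | add p q hp hq =>
    rw [map_add, map_add, P.eval_add (P.aeval_mem hf p) (P.aeval_mem hf q), hp, hq]
  | monomial n a =>
    rw [aeval_monomial, aeval_monomial, P.eval_mul (P.const a) (pow_mem hf n), P.eval_const,
      P.eval_pow hf]

/-- the local ring of a point is not the field, if there is a function which is not constant -/
theorem Pt.ne_top {t : F} (ht : Transcendental k t) : P.ring ≠ ⊤ := by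
  intro h
  have h1 : t ∈ P.ring := by
    rw [h]
    exact ValuationSubring.mem_top t
  obtain ⟨g, hg, hg0⟩ : IsAlgebraic k (P.eval t) := Algebra.IsAlgebraic.isAlgebraic _
  have h2 : P.eval (aeval t g) = 0 := by rw [P.eval_aeval h1, hg0]
  have h3 : aeval t g ≠ 0 := fun h0 => ht ⟨g, hg, h0⟩
  have h4 : (aeval t g)⁻¹ ∈ P.ring := by
    rw [h]
    exact ValuationSubring.mem_top _
  have h5 := P.eval_mul (P.aeval_mem h1 g) h4
  rw [mul_inv_cancel₀ h3, h2, zero_mul, P.eval_one] at h5
  exact one_ne_zero h5

end Values

section Rings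

variable {k F : Type} [Field k] [Field F] [Algebra k F] [Algebra k[X] F] [IsScalarTower k k[X] F]

theorem algebraMap_eq (g : k[X]) : algebraMap k[X] F g = aeval (algebraMap k[X] F X) g := by
  rw [aeval_algebraMap_apply, aeval_X_left_apply]

/-- the functions which are integral over `k[x]` are regular at the points where `x` is regular -/
theorem Pt.int_mem (P : Pt k F) (hx : algebraMap k[X] F X ∈ P.ring)
    (r : integralClosure k[X] F) : (r : F) ∈ P.ring := by
  have h1 : ∀ g : k[X], algebraMap k[X] F g ∈ P.ring := fun g => by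
    rw [algebraMap_eq]
    exact P.aeval_mem hx g
  let j : k[X] →+* P.ring := (algebraMap k[X] F).codRestrict P.ring h1
  obtain ⟨p, hp, hp'⟩ := r.2
  have hz' : IsIntegral P.ring (r : F) := by
    refine ⟨p.map j, hp.map j, ?_⟩
    rw [eval₂_map]
    exact hp'
  obtain ⟨y, hy⟩ := (IsIntegrallyClosed.isIntegral_iff (R := P.ring) (K := F)).1 hz'
  rw [← hy]
  exact y.2

/-- the value at the point `P`, on the ring of the functions which are integral over `k[x]` -/
noncomputable def Pt.ihom (P : Pt k F) (hx : algebraMap k[X] F X ∈ P.ring) :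
    integralClosure k[X] F →ₐ[k] AlgebraicClosure k where
  toFun := fun r => P.eval r
  map_one' := P.eval_one
  map_mul' := fun r s => P.eval_mul (P.int_mem hx r) (P.int_mem hx s)
  map_zero' := P.eval_zero
  map_add' := fun r s => P.eval_add (P.int_mem hx r) (P.int_mem hx s)
  commutes' := fun c => P.eval_const c

theorem Pt.ihom_apply (P : Pt k F) (hx : algebraMap k[X] F X ∈ P.ring)
    (r : integralClosure k[X] F) : P.ihom hx r = P.eval (r : F) := rfl

theorem Pt.ihom_algebraMap (P : Pt k F) (hx : algebraMap k[X] F X ∈ P.ring) (g : k[X]) :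
    P.ihom hx (algebraMap k[X] (integralClosure k[X] F) g) =
      aeval (P.eval (algebraMap k[X] F X)) g := by
  rw [P.ihom_apply, ← P.eval_aeval hx, ← algebraMap_eq]
  rfl

/-- the prime ideal of the point `P` in the ring of the functions integral over `k[x]` -/
noncomputable def Pt.center (P : Pt k F) (hx : algebraMap k[X] F X ∈ P.ring) :
    Ideal (integralClosure k[X] F) := RingHom.ker (P.ihom hx)

theorem Pt.mem_center (P : Pt k F) (hx : algebraMap k[X] F X ∈ P.ring)
    (r : integralClosure k[X] F) : r ∈ P.center hx ↔ P.eval (r : F) = 0 := Iff.rfl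

instance Pt.center_isPrime (P : Pt k F) (hx : algebraMap k[X] F X ∈ P.ring) :
    (P.center hx).IsPrime := RingHom.ker_isPrime _

variable (K : Type) [CharZero k] [Field K] [Algebra k[X] K] [IsFractionRing k[X] K] [Algebra K F]
  [IsScalarTower k[X] K F] [FiniteDimensional K F]

include K in
omit [Algebra k F] [IsScalarTower k k[X] F] in
/-- the ring of the functions which are integral over `k[x]` -/
theorem ded : IsDedekindDomain (integralClosure k[X] F) ∧
    IsFractionRing (integralClosure k[X] F) F ∧ Module.Finite k[X] (integralClosure k[X] F) := by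
  have h3 : CharZero K := by
    have h4 : CharZero k[X] := inferInstance
    exact charZero_of_injective_algebraMap (IsFractionRing.injective k[X] K)
  exact ⟨integralClosure.isDedekindDomain k[X] K F,
    integralClosure.isFractionRing_of_finite_extension K F, IsIntegralClosure.finite k[X] K F _⟩

include K in
omit [Algebra k F] [IsScalarTower k k[X] F] [CharZero k] [FiniteDimensional K F] in
theorem algebraMap_inj_field : Function.Injective (algebraMap k[X] F) := by
  intro a b h2
  rw [IsScalarTower.algebraMap_apply k[X] K F, IsScalarTower.algebraMap_apply k[X] K F] at h2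
  exact IsFractionRing.injective k[X] K ((algebraMap K F).injective h2)

include K in
omit [Algebra k F] [IsScalarTower k k[X] F] [CharZero k] [FiniteDimensional K F] in
theorem algebraMap_inj : Function.Injective (algebraMap k[X] (integralClosure k[X] F)) := by
  intro a b hab
  exact algebraMap_inj_field K (congrArg Subtype.val hab)

include K in
omit [Algebra k F] [IsScalarTower k k[X] F] [CharZero k] [FiniteDimensional K F] in
theorem tf : Module.IsTorsionFree k[X] (integralClosure k[X] F) :=
  Module.isTorsionFree_iff_algebraMap_injective.2 (algebraMap_inj K)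

include K in
omit [CharZero k] [FiniteDimensional K F] in
/-- the function `x` is transcendental -/
theorem transcendental : Transcendental k (algebraMap k[X] F X) := by
  rw [transcendental_iff]
  intro g hg
  rw [← algebraMap_eq, IsScalarTower.algebraMap_apply k[X] K F, map_eq_zero] at hg
  exact (map_eq_zero_iff _ (IsFractionRing.injective k[X] K)).1 hg

include K in
omit [CharZero k] [FiniteDimensional K F] in
/-- the prime ideal of a point is not zero -/
theorem Pt.center_ne_bot (P : Pt k F) (hx : algebraMap k[X] F X ∈ P.ring) : P.center hx ≠ ⊥ := by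
  obtain ⟨g, hg, hg0⟩ : IsAlgebraic k (P.eval (algebraMap k[X] F X)) :=
    Algebra.IsAlgebraic.isAlgebraic _
  intro h
  have h1 : algebraMap k[X] (integralClosure k[X] F) g ∈ P.center hx := by
    change P.ihom hx _ = 0
    rw [P.ihom_algebraMap, hg0]
  rw [h, Ideal.mem_bot] at h1
  have h2 : algebraMap k[X] F g = 0 := congrArg Subtype.val h1
  rw [IsScalarTower.algebraMap_apply k[X] K F, map_eq_zero] at h2
  exact hg ((map_eq_zero_iff _ (IsFractionRing.injective k[X] K)).1 h2)

end Rings

end Pool.Agent.EVC
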