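import Pool.Agent.EVC.Inf
import Pool.Agent.Dess.BelyiPoly

/-!
# A function which is ramified only above three rational points
-/

set_option autoImplicit false

open Polynomial NumberField IntermediateField Module

namespace Pool.Agent.EVC

variable {k F : Type} [Field k] [Field F] [Algebra k F]

/-- the power of the maximal ideal, as a subset of the function field -/
private theorem pow_mul_mem (P : Pt k F) (e : ℕ) {f u : F}
    (hf : ∃ z ∈ IsLocalRing.maximalIdeal P.ring ^ e, (z : F) = f) (hu : u ∈ P.ring) :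
    ∃ z ∈ IsLocalRing.maximalIdeal P.ring ^ e, (z : F) = f * u := by
  obtain ⟨z, hz, rfl⟩ := hf
  exact ⟨z * ⟨u, hu⟩, Ideal.mul_mem_right _ _ hz, rfl⟩

private theorem pow_mul_iff (P : Pt k F) (e : ℕ) (f : F) {u : F} (hu : u ∈ P.ring)
    (h0 : P.eval u ≠ 0) :
    (∃ z ∈ IsLocalRing.maximalIdeal P.ring ^ e, (z : F) = f * u) ↔
      ∃ z ∈ IsLocalRing.maximalIdeal P.ring ^ e, (z : F) = f := by
  constructor
  · intro h
    have h1 := pow_mul_mem P e h (P.inv_mem hu h0)
    rwa [mul_assoc, mul_inv_cancel₀ (P.ne_zero_of_eval h0), mul_one] at h1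
  · exact fun h => pow_mul_mem P e h hu

theorem ram_of_mem (P : Pt k F) {x : F} (hx : x ∈ P.ring) : P.ram x =
    sSup {e : ℕ | ∃ z ∈ IsLocalRing.maximalIdeal P.ring ^ e,
      (z : F) = aeval x (minpoly k (P.eval x))} := by
  unfold Pt.ram
  rw [if_pos hx]

/-- the ramification index can be computed with any polynomial with a simple root -/
theorem ram_simple (P : Pt k F) {x : F} (hx : x ∈ P.ring) (w : k[X])
    (h0 : aeval (P.eval x) w = 0) (h1 : aeval (P.eval x) (derivative w) ≠ 0) : P.ram x =
    sSup {e : ℕ | ∃ z ∈ IsLocalRing.maximalIdeal P.ring ^ e, (z : F) = aeval x w} := by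
  rw [ram_of_mem P hx]
  obtain ⟨w₁, hw⟩ := minpoly.dvd _ _ h0
  have h2 : aeval (P.eval x) w₁ ≠ 0 := by
    intro h
    apply h1
    rw [hw, derivative_mul, map_add, map_mul, map_mul, minpoly.aeval, h, mul_zero, zero_mul,
      add_zero]
  congr 1
  ext e
  rw [Set.mem_ofPred_eq, Set.mem_ofPred_eq]
  have h3 : aeval x w = aeval x (minpoly k (P.eval x)) * aeval x w₁ := by
    rw [← map_mul, ← hw]
  rw [h3]
  refine (pow_mul_iff P e _ (P.aeval_mem hx w₁) ?_).symm
  rwa [P.eval_aeval hx]

/-- the ramification index of a polynomial in `x` -/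
theorem ram_poly [CharZero k] (P : Pt k F) {x : F} (hx : x ∈ P.ring) (G : k[X])
    (h1 : aeval (P.eval x) (derivative G) ≠ 0) : P.ram (aeval x G) = P.ram x := by
  have hG : aeval x G ∈ P.ring := P.aeval_mem hx G
  rw [ram_of_mem P hG, P.eval_aeval hx]
  set q := minpoly k (aeval (P.eval x) G) with hq
  have hint : IsIntegral k (aeval (P.eval x) G) := Algebra.IsIntegral.isIntegral _
  have hsep : q.Separable := (minpoly.irreducible hint).separable
  have h2 : aeval (aeval (P.eval x) G) (derivative q) ≠ 0 := by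
    apply Separable.aeval_derivative_ne_zero hsep
    exact minpoly.aeval _ _
  rw [ram_simple P hx (q.comp G)]
  · congr 1
    ext e
    rw [Set.mem_ofPred_eq, Set.mem_ofPred_eq, aeval_comp]
  · rw [aeval_comp]
    exact minpoly.aeval _ _
  · rw [derivative_comp, map_mul, aeval_comp]
    exact mul_ne_zero h1 h2

/-- the ramification index of the inverse -/
theorem ram_unit_inv (P : Pt k F) {u : F} (hu : u ∈ P.ring) (h0 : P.eval u ≠ 0) :
    P.ram u⁻¹ = P.ram u := by
  have hui := P.inv_mem hu h0
  have hu0 := P.ne_zero_of_eval h0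
  rw [ram_of_mem P hu, ram_of_mem P hui, P.eval_inv hu h0]
  set c := P.eval u with hc
  set p := minpoly k c⁻¹ with hp
  set q := minpoly k c with hq
  have hint : IsIntegral k c := Algebra.IsIntegral.isIntegral _
  have hint' : IsIntegral k c⁻¹ := Algebra.IsIntegral.isIntegral _
  have hdeg : p.natDegree = q.natDegree := by
    rw [hp, hq, ← IntermediateField.adjoin.finrank hint, ← IntermediateField.adjoin.finrank hint',
      adjoin_inv]
  have hp0 : p ≠ 0 := minpoly.ne_zero hint'
  have hci : c⁻¹ ≠ 0 := inv_ne_zero h0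
  have h1 : aeval c p.reverse = 0 := by
    let _ : Invertible c⁻¹ := invertibleOfNonzero hci
    have h2 := eval₂_reverse_mul_pow (algebraMap k (AlgebraicClosure k)) c⁻¹ p
    rw [invOf_eq_inv, inv_inv] at h2
    have h3 : eval₂ (algebraMap k (AlgebraicClosure k)) c⁻¹ p = 0 := minpoly.aeval k c⁻¹
    rw [h3] at h2
    exact (mul_eq_zero.1 h2).resolve_right (pow_ne_zero _ hci)
  have h4 : aeval u p.reverse * (u⁻¹) ^ p.natDegree = aeval u⁻¹ p := by
    let _ : Invertible u⁻¹ := invertibleOfNonzero (inv_ne_zero hu0)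
    have h2 := eval₂_reverse_mul_pow (algebraMap k F) u⁻¹ p
    rwa [invOf_eq_inv, inv_inv] at h2
  obtain ⟨r, hr⟩ := minpoly.dvd _ _ h1
  have hrev : p.reverse ≠ 0 := by rwa [Ne, reverse_eq_zero]
  have hr0 : r ≠ 0 := by
    rintro rfl
    exact hrev (by rw [hr, mul_zero])
  have hrd : r.natDegree = 0 := by
    have h5 := reverse_natDegree_le p
    rw [hr, natDegree_mul (minpoly.ne_zero hint) hr0, ← hq, hdeg] at h5
    omega
  obtain ⟨κ, rfl⟩ : ∃ κ, r = C κ := ⟨_, eq_C_of_natDegree_eq_zero hrd⟩
  have hκ : κ ≠ 0 := by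
    rintro rfl
    exact hr0 C_0
  congr 1
  ext e
  rw [Set.mem_ofPred_eq, Set.mem_ofPred_eq, ← h4, hr, map_mul, aeval_C, mul_assoc]
  refine pow_mul_iff P e _ (mul_mem (P.const κ) (pow_mem hui _)) ?_
  rw [P.eval_mul (P.const κ) (pow_mem hui _), P.eval_const, P.eval_pow hui, P.eval_inv hu h0]
  exact mul_ne_zero ((_root_.map_ne_zero _).2 hκ) (pow_ne_zero _ hci)

/-- a polynomial in a function with a pole has a pole -/
theorem poly_pole (P : Pt k F) {x : F} (hx : x ∉ P.ring) (G : k[X]) (hG : 0 < G.natDegree) :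
    aeval x G ∉ P.ring := by
  intro h
  apply hx
  let j : k →+* P.ring := (algebraMap k F).codRestrict P.ring P.const
  have hG0 : G ≠ 0 := by
    rintro rfl
    simp at hG
  have hl : G.leadingCoeff⁻¹ ≠ 0 := inv_ne_zero (leadingCoeff_ne_zero.2 hG0)
  set H : k[X] := C G.leadingCoeff⁻¹ * G with hH
  have hHm : H.Monic := by
    rw [hH, mul_comm]
    exact monic_mul_leadingCoeff_inv hG0
  have hHd : 0 < H.natDegree := by
    rw [hH, natDegree_C_mul hl]
    exact hG
  have hb : aeval x H ∈ P.ring := by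
    rw [hH, map_mul, aeval_C]
    exact mul_mem (P.const _) h
  have hmon : (H.map j - C (⟨aeval x H, hb⟩ : P.ring)).Monic := by
    apply (hHm.map j).sub_of_left
    refine degree_C_le.trans_lt ?_
    rw [degree_eq_natDegree (hHm.map j).ne_zero, hHm.natDegree_map]
    exact_mod_cast hHd
  have hz' : IsIntegral P.ring x := by
    refine ⟨_, hmon, ?_⟩
    rw [eval₂_sub, eval₂_map, eval₂_C]
    change aeval x H - aeval x H = 0
    rw [sub_self]
  obtain ⟨y, hy⟩ := (IsIntegrallyClosed.isIntegral_iff (R := P.ring) (K := F)).1 hz'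
  rw [← hy]
  exact y.2

/-- a polynomial with rational coefficients for which finitely many given numbers and all critical
points have the values `0` and `1` -/
theorem belyi_k (k : Type) [Field k] [NumberField k] (S : Set (AlgebraicClosure k))
    (hS : S.Finite) : ∃ G : k[X], 0 < G.natDegree ∧
      (∀ s ∈ S, aeval s G = 0 ∨ aeval s G = 1) ∧
      ∀ ξ : AlgebraicClosure k, aeval ξ (derivative G) = 0 → aeval ξ G = 0 ∨ aeval ξ G = 1 := by
  have halg : Algebra.IsAlgebraic ℚ (AlgebraicClosure k) :=
    Algebra.IsAlgebraic.trans ℚ k (AlgebraicClosure k)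
  let j : AlgebraicClosure k →ₐ[ℚ] Dess.QQ := IsAlgClosed.lift
  have hj : Function.Injective j := j.injective
  obtain ⟨g, hg, h1, h2⟩ := Dess.exists_belyi_poly (hS.image j).toFinset
  have hval : ∀ (f : ℚ[X]) (ξ : AlgebraicClosure k),
      aeval ξ (f.map (algebraMap ℚ k)) = aeval ξ f := fun f ξ => by
    rw [aeval_map_algebraMap]
  have hback : ∀ ξ : AlgebraicClosure k, aeval (j ξ) g = 0 ∨ aeval (j ξ) g = 1 →
      aeval ξ (g.map (algebraMap ℚ k)) = 0 ∨ aeval ξ (g.map (algebraMap ℚ k)) = 1 := by
    intro ξ h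
    rw [hval]
    rw [aeval_algHom_apply] at h
    rcases h with h | h
    · left
      exact hj (by rw [h, map_zero])
    · right
      exact hj (by rw [h, map_one])
  refine ⟨g.map (algebraMap ℚ k), by rwa [natDegree_map], fun s hs => hback s (h1 _ ?_),
    fun ξ hξ => hback ξ (h2 _ ?_)⟩
  · rw [Set.Finite.mem_toFinset]
    exact ⟨s, hs, rfl⟩
  · rw [derivative_map, hval] at hξ
    rw [aeval_algHom_apply, hξ, map_zero]

/-- **The theorem of Belyi**, without ramification at infinity: there is a function which is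
ramified
only above points with coordinates in `k`. -/
theorem exists_belyi (k F : Type) [Field k] [NumberField k] [Field F] [Algebra k F]
    (hF : IsCurve k F) : ∃ x : F, Transcendental k x ∧ (∀ P : Pt k F, x ∉ P.ring → P.ram x = 1) ∧
      ∀ P : Pt k F, x ∈ P.ring → 1 < P.ram x →
        finrank k (IntermediateField.adjoin k {P.eval x}) = 1 := by
  obtain ⟨t, ht, hfin⟩ := hF
  have hF : IsCurve k F := ⟨t, ht, hfin⟩
  have hram := finite_ram' hF ht
  obtain ⟨G₀, hG, h1, h2⟩ := belyi_k k _ (hram.image fun P => P.eval t)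
  -- the polynomial `G = G₀ - 2`
  set G : k[X] := G₀ - C 2 with hGdef
  have hGd : 0 < G.natDegree := by
    rw [hGdef, natDegree_sub_C]
    exact hG
  have hder : derivative G = derivative G₀ := by rw [hGdef, derivative_sub, derivative_C, sub_zero]
  have hval : ∀ a : AlgebraicClosure k, aeval a G = aeval a G₀ - 2 := fun a => by
    rw [hGdef, map_sub, aeval_C, map_ofNat]
  set u : F := aeval t G with hu
  have hut : Transcendental k u := by
    refine ht.aeval G hGd.ne' ?_
    refine mem_nonZeroDivisors_of_ne_zero (leadingCoeff_ne_zero.2 ?_)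
    rintro h
    rw [h] at hGd
    simp at hGd
  have hu0 : u ≠ 0 := by
    intro h
    rw [h] at hut
    exact hut isAlgebraic_zero
  -- the points where `u` is regular with a value other than `-1` and `-2`
  have key : ∀ P : Pt k F, u ∈ P.ring → P.eval u ≠ -1 → P.eval u ≠ -2 → P.ram u = 1 := by
    intro P hP hv1 hv2
    have htP : t ∈ P.ring := by
      by_contra h
      exact poly_pole P h G hGd hP
    have hv : P.eval u = aeval (P.eval t) G₀ - 2 := by rw [hu, P.eval_aeval htP, hval]
    have hne : ¬ (aeval (P.eval t) G₀ = 0 ∨ aeval (P.eval t) G₀ = 1) := by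
      rintro (h | h)
      · apply hv2
        rw [hv, h, zero_sub]
      · apply hv1
        rw [hv, h]
        norm_num
    have hd : aeval (P.eval t) (derivative G) ≠ 0 := by
      rw [hder]
      exact fun h => hne (h2 _ h)
    rw [hu, ram_poly P htP G hd]
    have h3 := ram_pos' hF ht P htP
    by_contra h4
    exact hne (h1 _ ⟨P, ⟨htP, by omega⟩, rfl⟩)
  have hone : ∀ c : k, finrank k (IntermediateField.adjoin k
      {algebraMap k (AlgebraicClosure k) c}) = 1 := fun c => by
    rw [IntermediateField.finrank_adjoin_simple_eq_one_iff]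
    exact ⟨c, rfl⟩
  refine ⟨u⁻¹, transcendental_inv hut, fun P hP => ?_, fun P hP hr => ?_⟩
  · -- the poles
    have h5 := (pole_iff P u⁻¹).1 hP
    rw [inv_inv] at h5
    rw [← ram_inv P u⁻¹ hP, inv_inv]
    refine key P h5.2.1 ?_ ?_
    · rw [h5.2.2]
      norm_num
    · rw [h5.2.2]
      norm_num
  · by_cases h5 : u ∈ P.ring
    · have h6 : P.eval u ≠ 0 := by
        intro h
        have := P.eval_mul h5 hP
        rw [mul_inv_cancel₀ hu0, h, zero_mul, P.eval_one] at this
        exact one_ne_zero this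
      rw [ram_unit_inv P h5 h6] at hr
      rw [P.eval_inv h5 h6]
      by_cases h7 : P.eval u = -1
      · have := hone (-1)⁻¹
        rwa [map_inv₀, map_neg, map_one, ← h7] at this
      by_cases h8 : P.eval u = -2
      · have := hone (-2)⁻¹
        rwa [map_inv₀, map_neg, map_ofNat, ← h8] at this
      rw [key P h5 h7 h8] at hr
      exact absurd hr (lt_irrefl 1)
    · have h6 := (pole_iff P u).1 h5
      rw [h6.2.2]
      have := hone 0
      rwa [map_zero] at this

end Pool.Agent.EVC
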