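import Pool.Agent.EVC.Ext

/-!
# The number of geometric points of a closed point (package EVC 13)
-/

set_option autoImplicit false

open Polynomial NumberField IntermediateField Module

namespace Pool.Agent.EVC

variable {k F : Type} [Field k] [Field F] [Algebra k F] [Algebra k[X] F] [IsScalarTower k k[X] F]
variable (K : Type) [CharZero k] [Field K] [Algebra k[X] K] [IsFractionRing k[X] K] [Algebra K F]
  [IsScalarTower k[X] K F] [FiniteDimensional K F]

/-- the number of the homomorphisms of a finite extension to the algebraic closure -/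
private theorem hom_card {k R : Type} [Field k] [CharZero k] [CommRing R] [Algebra k R]
    (𝔓 : Ideal R) [𝔓.IsMaximal] (hfin : FiniteDimensional k (R ⧸ 𝔓)) :
    Finite ((R ⧸ 𝔓) →ₐ[k] AlgebraicClosure k) ∧
      Nat.card ((R ⧸ 𝔓) →ₐ[k] AlgebraicClosure k) = finrank k (R ⧸ 𝔓) := by
  let _ : Field (R ⧸ 𝔓) := Ideal.Quotient.field 𝔓
  have : FiniteDimensional k (R ⧸ 𝔓) := hfin
  refine ⟨Finite.of_fintype _, ?_⟩
  rw [Nat.card_eq_fintype_card]
  exact AlgHom.card k (R ⧸ 𝔓) (AlgebraicClosure k)

include K in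
/-- The number of the geometric points with the center `𝔓` is `[R/𝔓 : k]`.

PROOF. Let `R` be the integral closure of `k[X]` in `F`. The map `P ↦ P.ihom hx` is a bijection of
the
set in question with the set of the `k`-algebra homomorphisms `R → k̄` with the kernel `𝔓`
(`ext_int K`, `exists_pt K`), which is in bijection with the set of the `k`-algebra homomorphisms
`R ⧸ 𝔓 → k̄` (`Ideal.Quotient.liftₐ`, `Ideal.Quotient.mkₐ`; a homomorphism of the field `R ⧸ 𝔓` is
injective). `R ⧸ 𝔓` is a field (`𝔓 ≠ ⊥` is maximal, `Ideal.Quotient.field`), finite and separable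
over
`k`, so the number of these homomorphisms is `finrank k (R ⧸ 𝔓)` (`AlgHom.card`,
`AlgHom.card_of_splits` or `Field.finSepDegree`; `Fintype` or `Nat.card`). -/
theorem card_center (𝔓 : Ideal (integralClosure k[X] F)) [𝔓.IsPrime] (h0 : 𝔓 ≠ ⊥)
    (hfin : FiniteDimensional k (integralClosure k[X] F ⧸ 𝔓)) :
    {P : Pt k F | ∃ hx : algebraMap k[X] F X ∈ P.ring, P.center hx = 𝔓}.Finite ∧
    {P : Pt k F | ∃ hx : algebraMap k[X] F X ∈ P.ring, P.center hx = 𝔓}.ncard =
      finrank k (integralClosure k[X] F ⧸ 𝔓) := by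
  obtain ⟨_, _, _⟩ := ded (k := k) (F := F) K
  have hmax : 𝔓.IsMaximal := Ideal.IsPrime.isMaximal inferInstance h0
  obtain ⟨hf, hcard⟩ := hom_card (k := k) 𝔓 hfin
  let S : Set (Pt k F) := {P : Pt k F | ∃ hx : algebraMap k[X] F X ∈ P.ring, P.center hx = 𝔓}
  let g : S → ((integralClosure k[X] F ⧸ 𝔓) →ₐ[k] AlgebraicClosure k) := fun P =>
    Ideal.Quotient.liftₐ 𝔓 (P.1.ihom P.2.choose) (fun a ha => by
      have h1 := P.2.choose_spec
      have h2 : a ∈ P.1.center P.2.choose := by
        rw [h1]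
        exact ha
      exact h2)
  have hg : ∀ (P : S) (r : integralClosure k[X] F),
      g P (Ideal.Quotient.mk 𝔓 r) = P.1.eval (r : F) := fun P r => rfl
  have hinj : Function.Injective g := by
    intro P P' h
    refine Subtype.ext (ext_int K P.2.choose P'.2.choose fun r => ?_)
    rw [← hg, ← hg, h]
  have hsurj : Function.Surjective g := by
    intro φ
    obtain ⟨P, hx, hP⟩ := exists_pt K (φ.comp (Ideal.Quotient.mkₐ k 𝔓))
    have hc : P.center hx = 𝔓 := by
      refine (hmax.eq_of_le (Pt.center_isPrime P hx).ne_top fun r hr => ?_).symm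
      change P.ihom hx r = 0
      rw [hP, AlgHom.comp_apply, Ideal.Quotient.mkₐ_eq_mk, Ideal.Quotient.eq_zero_iff_mem.2 hr,
        map_zero]
    refine ⟨⟨P, hx, hc⟩, ?_⟩
    apply AlgHom.ext
    intro z
    obtain ⟨r, rfl⟩ := Ideal.Quotient.mk_surjective z
    rw [hg]
    exact DFunLike.congr_fun hP r
  have hfS : Finite S := Finite.of_injective g hinj
  refine ⟨Set.toFinite S, ?_⟩
  rw [← hcard, ← Nat.card_congr (Equiv.ofBijective g ⟨hinj, hsurj⟩)]
  exact (Nat.card_coe_set_eq S).symm

end Pool.Agent.EVC
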