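import Pool.Agent.EVC.Basic

/-!
# The parts of different points are coprime (package EVC 12)
-/

set_option autoImplicit false

open Polynomial NumberField IntermediateField Module

namespace Pool.Agent.EVC

variable {k F : Type} [Field k] [Field F] [Algebra k F] [Algebra k[X] F] [IsScalarTower k k[X] F]

omit [Algebra k F] [IsScalarTower k k[X] F] in
/-- Let `R` be the integral closure of `A = k[X]` in `F`, `y ∈ R`, and `s ∈ A` with `s R ⊆ A[y]`
(`hs`). Let `𝔓`, `𝔓'` be two different maximal ideals of `R` and `(b, h₀)`, `(b', h₀')` maximal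
ideals of `A[Y]` with `b, h₀(y) ∈ 𝔓`, `b', h₀'(y) ∈ 𝔓'`, `s` prime to `b'`. Then powers of `h₀`,
`h₀'` and `b`, `b'` generate the unit ideal.

PROOF. Otherwise there is a maximal ideal `M` of `A[Y]` which contains `b`, `h₀ ^ e`, `b'`,
`h₀' ^ e'` (`Ideal.exists_le_maximal`), so `b`, `h₀`, `b'`, `h₀'` (if `e = 0` or `e' = 0` the ideal
contains `1`), thus `M = (b, h₀) = (b', h₀')` (`Ideal.IsMaximal.eq_of_le`). Let `ψ : A[Y] → R`,
`g ↦ g(y)`. The preimage of `𝔓` under `ψ` (`Ideal.comap`) is a prime ideal which contains `b` and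
`h₀`, so it is `M`; in the same way the preimage of `𝔓'` is `M`. Let `r ∈ 𝔓`, `s r = g(y)`. As
`g(y) ∈ 𝔓`, `g ∈ M`, so `s r = g(y) ∈ 𝔓'`. And `s ∉ 𝔓'`: `c s + c' b' = 1`. So `r ∈ 𝔓'`. Therefore
`𝔓 ≤ 𝔓'` and `𝔓 = 𝔓'`, a contradiction. -/
theorem coprime_parts (y : integralClosure k[X] F) (s : k[X])
    (hs : ∀ r : integralClosure k[X] F, ∃ g : k[X][X],
      algebraMap k[X] (integralClosure k[X] F) s * r = aeval y g)
    (b b' : k[X]) (hbs : IsCoprime s b')
    (𝔓 𝔓' : Ideal (integralClosure k[X] F)) [𝔓.IsMaximal] [𝔓'.IsMaximal] (hne : 𝔓 ≠ 𝔓')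
    (hb : algebraMap k[X] (integralClosure k[X] F) b ∈ 𝔓)
    (hb' : algebraMap k[X] (integralClosure k[X] F) b' ∈ 𝔓') (h₀ h₀' : k[X][X])
    (hh : aeval y h₀ ∈ 𝔓) (hh' : aeval y h₀' ∈ 𝔓') (hM : (Ideal.span {C b, h₀}).IsMaximal)
    (hM' : (Ideal.span {C b', h₀'}).IsMaximal) (e e' : ℕ) :
    Ideal.span {C b, h₀ ^ e, C b', h₀' ^ e'} = ⊤ := by
  by_contra hne1
  obtain ⟨M, hMm, hMle⟩ := Ideal.exists_le_maximal _ hne1
  have hbM : C b ∈ M := hMle (Ideal.subset_span (by simp))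
  have hhM : h₀ ∈ M := hMm.isPrime.mem_of_pow_mem e (hMle (Ideal.subset_span (by simp)))
  have hbM' : C b' ∈ M := hMle (Ideal.subset_span (by simp))
  have hhM' : h₀' ∈ M := hMm.isPrime.mem_of_pow_mem e' (hMle (Ideal.subset_span (by simp)))
  have hle : ∀ (a c : k[X][X]) (J : Ideal k[X][X]), a ∈ J → c ∈ J → Ideal.span {a, c} ≤ J := by
    intro a c J ha hc
    rw [Ideal.span_le]
    rintro x (rfl | rfl)
    · exact ha
    · exact hc
  have e1 : Ideal.span {C b, h₀} = M := hM.eq_of_le hMm.ne_top (hle _ _ _ hbM hhM)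
  have e2 : Ideal.span {C b', h₀'} = M := hM'.eq_of_le hMm.ne_top (hle _ _ _ hbM' hhM')
  set ψ : k[X][X] →+* integralClosure k[X] F :=
    ((aeval y : k[X][X] →ₐ[k[X]] integralClosure k[X] F) : k[X][X] →+* integralClosure k[X] F)
    with hψ
  have hψa : ∀ g : k[X][X], ψ g = aeval y g := fun g => rfl
  have c1 : Ideal.span {C b, h₀} = 𝔓.comap ψ := by
    refine hM.eq_of_le (Ideal.comap_ne_top ψ (Ideal.IsMaximal.ne_top inferInstance))
      (hle _ _ _ ?_ ?_)
    · rw [Ideal.mem_comap, hψa, aeval_C]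
      exact hb
    · rw [Ideal.mem_comap, hψa]
      exact hh
  have c2 : Ideal.span {C b', h₀'} = 𝔓'.comap ψ := by
    refine hM'.eq_of_le (Ideal.comap_ne_top ψ (Ideal.IsMaximal.ne_top inferInstance))
      (hle _ _ _ ?_ ?_)
    · rw [Ideal.mem_comap, hψa, aeval_C]
      exact hb'
    · rw [Ideal.mem_comap, hψa]
      exact hh'
  have hcc : 𝔓.comap ψ = 𝔓'.comap ψ := by rw [← c1, ← c2, e1, e2]
  have hP' : 𝔓'.IsPrime := Ideal.IsMaximal.isPrime inferInstance
  have hPP : 𝔓 ≤ 𝔓' := by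
    intro r hr
    obtain ⟨g, hg⟩ := hs r
    have h1 : g ∈ 𝔓.comap ψ := by
      rw [Ideal.mem_comap, hψa, ← hg]
      exact Ideal.mul_mem_left _ _ hr
    rw [hcc, Ideal.mem_comap, hψa, ← hg] at h1
    rcases hP'.mem_or_mem h1 with h2 | h2
    · exfalso
      obtain ⟨c, c', hc⟩ := hbs
      apply hP'.ne_top
      rw [Ideal.eq_top_iff_one]
      have h3 := congrArg (algebraMap k[X] (integralClosure k[X] F)) hc
      rw [map_add, map_mul, map_mul, map_one] at h3
      rw [← h3]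
      exact 𝔓'.add_mem (Ideal.mul_mem_left _ _ h2) (Ideal.mul_mem_left _ _ hb')
    · exact h2
  exact hne (Ideal.IsMaximal.eq_of_le inferInstance hP'.ne_top hPP)

end Pool.Agent.EVC
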