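import Pool.Agent.EVC.Surj
import Pool.Agent.EVC.Basic

/-!
# A generator of the ring of integral functions above given points (package EVC 10)
-/

set_option autoImplicit false

open Polynomial NumberField IntermediateField Module

namespace Pool.Agent.EVC

variable {k F : Type} [Field k] [Field F] [Algebra k F] [Algebra k[X] F] [IsScalarTower k k[X] F]
variable (K : Type) [CharZero k] [Field K] [Algebra k[X] K] [IsFractionRing k[X] K] [Algebra K F]
  [IsScalarTower k[X] K F] [FiniteDimensional K F]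

private theorem fin_aux_Gen {k R : Type} [Field k] [CommRing R] [IsDomain R] [Algebra k R]
    [Algebra k[X] R] [IsScalarTower k k[X] R] [Module.Finite k[X] R] (𝔓 : Ideal R)
    (h0 : 𝔓 ≠ ⊥) : FiniteDimensional k (R ⧸ 𝔓) := by
  have hne : 𝔓.under k[X] ≠ ⊥ := by
    obtain ⟨r, hr, hr0⟩ := Submodule.exists_mem_ne_zero_of_ne_bot h0
    exact Ideal.comap_ne_bot_of_integral_mem hr0 hr (Algebra.IsIntegral.isIntegral r)
  obtain ⟨b, hb, hb0⟩ := Submodule.exists_mem_ne_zero_of_ne_bot hne
  have h1 : Module.Finite k (k[X] ⧸ Ideal.span {b}) := (AdjoinRoot.powerBasis hb0).finite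
  have h2 : Ideal.span {b} ≤ 𝔓.under k[X] := by
    rw [Ideal.span_singleton_le_iff_mem]
    exact hb
  have h3 : Module.Finite k (k[X] ⧸ 𝔓.under k[X]) :=
    Module.Finite.of_surjective (Ideal.Quotient.factorₐ k h2).toLinearMap
      (Ideal.Quotient.factor_surjective h2)
  have h4 : Module.Finite (k[X] ⧸ 𝔓.under k[X]) (R ⧸ 𝔓) := inferInstance
  exact Module.Finite.trans (k[X] ⧸ 𝔓.under k[X]) (R ⧸ 𝔓)

include K in
/-- The residue fields of the ring of the integral functions are finite over `k`.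

PROOF. Let `R` be the integral closure of `k[X]` in `F`, a finite `k[X]`-module (`ded K`). For a
prime
`𝔓 ≠ ⊥` of `R` the ideal `𝔭 = 𝔓.comap (algebraMap k[X] R)` is not zero
(`Ideal.comap_ne_bot_of_integral_mem` or `Ideal.IsIntegralClosure.comap_ne_bot`), so `𝔭` contains
some `b ≠ 0`, and `k[X] / (b)` is finite over `k` (`AdjoinRoot.powerBasis`, or
`Polynomial.Monic.finite_quotient`), so is `k[X] / 𝔭`; the module `R / 𝔓` is finite over `k[X] /
𝔭`, so over `k`
(`Module.Finite.trans`). Another way: `R / 𝔓` is a finite `k[X]`-module killed by `b`, so it is a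
quotient of a finite power of `k[X] / (b)`. -/
theorem fin_quotient (𝔓 : Ideal (integralClosure k[X] F)) [𝔓.IsPrime] (h0 : 𝔓 ≠ ⊥) :
    FiniteDimensional k (integralClosure k[X] F ⧸ 𝔓) := by
  obtain ⟨hded, -, hfin⟩ := ded (k := k) (F := F) K
  exact fin_aux_Gen 𝔓 h0

include K in
/-- For every `β ≠ 0` in `k[x]` there are an integral function `y` and `s ∈ k[x]` prime to `β`, such
that the products with `s` of all integral functions are polynomials in `x` and `y`.

PROOF. Let `R` be the integral closure of `k[X]` in `F`, a Dedekind domain and a finite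
`k[X]`-module
(`ded K`). Let `I = Ideal.span {β}` (the ideal of `R` generated by the image of `β`; it is not
zero),
and let `B` be the finite set of the prime ideals containing it (`Ideal.finite_factors` or
`(UniqueFactorizationMonoid.normalizedFactors I).toFinset`). Let `y`, `q` be as in `exists_y` for
`B`
(`fin_quotient K`). Let `N` be such that `∏ 𝔓 ∈ B, 𝔓 ^ N ≤ I`, for example `N` the number of the
elements of the multiset `normalizedFactors I`: `I = (normalizedFactors I).prod` divides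
`∏ 𝔓 ∈ B, 𝔓 ^ N` (`Ideal.prod_normalizedFactors_eq_self`, `Finset.prod_multiset_count`). For `r ∈ R`
let `g ∈ k[X]` be as in `surj_all`; so `r - g(y) ∈ ⨅ 𝔓 ∈ B, 𝔓 ^ N = ∏ 𝔓 ∈ B, 𝔓 ^ N ≤ I`
(`Ideal.prod_eq_iInf...`, `IsDedekindDomain.inf_prime_pow_eq_prod`). Thus
(*) every `r ∈ R` is `aeval y g + β r'` with `g ∈ k[X]`, `r' ∈ R`.
Let `N₁` be the submodule of the `k[X]`-module `R` of the polynomials `aeval y g`, `g ∈ k[X][X]`
(`Subalgebra.toSubmodule (Algebra.adjoin k[X] {y})`), and `M = R ⧸ N₁`. By (*)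
`⊤ ≤ Ideal.span {β} • (⊤ : Submodule k[X] M)` (an element `g` of `k[X]` evaluated at `y` is the
value
of `g.map C` under `aeval y : k[X][X] → R`). By Nakayama's lemma
(`Submodule.exists_sub_one_mem_and_smul_eq_zero_of_fg_of_le_smul`) there is `s` with
`s - 1 ∈ Ideal.span {β}` and `s • M = 0`, i.e. `s r ∈ N₁` for all `r`
(`Algebra.adjoin_singleton_eq_range_aeval`). And `s = 1 + β c` is coprime to `β`. -/
theorem exists_gen (β : k[X]) (hβ : β ≠ 0) : ∃ (y : integralClosure k[X] F) (s : k[X]),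
    IsCoprime s β ∧ ∀ r : integralClosure k[X] F, ∃ g : k[X][X],
      algebraMap k[X] (integralClosure k[X] F) s * r = aeval y g := by
  classical
  obtain ⟨hded, -, hfin⟩ := ded (k := k) (F := F) K
  set R := integralClosure k[X] F with hR
  set I : Ideal R := Ideal.span {algebraMap k[X] R β} with hI
  have hI0 : I ≠ ⊥ := by
    rw [hI, Ne, Ideal.span_singleton_eq_bot,
      map_eq_zero_iff _ (algebraMap_inj (k := k) (F := F) K)]
    exact hβ
  set B : Finset (Ideal R) := (UniqueFactorizationMonoid.normalizedFactors I).toFinset with hBd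
  have hBp : ∀ 𝔓 ∈ B, Prime 𝔓 := fun 𝔓 h =>
    UniqueFactorizationMonoid.prime_of_normalized_factor 𝔓 (Multiset.mem_toFinset.1 h)
  have hB : ∀ 𝔓 ∈ B, 𝔓.IsPrime ∧ 𝔓 ≠ ⊥ := fun 𝔓 h =>
    ⟨Ideal.isPrime_of_prime (hBp 𝔓 h), (hBp 𝔓 h).ne_zero⟩
  obtain ⟨y, q, hq, hne⟩ := exists_y (k := k) B fun 𝔓 h => by
    obtain ⟨h1, h2⟩ := hB 𝔓 h
    exact ⟨h1, h2, fin_quotient K 𝔓 h2⟩
  set N := Multiset.card (UniqueFactorizationMonoid.normalizedFactors I) with hN
  have hle : ∏ 𝔓 ∈ B, 𝔓 ^ N ≤ I := by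
    apply Ideal.le_of_dvd
    conv_lhs => rw [← Ideal.prod_normalizedFactors_eq_self hI0]
    rw [Finset.prod_multiset_count]
    exact Finset.prod_dvd_prod_of_dvd _ _ fun 𝔓 _ => pow_dvd_pow _ (Multiset.count_le_card _ _)
  have hstar : ∀ r : R, ∃ (g : k[X]) (r' : R), r = aeval y g + algebraMap k[X] R β * r' := by
    intro r
    obtain ⟨g, hg⟩ := surj_all B hB y q hq hne N r
    have h1 : r - aeval y g ∈ I := by
      apply hle
      rw [← IsDedekindDomain.inf_pow_eq_prod_of_prime B (fun 𝔓 => 𝔓) (fun _ => N) hBp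
        fun _ _ _ _ h => h, Submodule.mem_finsetInf]
      exact hg
    obtain ⟨r', hr'⟩ := Ideal.mem_span_singleton'.1 h1
    refine ⟨g, r', ?_⟩
    rw [mul_comm, hr']
    ring
  set N₁ : Submodule k[X] R := Subalgebra.toSubmodule (Algebra.adjoin k[X] {y}) with hN₁
  have haev : ∀ g : k[X], aeval y g ∈ N₁ := by
    intro g
    rw [← aeval_map_algebraMap k[X] y g]
    change _ ∈ Algebra.adjoin k[X] {y}
    rw [Algebra.adjoin_singleton_eq_range_aeval]
    exact ⟨_, rfl⟩
  obtain ⟨s, hs1, hs2⟩ := Submodule.exists_sub_one_mem_and_smul_eq_zero_of_fg_of_le_smul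
    (Ideal.span {β}) (⊤ : Submodule k[X] (R ⧸ N₁)) Module.Finite.fg_top (by
      rintro m -
      obtain ⟨r, rfl⟩ := Submodule.Quotient.mk_surjective N₁ m
      obtain ⟨g, r', hr⟩ := hstar r
      have h1 : (Submodule.Quotient.mk r : R ⧸ N₁) = β • Submodule.Quotient.mk r' := by
        rw [← Submodule.Quotient.mk_smul, Submodule.Quotient.eq, Algebra.smul_def, hr,
          add_sub_cancel_right]
        exact haev g
      rw [h1]
      exact Submodule.smul_mem_smul (Ideal.mem_span_singleton_self β) Submodule.mem_top)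
  refine ⟨y, s, ?_, fun r => ?_⟩
  · obtain ⟨c, hc⟩ := Ideal.mem_span_singleton'.1 hs1
    exact ⟨1, -c, by rw [one_mul, neg_mul, hc]; ring⟩
  · have h1 := hs2 (Submodule.Quotient.mk r) Submodule.mem_top
    rw [← Submodule.Quotient.mk_smul, Submodule.Quotient.mk_eq_zero] at h1
    change s • r ∈ Algebra.adjoin k[X] {y} at h1
    rw [Algebra.adjoin_singleton_eq_range_aeval] at h1
    obtain ⟨g, hg⟩ := h1
    exact ⟨g, by rw [← Algebra.smul_def]; exact hg.symm⟩

end Pool.Agent.EVC
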