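import Pool.Agent.EVC.Basic

/-!
# The plane model at a ramified point (package EVC 11)
-/

set_option autoImplicit false

open Polynomial NumberField IntermediateField Module

namespace Pool.Agent.EVC

variable {k F : Type} [Field k] [Field F] [Algebra k F] [Algebra k[X] F] [IsScalarTower k k[X] F]
variable (K : Type) [CharZero k] [Field K] [Algebra k[X] K] [IsFractionRing k[X] K] [Algebra K F]
  [IsScalarTower k[X] K F] [FiniteDimensional K F]

omit [CharZero k] in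
/-- a polynomial over `k[X]` with the image zero modulo `b` is divisible by `b` -/
private theorem loc_dvd (b : k[X]) (g : k[X][X])
    (h : g.map (Ideal.Quotient.mk (Ideal.span {b})) = 0) : C b ∣ g := by
  rw [C_dvd_iff_dvd_coeff]
  intro i
  rw [← Ideal.mem_span_singleton, ← Ideal.Quotient.eq_zero_iff_mem, ← coeff_map, h, coeff_zero]

omit [CharZero k] in
/-- a polynomial whose image modulo `b` is divisible by the image of `h` is in `(b, h)` -/
private theorem loc_mem (b : k[X]) (h g : k[X][X])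
    (hd : h.map (Ideal.Quotient.mk (Ideal.span {b})) ∣
      g.map (Ideal.Quotient.mk (Ideal.span {b}))) : g ∈ Ideal.span {C b, h} := by
  obtain ⟨q, hq⟩ := hd
  obtain ⟨q', rfl⟩ := Polynomial.map_surjective (Ideal.Quotient.mk (Ideal.span {b}))
    Ideal.Quotient.mk_surjective q
  obtain ⟨v, hv⟩ := loc_dvd b (g - h * q') (by
    rw [Polynomial.map_sub, Polynomial.map_mul, hq, sub_self])
  rw [Ideal.mem_span_pair]
  exact ⟨v, q', by linear_combination -hv⟩

omit [CharZero k] in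
/-- the image modulo `b` of an element of `(b, h)` is divisible by the image of `h` -/
private theorem loc_dvd_of_mem (b : k[X]) (h g : k[X][X]) (hg : g ∈ Ideal.span {C b, h}) :
    h.map (Ideal.Quotient.mk (Ideal.span {b})) ∣
      g.map (Ideal.Quotient.mk (Ideal.span {b})) := by
  rw [Ideal.mem_span_pair] at hg
  obtain ⟨v, q, rfl⟩ := hg
  have h1 : Ideal.Quotient.mk (Ideal.span {b}) b = 0 :=
    Ideal.Quotient.eq_zero_iff_mem.2 (Ideal.mem_span_singleton_self b)
  rw [mul_comm q h, Polynomial.map_add, Polynomial.map_mul, Polynomial.map_mul, map_C, h1, C_0,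
    mul_zero, zero_add]
  exact dvd_mul_right _ _

private theorem aeval_mem_adjoin_simple_loc {κ L : Type} [Field κ] [Field L] [Algebra κ L] (z : L)
    (g : κ[X]) : aeval z g ∈ IntermediateField.adjoin κ {z} := by
  rw [aeval_eq_sum_range]
  refine sum_mem fun i _ => ?_
  rw [Algebra.smul_def]
  exact mul_mem (IntermediateField.algebraMap_mem _ _)
    (pow_mem (IntermediateField.mem_adjoin_simple_self κ z) _)

/-- the powers of an element of order one -/
private theorem loc_pow {R : Type} [CommRing R] [IsDedekindDomain R] {𝔓 : Ideal R}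
    (h0 : 𝔓 ≠ ⊥) (hp : 𝔓.IsPrime) {x : R} (h1 : x ∈ 𝔓) (h2 : x ∉ 𝔓 ^ 2) (n : ℕ) :
    x ^ n ∈ 𝔓 ^ n ∧ x ^ n ∉ 𝔓 ^ (n + 1) := by
  have hP : Prime 𝔓 := Ideal.prime_of_isPrime h0 hp
  have e1 : emultiplicity 𝔓 (Ideal.span {x}) = (1 : ℕ) := by
    rw [emultiplicity_eq_coe, pow_one, Ideal.dvd_span_singleton, Ideal.dvd_span_singleton]
    exact ⟨h1, h2⟩
  have e2 : emultiplicity 𝔓 (Ideal.span {x} ^ n) = (n : ℕ) := by
    rw [emultiplicity_pow hP, e1]
    simp
  rw [Ideal.span_singleton_pow, emultiplicity_eq_coe, Ideal.dvd_span_singleton,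
    Ideal.dvd_span_singleton] at e2
  exact e2

/-- elements of the same order differ by units at the prime ideal -/
private theorem loc_unit {R : Type} [CommRing R] [IsDedekindDomain R] {𝔓 : Ideal R}
    (hp : 𝔓.IsPrime) {x z : R} {e : ℕ} (h1 : x ∈ 𝔓 ^ e) (h2 : x ∉ 𝔓 ^ (e + 1))
    (h3 : z ∈ 𝔓 ^ e) (h4 : z ∉ 𝔓 ^ (e + 1)) : ∃ t t' : R, t ∉ 𝔓 ∧ t' ∉ 𝔓 ∧ x * t' = z * t := by
  obtain ⟨J, hJ⟩ := Ideal.dvd_span_singleton.2 h3
  have hJ' : ¬ J ≤ 𝔓 := by
    intro h
    apply h4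
    have e1 : Ideal.span {z} ≤ 𝔓 ^ (e + 1) := by
      rw [hJ, pow_succ]
      exact Ideal.mul_mono_right h
    exact e1 (Ideal.mem_span_singleton_self z)
  obtain ⟨t', ht', ht'P⟩ := SetLike.not_le_iff_exists.1 hJ'
  have e1 : x * t' ∈ Ideal.span {z} := by
    rw [hJ]
    exact Ideal.mul_mem_mul h1 ht'
  obtain ⟨t, ht⟩ := Ideal.mem_span_singleton'.1 e1
  refine ⟨t, t', ?_, ht'P, by rw [← ht, mul_comm]⟩
  intro htP
  have e2 : t' * x ∈ 𝔓 ^ (e + 1) := by
    rw [mul_comm, ← ht, pow_succ']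
    exact Ideal.mul_mem_mul htP h3
  rcases Ideal.IsPrime.mul_mem_pow 𝔓 e2 with h | h
  · exact ht'P h
  · exact h2 h

include K in
/-- Let `R` be the integral closure of `A = k[X]` in `F`, `y ∈ R`, and `s ∈ A` with `s R ⊆ A[y]`
(`hs`). Let `b` be a prime element of `A` prime to `s`, and `𝔓` a prime ideal of `R` which contains
`b`. There is a monic `h₀ ∈ A[Y]` with `h₀(y) ∈ 𝔓` such that `(b, h₀)` is a maximal ideal of `A[Y]`,
`[R/𝔓 : k] = deg b · deg h₀`, and every `g ∈ A[Y]` with `g(y) ∈ 𝔓` is in the ideal `(b, h₀)`.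

PROOF. `𝔓` is not `⊥`, and maximal; `𝔓 ∩ A = (b)` (`PrincipalIdealRing.isMaximal_of_irreducible`),
so
the field `κ = A ⧸ Ideal.span {b}` embeds into the field `R ⧸ 𝔓`, a finite extension of it. Let
`h̄ ∈ κ[Y]` be the minimal polynomial of the class `ȳ` of `y`, and `h₀ ∈ A[Y]` a monic polynomial
with
the image `h̄` (`Polynomial.lifts_and_natDegree_eq_and_monic`, the map `A → κ` is surjective). Then
`h₀(y) ∈ 𝔓`. If `g(y) ∈ 𝔓` then `ḡ(ȳ) = 0`, so `h̄ ∣ ḡ`, and `g ∈ (b, h₀)`: write `ḡ = h̄ g̅₁`, lift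
`g₁`; all coefficients of `g - h₀ g₁` are divisible by `b`. So `(b, h₀)` is the preimage of `𝔓`
under
`A[Y] → R`, `g ↦ g(y)`. The map `A[Y] → R ⧸ 𝔓` is surjective: for `r ∈ R` there are `s'`, `c` in `A`
with `s s' + b c = 1`, and `s r = g(y)` (`hs`), so `r = s' g(y) + b c r`, i.e. `r - (C s' * g)(y) ∈
𝔓`.
Therefore `A[Y] ⧸ (b, h₀)` is isomorphic to the field `R ⧸ 𝔓` and `(b, h₀)` is maximal. Finally
`κ(ȳ) = R ⧸ 𝔓` (surjectivity) so `[R ⧸ 𝔓 : κ] = deg h̄ = deg h₀` and `[κ : k] = deg b`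
(`finrank_quotient_span_eq_natDegree` or `AdjoinRoot.powerBasis`), with
`Module.finrank_mul_finrank`.
-/
theorem exists_h (y : integralClosure k[X] F) (s : k[X])
    (hs : ∀ r : integralClosure k[X] F, ∃ g : k[X][X],
      algebraMap k[X] (integralClosure k[X] F) s * r = aeval y g)
    (b : k[X]) (hb : Irreducible b) (hbs : IsCoprime s b) (𝔓 : Ideal (integralClosure k[X] F))
    [𝔓.IsPrime] (hb𝔓 : algebraMap k[X] (integralClosure k[X] F) b ∈ 𝔓) :
    ∃ h₀ : k[X][X], h₀.Monic ∧ aeval y h₀ ∈ 𝔓 ∧ (Ideal.span {C b, h₀}).IsMaximal ∧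
      b.natDegree * h₀.natDegree = finrank k (integralClosure k[X] F ⧸ 𝔓) ∧
      ∀ g : k[X][X], aeval y g ∈ 𝔓 → g ∈ Ideal.span {C b, h₀} := by
  obtain ⟨hded, hfr, hfin⟩ := ded (k := k) (F := F) K
  have hI : (Ideal.span {b}).IsMaximal := PrincipalIdealRing.isMaximal_of_irreducible hb
  have hb0 : algebraMap k[X] (integralClosure k[X] F) b ≠ 0 := fun h =>
    hb.ne_zero (algebraMap_inj K (h.trans (map_zero _).symm))
  have h𝔓 : 𝔓 ≠ ⊥ := fun h => hb0 (by rwa [h, Ideal.mem_bot] at hb𝔓)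
  have hmax : 𝔓.IsMaximal := Ideal.IsPrime.isMaximal inferInstance h𝔓
  have hle : Ideal.span {b} ≤ 𝔓.comap (algebraMap k[X] (integralClosure k[X] F)) := by
    rw [Ideal.span_singleton_le_iff_mem, Ideal.mem_comap]
    exact hb𝔓
  have hover : 𝔓.LiesOver (Ideal.span {b}) := ⟨hI.eq_of_le (Ideal.comap_ne_top _ hmax.ne_top) hle⟩
  let := Ideal.Quotient.field (Ideal.span {b})
  let := Ideal.Quotient.field 𝔓
  have hfin1 : Module.Finite k[X] (integralClosure k[X] F ⧸ 𝔓) :=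
    Module.Finite.of_surjective (Ideal.Quotient.mkₐ k[X] 𝔓).toLinearMap
      (Ideal.Quotient.mkₐ_surjective k[X] 𝔓)
  have hfin2 : Module.Finite (k[X] ⧸ Ideal.span {b}) (integralClosure k[X] F ⧸ 𝔓) :=
    Module.Finite.of_restrictScalars_finite k[X] _ _
  obtain ⟨z, hz⟩ : ∃ z : integralClosure k[X] F ⧸ 𝔓, z = Ideal.Quotient.mk 𝔓 y := ⟨_, rfl⟩
  have hint : IsIntegral (k[X] ⧸ Ideal.span {b}) z := Algebra.IsIntegral.isIntegral z
  have key : ∀ g : k[X][X], Ideal.Quotient.mk 𝔓 (aeval y g) =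
      aeval z (g.map (Ideal.Quotient.mk (Ideal.span {b}))) := by
    intro g
    have e1 : aeval z (g.map (Ideal.Quotient.mk (Ideal.span {b}))) = aeval z g :=
      aeval_map_algebraMap (k[X] ⧸ Ideal.span {b}) z g
    have e2 : aeval (algebraMap (integralClosure k[X] F) (integralClosure k[X] F ⧸ 𝔓) y) g =
        algebraMap (integralClosure k[X] F) (integralClosure k[X] F ⧸ 𝔓) (aeval y g) :=
      aeval_algebraMap_apply _ _ _
    rw [e1, hz]
    exact e2.symm
  obtain ⟨h₀, hh1, hh2, hh3⟩ := lifts_and_natDegree_eq_and_monic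
    (f := Ideal.Quotient.mk (Ideal.span {b}))
    (p := minpoly (k[X] ⧸ Ideal.span {b}) z) ((mem_lifts _).2
      (Polynomial.map_surjective _ Ideal.Quotient.mk_surjective _)) (minpoly.monic hint)
  have hmem : aeval y h₀ ∈ 𝔓 := by
    rw [← Ideal.Quotient.eq_zero_iff_mem, key, hh1, minpoly.aeval]
  have hker : ∀ g : k[X][X], aeval y g ∈ 𝔓 → g ∈ Ideal.span {C b, h₀} := by
    intro g hg
    refine loc_mem b h₀ g ?_
    rw [hh1]
    refine minpoly.dvd _ _ ?_
    rw [← key, Ideal.Quotient.eq_zero_iff_mem]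
    exact hg
  have hsurj : ∀ w : integralClosure k[X] F ⧸ 𝔓, ∃ g : k[X][X],
      Ideal.Quotient.mk 𝔓 (aeval y g) = w := by
    intro w
    obtain ⟨r, rfl⟩ := Ideal.Quotient.mk_surjective w
    obtain ⟨u, v, huv⟩ := hbs
    obtain ⟨g, hg⟩ := hs r
    refine ⟨C u * g, ?_⟩
    have e0 : aeval y (C u * g) = algebraMap k[X] (integralClosure k[X] F) u *
        (algebraMap k[X] (integralClosure k[X] F) s * r) := by
      rw [map_mul, aeval_C, ← hg]
    rw [e0, Ideal.Quotient.eq]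
    have e1 : algebraMap k[X] (integralClosure k[X] F) u *
        (algebraMap k[X] (integralClosure k[X] F) s * r) - r =
        -(algebraMap k[X] (integralClosure k[X] F) v * r *
          algebraMap k[X] (integralClosure k[X] F) b) := by
      have e2 := congrArg (algebraMap k[X] (integralClosure k[X] F)) huv
      rw [map_add, map_mul, map_mul, map_one] at e2
      linear_combination r * e2
    rw [e1]
    exact 𝔓.neg_mem (𝔓.mul_mem_left _ hb𝔓)
  refine ⟨h₀, hh3, hmem, ?_, ?_, hker⟩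
  · have e1 : Ideal.span {C b, h₀} = RingHom.ker ((Ideal.Quotient.mk 𝔓).comp
        (aeval y : k[X][X] →ₐ[k[X]] integralClosure k[X] F).toRingHom) := by
      apply le_antisymm
      · rw [Ideal.span_le]
        intro g hg
        rw [Set.mem_insert_iff, Set.mem_singleton_iff] at hg
        rcases hg with rfl | rfl
        · change Ideal.Quotient.mk 𝔓 (aeval y (C b)) = 0
          rw [aeval_C, Ideal.Quotient.eq_zero_iff_mem]
          exact hb𝔓
        · change Ideal.Quotient.mk 𝔓 (aeval y g) = 0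
          rw [Ideal.Quotient.eq_zero_iff_mem]
          exact hmem
      · intro g hg
        change Ideal.Quotient.mk 𝔓 (aeval y g) = 0 at hg
        rw [Ideal.Quotient.eq_zero_iff_mem] at hg
        exact hker g hg
    rw [e1]
    exact RingHom.ker_isMaximal_of_surjective _ fun w => hsurj w
  · have e1 : IntermediateField.adjoin (k[X] ⧸ Ideal.span {b}) {z} = ⊤ := by
      rw [eq_top_iff]
      intro w _
      obtain ⟨g, rfl⟩ := hsurj w
      rw [key]
      exact aeval_mem_adjoin_simple_loc z _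
    have e2 := IntermediateField.adjoin.finrank hint
    rw [e1, IntermediateField.finrank_top'] at e2
    have e3 : finrank k (k[X] ⧸ Ideal.span {b}) = b.natDegree :=
      finrank_quotient_span_eq_natDegree
    have e4 : IsScalarTower k (k[X] ⧸ Ideal.span {b}) (integralClosure k[X] F ⧸ 𝔓) :=
      inferInstance
    rw [hh2, ← e2, ← e3]
    exact Module.finrank_mul_finrank k (k[X] ⧸ Ideal.span {b}) (integralClosure k[X] F ⧸ 𝔓)

include K in
/-- In the same situation let `e ≥ 2` be the exponent of `𝔓` in `b R`, and `h₀` as in `exists_h`.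
Then `G = minpoly k[X] y` is `h₀ ^ e u + b v` with `(b, h₀, u) = (b, h₀, v) = 1`.

PROOF. Let `M = (b, h₀)`, a maximal ideal of `A[Y]`, the preimage of `𝔓` under `g ↦ g(y)`; let
`ord` be the exponent of `𝔓` (for elements of the Dedekind domain `R`).
(1) `h₀(y) ∉ 𝔓 ^ 2`. For `r ∈ 𝔓` we have `s r = g(y)`, `g(y) ∈ 𝔓`, so `g ∈ M` and `s r` is in the
ideal
`(b, h₀(y))` of `R`. If `h₀(y) ∈ 𝔓 ^ 2` then (as `b ∈ 𝔓 ^ e ⊆ 𝔓 ^ 2`) `s r ∈ 𝔓 ^ 2` for all `r ∈ 𝔓`;
as `s ∉ 𝔓` (`s` is prime to `b ∈ 𝔓`), `r ∈ 𝔓 ^ 2` (`Ideal.IsPrime.mul_mem_pow`), so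
`𝔓 ≤ 𝔓 ^ 2`, a contradiction. So `ord h₀(y) = 1`, `ord b = e`.
(2) Let `κ = A ⧸ (b)`, a field, and `Ḡ, h̄ ∈ κ[Y]` the images of `G`, `h₀`. `h̄` is irreducible
(`M` is
maximal: `A[Y] ⧸ M` is `κ[Y] ⧸ (h̄)`), and `h̄ ∣ Ḡ`, as `G(y) = 0 ∈ 𝔓`, `G ∈ M`. Let `a ≥ 1` be the
multiplicity: `Ḡ = h̄ ^ a ū`, `h̄ ∤ ū`, `ū` monic. Let `u ∈ A[Y]` be monic with the image `ū`; so
`G = h₀ ^ a u + b v` for some `v ∈ A[Y]`, and `u ∉ M`, `u(y) ∉ 𝔓`.
(3) `a ≥ e`: `h₀(y) ^ a u(y) = - b v(y) ∈ 𝔓 ^ e`, and its order is `a`.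
(4) `a ≤ e`. There are `w, w' ∈ A[Y]`, not in `M`, with `b w(y) = h₀(y) ^ e w'(y)`: write
`b R = 𝔓 ^ e J`, `h₀(y) ^ e R = 𝔓 ^ e J'` with ideals `J`, `J'` not contained in `𝔓`, choose
`t' ∈ J'`, `t' ∉ 𝔓`; then `b t' ∈ 𝔓 ^ e J J' ⊆ h₀(y) ^ e R`, so `b t' = h₀(y) ^ e t`, and `t ∉ 𝔓`
because the order of `b t'` is `e`. Now `s t' = w(y)`, `s t = w'(y)` with `w, w' ∈ A[Y]`, and they
are
not in `𝔓`, so `w, w' ∉ M`. The kernel of `g ↦ g(y)` is generated by `G`
(`minpoly.isIntegrallyClosed_dvd`), so `b w - h₀ ^ e w' = G z`, and modulo `b`: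
`- h̄ ^ e w̄' = h̄ ^ a ū z̄`. As `h̄ ∤ w̄'` we get `a ≤ e` (if `a > e` divide by `h̄ ^ e`).
(5) So `a = e`, `b v(y) = - h₀(y) ^ e u(y)` has the order `e` and `v(y) ∉ 𝔓`, so `v ∉ M`, and
`(b, h₀, v) = (b, h₀, u) = 1` as `M` is maximal (`Ideal.IsMaximal.eq_of_le` or
`Ideal.isMaximal_iff`). -/
theorem exists_part (y : integralClosure k[X] F) (s : k[X])
    (hs : ∀ r : integralClosure k[X] F, ∃ g : k[X][X],
      algebraMap k[X] (integralClosure k[X] F) s * r = aeval y g)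
    (b : k[X]) (hb : Irreducible b) (hbs : IsCoprime s b) (𝔓 : Ideal (integralClosure k[X] F))
    [𝔓.IsPrime] (e : ℕ) (he : 2 ≤ e)
    (h1 : algebraMap k[X] (integralClosure k[X] F) b ∈ 𝔓 ^ e)
    (h2 : algebraMap k[X] (integralClosure k[X] F) b ∉ 𝔓 ^ (e + 1))
    (h₀ : k[X][X]) (hmon : h₀.Monic) (hh : aeval y h₀ ∈ 𝔓)
    (hM : (Ideal.span {C b, h₀}).IsMaximal)
    (hker : ∀ g : k[X][X], aeval y g ∈ 𝔓 → g ∈ Ideal.span {C b, h₀}) :
    ∃ u v : k[X][X], u.Monic ∧ minpoly k[X] y = h₀ ^ e * u + C b * v ∧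
      Ideal.span {C b, h₀, u} = ⊤ ∧ Ideal.span {C b, h₀, v} = ⊤ := by
  obtain ⟨hded, hfr, hfin⟩ := ded (k := k) (F := F) K
  have htf : Module.IsTorsionFree k[X] (integralClosure k[X] F) := tf K
  have hp : 𝔓.IsPrime := inferInstance
  have hI : (Ideal.span {b}).IsMaximal := PrincipalIdealRing.isMaximal_of_irreducible hb
  have hIp : (Ideal.span {b}).IsPrime := hI.isPrime
  have hb0 : algebraMap k[X] (integralClosure k[X] F) b ≠ 0 := fun h =>
    hb.ne_zero (algebraMap_inj K (h.trans (map_zero _).symm))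
  have hb𝔓 : algebraMap k[X] (integralClosure k[X] F) b ∈ 𝔓 :=
    Ideal.pow_le_self (by omega) h1
  have h𝔓 : 𝔓 ≠ ⊥ := fun h => hb0 (by rwa [h, Ideal.mem_bot] at hb𝔓)
  have hs𝔓 : algebraMap k[X] (integralClosure k[X] F) s ∉ 𝔓 := by
    intro h
    obtain ⟨u, v, huv⟩ := hbs
    apply hp.ne_top
    rw [Ideal.eq_top_iff_one]
    have e2 := congrArg (algebraMap k[X] (integralClosure k[X] F)) huv
    rw [map_add, map_mul, map_mul, map_one] at e2
    rw [← e2]
    exact add_mem (𝔓.mul_mem_left _ h) (𝔓.mul_mem_left _ hb𝔓)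
  have hM𝔓 : ∀ g : k[X][X], g ∈ Ideal.span {C b, h₀} → aeval y g ∈ 𝔓 := by
    intro g hg
    rw [Ideal.mem_span_pair] at hg
    obtain ⟨v, q, rfl⟩ := hg
    rw [map_add, map_mul, map_mul, aeval_C]
    exact add_mem (𝔓.mul_mem_left _ hb𝔓) (𝔓.mul_mem_left _ hh)
  -- (1)
  have hη : aeval y h₀ ∉ 𝔓 ^ 2 := by
    intro h
    have e1 : 𝔓 ≤ 𝔓 ^ 2 := by
      intro r hr
      obtain ⟨g, hg⟩ := hs r
      have e2 : aeval y g ∈ 𝔓 := by
        rw [← hg]
        exact 𝔓.mul_mem_left _ hr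
      have e3 := hker g e2
      rw [Ideal.mem_span_pair] at e3
      obtain ⟨v, q, hvq⟩ := e3
      have e4 : algebraMap k[X] (integralClosure k[X] F) s * r ∈ 𝔓 ^ 2 := by
        rw [hg, ← hvq, map_add, map_mul, map_mul, aeval_C]
        exact add_mem ((𝔓 ^ 2).mul_mem_left _ (Ideal.pow_le_pow_right he h1))
          ((𝔓 ^ 2).mul_mem_left _ h)
      exact (Ideal.IsPrime.mul_mem_pow 𝔓 e4).resolve_left hs𝔓
    have e2 := Ideal.pow_right_strictAnti 𝔓 h𝔓 hp.ne_top (show 1 < 2 by norm_num)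
    simp only [pow_one] at e2
    exact (lt_irrefl _ (e2.trans_le e1)).elim
  have hηn := loc_pow h𝔓 hp hh hη
  -- (2)
  obtain ⟨G, hG⟩ : ∃ G : k[X][X], G = minpoly k[X] y := ⟨_, rfl⟩
  have hyi : IsIntegral k[X] y := Algebra.IsIntegral.isIntegral y
  have hGm : G.Monic := by
    rw [hG]
    exact minpoly.monic hyi
  have hG0 : aeval y G = 0 := by
    rw [hG]
    exact minpoly.aeval _ _
  let := Ideal.Quotient.field (Ideal.span {b})
  obtain ⟨q, hq⟩ : ∃ q : k[X] →+* k[X] ⧸ Ideal.span {b}, q = Ideal.Quotient.mk (Ideal.span {b}) :=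
    ⟨_, rfl⟩
  have hqs : Function.Surjective q := by
    rw [hq]
    exact Ideal.Quotient.mk_surjective
  have hnu : ¬ IsUnit (h₀.map q) := by
    intro hu
    apply hM.ne_top
    rw [Ideal.eq_top_iff_one]
    refine loc_mem b h₀ 1 ?_
    rw [← hq]
    exact hu.dvd
  have hfm : FiniteMultiplicity (h₀.map q) (G.map q) :=
    FiniteMultiplicity.of_not_isUnit hnu (hGm.map q).ne_zero
  obtain ⟨a, ub, hub, hndvd⟩ : ∃ (a : ℕ) (ub : (k[X] ⧸ Ideal.span {b})[X]),
      G.map q = h₀.map q ^ a * ub ∧ ¬ h₀.map q ∣ ub :=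
    ⟨_, hfm.exists_eq_pow_mul_and_not_dvd⟩
  have hubm : ub.Monic := by
    have e1 := hGm.map q
    rw [hub] at e1
    exact ((hmon.map q).pow a).of_mul_monic_left e1
  obtain ⟨u, hu1, -, hu3⟩ := lifts_and_natDegree_eq_and_monic (f := q) (p := ub) ((mem_lifts _).2
      (Polynomial.map_surjective _ hqs _)) hubm
  obtain ⟨v, hv⟩ := loc_dvd b (G - h₀ ^ a * u) (by
    rw [← hq, Polynomial.map_sub, Polynomial.map_mul, Polynomial.map_pow, hu1, hub, sub_self])
  have hGe : G = h₀ ^ a * u + C b * v := by linear_combination hv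
  have huM : u ∉ Ideal.span {C b, h₀} := by
    intro h
    apply hndvd
    have e1 := loc_dvd_of_mem b h₀ u h
    rw [← hq, hu1] at e1
    exact e1
  have huP : aeval y u ∉ 𝔓 := fun h => huM (hker u h)
  have hrel : aeval y u * aeval y h₀ ^ a =
      -(aeval y v * algebraMap k[X] (integralClosure k[X] F) b) := by
    have e1 := hG0
    rw [hGe, map_add, map_mul, map_mul, map_pow, aeval_C] at e1
    linear_combination e1
  -- (3)
  have hae : e ≤ a := by
    by_contra hcon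
    push Not at hcon
    have e1 : aeval y u * aeval y h₀ ^ a ∈ 𝔓 ^ (a + 1) := by
      rw [hrel]
      exact neg_mem ((𝔓 ^ (a + 1)).mul_mem_left _ (Ideal.pow_le_pow_right hcon h1))
    rcases Ideal.IsPrime.mul_mem_pow 𝔓 e1 with h | h
    · exact huP h
    · exact (hηn a).2 h
  -- (4)
  have hea : a ≤ e := by
    by_contra hcon
    push Not at hcon
    obtain ⟨t, t', ht, ht', htt⟩ := loc_unit hp h1 h2 (hηn e).1 (hηn e).2
    obtain ⟨w, hw⟩ := hs t'
    obtain ⟨w', hw'⟩ := hs t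
    have hw'M : w' ∉ Ideal.span {C b, h₀} := by
      intro h
      have e1 := hM𝔓 w' h
      rw [← hw'] at e1
      rcases hp.mem_or_mem e1 with h | h
      · exact hs𝔓 h
      · exact ht h
    have e1 : aeval y (C b * w - h₀ ^ e * w') = 0 := by
      rw [map_sub, map_mul, map_mul, map_pow, aeval_C, ← hw, ← hw']
      linear_combination (algebraMap k[X] (integralClosure k[X] F) s) * htt
    obtain ⟨z, hz⟩ := minpoly.isIntegrallyClosed_dvd hyi e1
    rw [← hG] at hz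
    have hqb : q b = 0 := by
      rw [hq]
      exact Ideal.Quotient.eq_zero_iff_mem.2 (Ideal.mem_span_singleton_self b)
    have e2 := congrArg (Polynomial.map q) hz
    rw [Polynomial.map_sub, Polynomial.map_mul, Polynomial.map_mul, Polynomial.map_mul,
      Polynomial.map_pow, map_C, hqb, C_0, zero_mul, zero_sub, hub] at e2
    have e3 : h₀.map q ^ e * w'.map q = h₀.map q ^ e * (h₀.map q *
        (h₀.map q ^ (a - e - 1) * ub * -z.map q)) := by
      have e4 : h₀.map q ^ a = h₀.map q ^ e * (h₀.map q * h₀.map q ^ (a - e - 1)) := by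
        rw [← pow_succ', ← pow_add]
        congr 1
        omega
      rw [e4] at e2
      linear_combination -e2
    have e4 := mul_left_cancel₀ (pow_ne_zero e (hmon.map q).ne_zero) e3
    apply hw'M
    refine loc_mem b h₀ w' ?_
    rw [← hq, e4]
    exact dvd_mul_right _ _
  have haee : a = e := le_antisymm hea hae
  -- (5)
  have hvP : aeval y v ∉ 𝔓 := by
    intro h
    have e1 : aeval y u * aeval y h₀ ^ e ∈ 𝔓 ^ (e + 1) := by
      rw [haee] at hrel
      rw [hrel, pow_succ']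
      exact neg_mem (Ideal.mul_mem_mul h h1)
    rcases Ideal.IsPrime.mul_mem_pow 𝔓 e1 with h | h
    · exact huP h
    · exact (hηn e).2 h
  have hvM : v ∉ Ideal.span {C b, h₀} := fun h => hvP (hM𝔓 v h)
  have htop : ∀ g : k[X][X], g ∉ Ideal.span {C b, h₀} → Ideal.span {C b, h₀, g} = ⊤ := by
    intro g hg
    by_contra hne
    have e1 : Ideal.span {C b, h₀} ≤ Ideal.span {C b, h₀, g} := by
      apply Ideal.span_mono
      intro x hx
      rcases hx with rfl | hx
      · exact Or.inl rfl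
      · rw [Set.mem_singleton_iff] at hx
        rw [hx]
        exact Or.inr (Or.inl rfl)
    have e2 := hM.eq_of_le hne e1
    apply hg
    rw [e2]
    exact Ideal.subset_span (Or.inr (Or.inr rfl))
  refine ⟨u, v, hu3, ?_, htop u huM, htop v hvM⟩
  rw [← hG, hGe, haee]

end Pool.Agent.EVC
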