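import Pool.Agent.EVC.Ram
import Pool.Agent.EVC.Card
import Pool.Agent.EVC.Gen
import Pool.Agent.EVC.Fib
import Pool.Agent.EVC.Fin
import Pool.Agent.EVC.Loc
import Pool.Agent.EVC.Cop
import Pool.Agent.RP2.OfPoint

/-!
# The plane model with all ramified points nonsingular (package EVC 16)
-/

set_option autoImplicit false

open Polynomial NumberField IntermediateField Module

namespace Pool.Agent.EVC

variable {k F : Type} [Field k] [Field F] [Algebra k F] [Algebra k[X] F] [IsScalarTower k k[X] F]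
variable (K : Type) [CharZero k] [Field K] [Algebra k[X] K] [IsFractionRing k[X] K] [Algebra K F]
  [IsScalarTower k[X] K F] [FiniteDimensional K F]

include K in
/-- If `s ≠ 0` and `s R ⊆ k[x, y]` then `y` generates `F` over `K = k(x)` and its minimal polynomial
over `k[x]` has the degree `[F : K]`.

PROOF. Every element of `F` is a quotient of elements of `R` (`ded K`), and for `r ∈ R` we have
`r = g(x, y) / s ∈ K(y)`, so `IntermediateField.adjoin K {(y : F)} = ⊤`, and
`finrank K F = (minpoly K (y : F)).natDegree` (`IntermediateField.adjoin.finrank`,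
`IntermediateField.finrank_top'`). As `k[X]` is integrally closed,
`minpoly K (y : F) = (minpoly k[X] (y : F)).map (algebraMap k[X] K)`
(`minpoly.isIntegrallyClosed_eq_field_fractions'`), and `minpoly k[X] (y : F) = minpoly k[X] y`
(`minpoly.algebraMap_eq`, `Subtype.val_injective`). -/
theorem natDegree_minpoly (y : integralClosure k[X] F) (s : k[X]) (hs0 : s ≠ 0)
    (hs : ∀ r : integralClosure k[X] F, ∃ g : k[X][X],
      algebraMap k[X] (integralClosure k[X] F) s * r = aeval y g) :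
    (minpoly k[X] y).natDegree = finrank K F := by
  obtain ⟨_, _, _⟩ := ded (k := k) (F := F) K
  have hq : ∀ g : k[X][X], algebraMap (integralClosure k[X] F) F (aeval y g) ∈
      IntermediateField.adjoin K {(y : F)} := by
    intro g
    have h1 : algebraMap (integralClosure k[X] F) F (aeval y g) = aeval (y : F) g :=
      (aeval_algebraMap_apply F y g).symm
    rw [h1, aeval_eq_sum_range]
    refine sum_mem fun i _ => ?_
    rw [Algebra.smul_def, IsScalarTower.algebraMap_apply k[X] K F]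
    exact mul_mem (IntermediateField.algebraMap_mem _ _)
      (pow_mem (IntermediateField.mem_adjoin_simple_self K _) _)
  have hs' : algebraMap k[X] F s ≠ 0 := fun h0 =>
    hs0 (algebraMap_inj_field K (h0.trans (map_zero _).symm))
  have hr : ∀ r : integralClosure k[X] F, (r : F) ∈ IntermediateField.adjoin K {(y : F)} := by
    intro r
    obtain ⟨g, hg⟩ := hs r
    have h1 : algebraMap k[X] F s * (r : F) ∈ IntermediateField.adjoin K {(y : F)} := by
      have h2 := hq g
      rw [← hg, map_mul] at h2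
      exact h2
    have h3 : algebraMap k[X] F s ∈ IntermediateField.adjoin K {(y : F)} := by
      rw [IsScalarTower.algebraMap_apply k[X] K F]
      exact IntermediateField.algebraMap_mem _ _
    have h4 := mul_mem (inv_mem h3) h1
    rwa [inv_mul_cancel_left₀ hs'] at h4
  have htop : IntermediateField.adjoin K {(y : F)} = ⊤ := by
    rw [eq_top_iff]
    intro z _
    obtain ⟨a, c, -, rfl⟩ := IsFractionRing.div_surjective (integralClosure k[X] F) z
    exact div_mem (hr a) (hr c)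
  have h1 := (Field.primitive_element_iff_minpoly_natDegree_eq K (y : F)).1 htop
  have hint : IsIntegral k[X] (y : F) := y.2
  rw [minpoly.isIntegrallyClosed_eq_field_fractions' K hint,
    (minpoly.monic hint).natDegree_map] at h1
  have h2 : minpoly k[X] (y : F) = minpoly k[X] y :=
    minpoly.algebraMap_eq (B' := F) Subtype.val_injective y
  rwa [h2] at h1

include K in
/-- the part of the fibre at a ramified prime ideal -/
private theorem datum_Model (y : integralClosure k[X] F) (s : k[X])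
    (hs : ∀ r : integralClosure k[X] F, ∃ g : k[X][X],
      algebraMap k[X] (integralClosure k[X] F) s * r = aeval y g)
    (b : k[X]) (hb : Irreducible b) (hbs : IsCoprime s b) (𝔓 : Ideal (integralClosure k[X] F))
    [𝔓.IsPrime] (hb2 : algebraMap k[X] (integralClosure k[X] F) b ∈ 𝔓 ^ 2) :
    ∃ (Q : RP2.Part k (minpoly k[X] y)) (h₀ : k[X][X]), Q.b = b ∧ Q.h = h₀ ^ Q.e ∧ 2 ≤ Q.e ∧
      h₀.Monic ∧ aeval y h₀ ∈ 𝔓 ∧ (Ideal.span {C b, h₀}).IsMaximal ∧
      b.natDegree * h₀.natDegree = finrank k (integralClosure k[X] F ⧸ 𝔓) ∧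
      algebraMap k[X] (integralClosure k[X] F) b ∈ 𝔓 ^ Q.e ∧
      algebraMap k[X] (integralClosure k[X] F) b ∉ 𝔓 ^ (Q.e + 1) := by
  classical
  obtain ⟨_, _, _⟩ := ded (k := k) (F := F) K
  have hb0 : algebraMap k[X] (integralClosure k[X] F) b ≠ 0 := fun h0 =>
    hb.ne_zero (algebraMap_inj K (h0.trans (map_zero _).symm))
  have hb1 : algebraMap k[X] (integralClosure k[X] F) b ∈ 𝔓 := by
    have h1 := Ideal.pow_le_pow_right (I := 𝔓) (show 1 ≤ 2 by norm_num) hb2
    rwa [pow_one] at h1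
  have hex : ∃ n, algebraMap k[X] (integralClosure k[X] F) b ∉ 𝔓 ^ n := by
    by_contra hcon
    push Not at hcon
    have h1 := Ideal.iInf_pow_eq_bot_of_isDomain 𝔓 (Ideal.IsPrime.ne_top inferInstance)
    have h2 : algebraMap k[X] (integralClosure k[X] F) b ∈ ⨅ i, 𝔓 ^ i :=
      (Submodule.mem_iInf _).2 hcon
    rw [h1, Ideal.mem_bot] at h2
    exact hb0 h2
  obtain ⟨e, he, h1, h2⟩ : ∃ e, 2 ≤ e ∧ algebraMap k[X] (integralClosure k[X] F) b ∈ 𝔓 ^ e ∧
      algebraMap k[X] (integralClosure k[X] F) b ∉ 𝔓 ^ (e + 1) := by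
    have h3 := Nat.find_spec hex
    have h4 : 3 ≤ Nat.find hex := by
      by_contra hlt
      exact h3 (Ideal.pow_le_pow_right (by omega) hb2)
    refine ⟨Nat.find hex - 1, by omega, ?_, ?_⟩
    · have h5 := Nat.find_min hex (show Nat.find hex - 1 < Nat.find hex by omega)
      exact not_not.1 h5
    · rwa [Nat.sub_add_cancel (by omega)]
  obtain ⟨h₀, g1, g2, g3, g4, g5⟩ := exists_h K y s hs b hb hbs 𝔓 hb1
  obtain ⟨u, v, umon, hG, hu, hv⟩ := exists_part K y s hs b hb hbs 𝔓 e he h1 h2 h₀ g1 g2 g3 g5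
  exact ⟨RP2.Part.ofPoint (minpoly k[X] y) b e h₀ u v hb (by omega) g1 umon hG hu hv, h₀, rfl,
    rfl, he, g1, g2, g3, g4, h1, h2⟩

include K in
/-- the sum of the ramification indices -/
private theorem ramSum_Model (D : ℕ → Prop) {ι : Type} [Fintype ι]
    (𝔓 : ι → Ideal (integralClosure k[X] F)) (hinj : Function.Injective 𝔓)
    (hpr : ∀ i, (𝔓 i).IsPrime) (b : ι → k[X]) (irr : ∀ i, Irreducible (b i)) (e : ι → ℕ)
    (he : ∀ i, 2 ≤ e i) (h1 : ∀ i, algebraMap k[X] (integralClosure k[X] F) (b i) ∈ 𝔓 i ^ e i)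
    (h2 : ∀ i, algebraMap k[X] (integralClosure k[X] F) (b i) ∉ 𝔓 i ^ (e i + 1))
    (hD : ∀ i, D (b i).natDegree)
    (hall : ∀ (P : Pt k F) (hx : algebraMap k[X] F X ∈ P.ring),
      algebraMap k[X] (integralClosure k[X] F) (minpoly k (P.eval (algebraMap k[X] F X))) ∈
        P.center hx ^ 2 →
      D (finrank k (IntermediateField.adjoin k {P.eval (algebraMap k[X] F X)})) →
      ∃ i, 𝔓 i = P.center hx) :
    ramSum k (algebraMap k[X] F X) D =
      ∑ i, (e i - 1) * finrank k (integralClosure k[X] F ⧸ 𝔓 i) := by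
  classical
  obtain ⟨_, _, _⟩ := ded (k := k) (F := F) K
  have hb1 : ∀ i, algebraMap k[X] (integralClosure k[X] F) (b i) ∈ 𝔓 i := fun i => by
    have h3 := Ideal.pow_le_pow_right (I := 𝔓 i) (show 1 ≤ e i by have := he i; omega) (h1 i)
    rwa [pow_one] at h3
  have hne : ∀ i, 𝔓 i ≠ ⊥ := fun i h0 => by
    have h3 := hb1 i
    rw [h0, Ideal.mem_bot] at h3
    exact (irr i).ne_zero (algebraMap_inj K (h3.trans (map_zero _).symm))
  have hcard : ∀ i, {P : Pt k F | ∃ hx : algebraMap k[X] F X ∈ P.ring,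
      P.center hx = 𝔓 i}.Finite ∧ {P : Pt k F | ∃ hx : algebraMap k[X] F X ∈ P.ring,
      P.center hx = 𝔓 i}.ncard = finrank k (integralClosure k[X] F ⧸ 𝔓 i) := fun i => by
    have := hpr i
    exact card_center K (𝔓 i) (hne i) (fin_quotient K (𝔓 i) (hne i))
  have hA : ramSum k (algebraMap k[X] F X) D =
      ∑ᶠ P ∈ ⋃ i, {P : Pt k F | ∃ hx : algebraMap k[X] F X ∈ P.ring, P.center hx = 𝔓 i},
        (P.ram (algebraMap k[X] F X) - 1) := by
    unfold ramSum
    apply finsum_mem_inter_support_eq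
    ext P
    simp only [Set.mem_inter_iff, Set.mem_iUnion, Function.mem_support, Set.mem_ofPred_eq]
    constructor
    · rintro ⟨⟨hx, hDP⟩, hr⟩
      obtain ⟨r1, -, -⟩ := ram_spec K P hx
      obtain ⟨i, hi⟩ := hall P hx (Ideal.pow_le_pow_right (by omega) r1) hDP
      exact ⟨⟨i, hx, hi.symm⟩, hr⟩
    · rintro ⟨⟨i, hx, hi⟩, hr⟩
      have hbP : algebraMap k[X] (integralClosure k[X] F) (b i) ∈ P.center hx := by
        rw [hi]
        exact hb1 i
      refine ⟨⟨hx, ?_⟩, hr⟩
      rw [finrank_value P hx (b i) (irr i) hbP]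
      exact hD i
  rw [hA, finsum_mem_iUnion _ (fun i => (hcard i).1), finsum_eq_sum_of_fintype]
  · refine Finset.sum_congr rfl fun i _ => ?_
    have hram : ∀ P ∈ {P : Pt k F | ∃ hx : algebraMap k[X] F X ∈ P.ring, P.center hx = 𝔓 i},
        P.ram (algebraMap k[X] F X) - 1 = e i - 1 := by
      rintro P ⟨hx, hi⟩
      have hbP : algebraMap k[X] (integralClosure k[X] F) (b i) ∈ P.center hx := by
        rw [hi]
        exact hb1 i
      have r1 := mem_center_pow K P hx (b i) (irr i) hbP (e i)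
      have r2 := mem_center_pow K P hx (b i) (irr i) hbP (e i + 1)
      rw [hi] at r1 r2
      have r3 := r1.1 (h1 i)
      have r4 : ¬ e i + 1 ≤ P.ram (algebraMap k[X] F X) := fun h => h2 i (r2.2 h)
      omega
    rw [finsum_mem_congr rfl hram, finsum_mem_eq_finite_toFinset_sum _ (hcard i).1,
      Finset.sum_const, smul_eq_mul, ← Set.ncard_eq_toFinset_card _ (hcard i).1, (hcard i).2,
      mul_comm]
  · intro i j hij
    rw [Function.onFun, Set.disjoint_left]
    rintro P ⟨hx, hi⟩ ⟨hx', hj⟩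
    exact hij (hinj (hi.symm.trans hj))

include K in
/-- **The model.** There is an integral function `y` and `s ≠ 0` in `k[x]` with `s R ⊆ k[x, y]`,
such
that the minimal polynomial `G` of `y` over `k[x]` has parts (`RP2.Part`) for all ramified points
above any given set of points of the line, described by a property `D` of the degree.

PROOF. Let `R` be the integral closure of `k[X]` in `F`, `j = algebraMap k[X] R`. Let `𝒮` be the
finite
set of the prime ideals `𝔓` of `R` such that `j b ∈ 𝔓 ^ 2` for some irreducible `b` (`finite_ram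
K`);
choose such a `b = b_𝔓` for every `𝔓 ∈ 𝒮`. Then `𝔓 ≠ ⊥` (`algebraMap_inj K`). Let `β` be the product
of the `b_𝔓`, `𝔓 ∈ 𝒮`, and `y`, `s` as in `exists_gen K β`; `s` is prime to `β`, so prime to all
`b_𝔓`
(`IsCoprime.of_isCoprime_of_dvd_right`), and `s ≠ 0` unless `β` is a unit, in this case `𝒮` is empty
(irreducible polynomials are not units) and if `s = 0` then use `exists_gen K X` (`X` is not a unit)
instead of `exists_gen K β`, or use `β X` instead of `β` from the beginning.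
Let `G = minpoly k[X] y`; it has the degree `finrank K F` by `natDegree_minpoly`.
For `𝔓 ∈ 𝒮` let `h_𝔓` be as in `exists_h K`; let `e_𝔓 ≥ 2` be the exponent of `𝔓` in `j b_𝔓`, i.e.
`j b ∈ 𝔓 ^ e`, `j b ∉ 𝔓 ^ (e + 1)` (it exists because `j b ≠ 0`,
`FiniteMultiplicity.of_not_isUnit`; see `ram_spec` in the file `Ram.lean`), and `u_𝔓`, `v_𝔓` as in
`exists_part K`. Let `Q_𝔓 = RP2.Part.ofPoint G b_𝔓 e_𝔓 h_𝔓 u_𝔓 v_𝔓 ..`; so `(Q_𝔓).b = b_𝔓`,
`(Q_𝔓).e = e_𝔓`, `(Q_𝔓).h = h_𝔓 ^ e_𝔓` by definition. For `𝔓 ≠ 𝔓'` the ideal is `⊤` by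
`coprime_parts`. For given `D` let `𝒮_D` be the set of the `𝔓 ∈ 𝒮` with `D (natDegree b_𝔓)`, and
`l` its number of elements (`Finset.equivFin`), `Q` the family of the `Q_𝔓`.
The sum: the term of `𝔓` is `(1 - 1 / e) (deg b · e deg h) = (e - 1) deg b deg h =
(e - 1) finrank k (R ⧸ 𝔓)`, and this is `(e - 1)` times the number of the points with center `𝔓`
(`card_center K`, `fin_quotient K`), i.e. the sum of `P.ram x - 1` over these points
(`mem_center_pow K`: `P.ram x = e_𝔓` for these points, with `b = b_𝔓`). On the other hand, if `P`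
is a
point with `x ∈ P.ring`, `D [k(x(P)) : k]` and `P.ram x - 1 ≠ 0`, then `P.ram x ≥ 2`, so with
`b = minpoly k (x(P))` we have `j b ∈ (P.center hx) ^ 2` (`ram_spec K`,
`Ideal.pow_le_pow_right`), so `𝔓 = P.center hx` is in `𝒮`; and `[k(x(P)) : k] = natDegree b_𝔓`
(`finrank_value P hx b_𝔓`), so `𝔓 ∈ 𝒮_D`. And conversely a point with the center `𝔓 ∈ 𝒮_D` has
`D [k(x(P)) : k]`. So the finite sum `ramSum k x D` is the sum over `𝔓 ∈ 𝒮_D` (group the points by
their centers: `finsum_mem_biUnion` or `finsum_mem_eq_of_bijOn`, `finsum_eq_sum_of_support_subset`;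
the union over `𝔓 ∈ 𝒮_D` of the finite sets of the points with center `𝔓` contains the
support). -/
theorem exists_model : ∃ (y : integralClosure k[X] F) (s : k[X]), s ≠ 0 ∧
    (∀ r : integralClosure k[X] F, ∃ g : k[X][X],
      algebraMap k[X] (integralClosure k[X] F) s * r = aeval y g) ∧
    (minpoly k[X] y).natDegree = finrank K F ∧
    ∀ D : ℕ → Prop, ∃ (l : ℕ) (Q : Fin l → RP2.Part k (minpoly k[X] y)),
      (∀ i j, i ≠ j → Ideal.span {C (Q i).b, (Q i).h, C (Q j).b, (Q j).h} = ⊤) ∧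
      (∀ i, D (Q i).b.natDegree) ∧
      ∑ i, (1 - 1 / ((Q i).e : ℝ)) * ((Q i).b.natDegree * (Q i).h.natDegree) =
        (ramSum k (algebraMap k[X] F X) D : ℝ) := by
  classical
  obtain ⟨_, _, _⟩ := ded (k := k) (F := F) K
  have hfin := finite_ram (k := k) (F := F) K
  let S : Type := {𝔓 : Ideal (integralClosure k[X] F) // 𝔓.IsPrime ∧ ∃ b : k[X],
    Irreducible b ∧ algebraMap k[X] (integralClosure k[X] F) b ∈ 𝔓 ^ 2}
  have : Fintype S := hfin.fintype
  choose b irr hb2 using fun 𝔓 : S => 𝔓.2.2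
  have hβ : (∏ 𝔓 : S, b 𝔓) * X ≠ 0 :=
    mul_ne_zero (Finset.prod_ne_zero_iff.2 fun 𝔓 _ => (irr 𝔓).ne_zero) X_ne_zero
  obtain ⟨y, s, hcop, hs⟩ := exists_gen (k := k) (F := F) K _ hβ
  have hs0 : s ≠ 0 := by
    rintro rfl
    have h1 : IsCoprime (0 : k[X]) X :=
      IsCoprime.of_isCoprime_of_dvd_right hcop (dvd_mul_left _ _)
    rw [isCoprime_zero_left] at h1
    exact not_isUnit_X h1
  have hbs : ∀ 𝔓 : S, IsCoprime s (b 𝔓) := fun 𝔓 =>
    IsCoprime.of_isCoprime_of_dvd_right hcop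
      ((Finset.dvd_prod_of_mem b (Finset.mem_univ 𝔓)).trans (dvd_mul_right _ _))
  refine ⟨y, s, hs0, hs, natDegree_minpoly K y s hs0 hs, fun D => ?_⟩
  have hpr : ∀ 𝔓 : S, 𝔓.1.IsPrime := fun 𝔓 => 𝔓.2.1
  choose Q h₀ hQb hQh hQe hmon hh hM hdeg hin hnot using fun 𝔓 : S =>
    have := hpr 𝔓
    datum_Model K y s hs (b 𝔓) (irr 𝔓) (hbs 𝔓) 𝔓.1 (hb2 𝔓)
  have hb1 : ∀ 𝔓 : S, algebraMap k[X] (integralClosure k[X] F) (b 𝔓) ∈ 𝔓.1 := fun 𝔓 => by
    have h1 := Ideal.pow_le_pow_right (I := 𝔓.1) (show 1 ≤ 2 by norm_num) (hb2 𝔓)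
    rwa [pow_one] at h1
  have hne : ∀ 𝔓 : S, 𝔓.1 ≠ ⊥ := fun 𝔓 h0 => by
    have h3 := hb1 𝔓
    rw [h0, Ideal.mem_bot] at h3
    exact (irr 𝔓).ne_zero (algebraMap_inj K (h3.trans (map_zero _).symm))
  have hmax : ∀ 𝔓 : S, 𝔓.1.IsMaximal := fun 𝔓 => (hpr 𝔓).isMaximal (hne 𝔓)
  obtain ⟨SD, hSD⟩ : ∃ SD : Finset S, ∀ 𝔓, 𝔓 ∈ SD ↔ D (b 𝔓).natDegree :=
    ⟨Finset.univ.filter fun 𝔓 => D (b 𝔓).natDegree, fun 𝔓 => by simp⟩
  have hinj : Function.Injective fun i : Fin SD.card => ((SD.equivFin.symm i : SD) : S) :=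
    fun i j h => SD.equivFin.symm.injective (Subtype.ext h)
  refine ⟨SD.card, fun i => Q (SD.equivFin.symm i), fun i j hij => ?_, fun i => ?_, ?_⟩
  · have hne' : ((SD.equivFin.symm i : SD) : S).1 ≠ ((SD.equivFin.symm j : SD) : S).1 :=
      fun h => hij (hinj (Subtype.ext h))
    have := hmax (SD.equivFin.symm i)
    have := hmax (SD.equivFin.symm j)
    rw [hQb, hQb, hQh, hQh]
    exact coprime_parts y s hs _ _ (hbs _) _ _ hne' (hb1 _) (hb1 _) _ _ (hh _) (hh _) (hM _)
      (hM _) _ _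
  · rw [hQb]
    exact (hSD _).1 (SD.equivFin.symm i).2
  · rw [ramSum_Model K D (fun i : Fin SD.card => ((SD.equivFin.symm i : SD) : S).1)
      (fun i j h => hinj (Subtype.ext h)) (fun i => hpr _)
      (fun i => b (SD.equivFin.symm i)) (fun i => irr _) (fun i => (Q (SD.equivFin.symm i)).e)
      (fun i => hQe _) (fun i => hin _) (fun i => hnot _)
      (fun i => (hSD _).1 (SD.equivFin.symm i).2) ?_]
    · push_cast
      refine Finset.sum_congr rfl fun i _ => ?_
      have h2 : 1 ≤ (Q (SD.equivFin.symm i)).e := by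
        have := hQe (SD.equivFin.symm i)
        omega
      rw [← hdeg, hQb, hQh, (hmon _).natDegree_pow, Nat.cast_sub h2]
      have h3 : ((Q (SD.equivFin.symm i)).e : ℝ) ≠ 0 := by
        have := hQe (SD.equivFin.symm i)
        exact Nat.cast_ne_zero.2 (by omega)
      push_cast
      field_simp
    · intro P hx hP hDP
      have hir : Irreducible (minpoly k (P.eval (algebraMap k[X] F X))) :=
        minpoly.irreducible (isIntegral_ac _)
      obtain ⟨𝔓, h𝔓⟩ : ∃ 𝔓 : S, 𝔓.1 = P.center hx :=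
        ⟨⟨P.center hx, inferInstance, _, hir, hP⟩, rfl⟩
      have hbP : algebraMap k[X] (integralClosure k[X] F) (b 𝔓) ∈ P.center hx := by
        rw [← h𝔓]
        exact hb1 𝔓
      rw [finrank_value P hx (b 𝔓) (irr 𝔓) hbP] at hDP
      refine ⟨SD.equivFin ⟨𝔓, (hSD 𝔓).2 hDP⟩, ?_⟩
      simp only [Equiv.symm_apply_apply]
      exact h𝔓

end Pool.Agent.EVC
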