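import Pool.Agent.EVC.Trans
import Pool.Agent.EVC.Model
import Pool.Agent.EVC.Glue
import Pool.Agent.RP2.Clean
import Pool.Agent.RP2.ViolInt
import Pool.Agent.RP2.LowerInt

/-!
# The height inequality for almost all points of every curve
-/

set_option autoImplicit false

open Polynomial NumberField IntermediateField Module

namespace Pool.Agent.EVC

/-- adding finitely many points -/
private theorem add_few (N δ C : ℝ) (hN : 1 ≤ N) (a T : ℝ) (ha : 0 ≤ a) (hT : 0 ≤ T)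
    (v w c : ℕ) (h : v ≤ w + c) (hw : (w : ℝ) ≤ C * Real.exp ((N - δ) * a * T)) :
    (v : ℝ) ≤ (|C| + c) * Real.exp ((N - min δ 1) * a * T) := by
  set E : ℝ := Real.exp ((N - min δ 1) * a * T) with hE
  have h0 : 0 ≤ N - min δ 1 := by
    have := min_le_right δ 1
    linarith
  have hE1 : 1 ≤ E := Real.one_le_exp (by positivity)
  have e1 : Real.exp ((N - δ) * a * T) ≤ E := by
    refine Real.exp_le_exp.2 ?_
    have := min_le_left δ 1
    exact mul_le_mul_of_nonneg_right (mul_le_mul_of_nonneg_right (by linarith) ha) hT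
  have h1 : (v : ℝ) ≤ w + c := by exact_mod_cast h
  have h2 : C * Real.exp ((N - δ) * a * T) ≤ |C| * E :=
    (mul_le_mul_of_nonneg_right (le_abs_self C) (Real.exp_pos _).le).trans
      (mul_le_mul_of_nonneg_left e1 (abs_nonneg C))
  have h3 : (c : ℝ) ≤ c * E := le_mul_of_one_le_right (Nat.cast_nonneg _) hE1
  calc (v : ℝ) ≤ |C| * E + c * E := by linarith
    _ = _ := by ring

/-- the minimal polynomial of an integral function is monic and irreducible -/
theorem minpoly_ok (K : Type) {k F : Type} [Field k] [Field F] [Algebra k[X] F] [Field K]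
    [CharZero k] [Algebra k[X] K] [IsFractionRing k[X] K] [Algebra K F] [IsScalarTower k[X] K F]
    [FiniteDimensional K F] (y : integralClosure k[X] F) :
    (minpoly k[X] y).Monic ∧ Irreducible (minpoly k[X] y) := by
  have hy : IsIntegral k[X] y := Algebra.IsIntegral.isIntegral y
  have := tf (k := k) (F := F) K
  exact ⟨minpoly.monic hy, (minpoly.prime_of_isIntegrallyClosed hy).irreducible⟩

section Core

variable (k : Type) [Field k] [NumberField k] {t : ℕ} (p : Fin t → ℕ)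
    [∀ i, Fact (p i).Prime] (hp : Function.Injective p) (g : k[X]) (hg : Squarefree g) (q : ℕ)
    (hq : q = g.natDegree ∨ q = g.natDegree + 1)
    (F : Type) [Field F] [Algebra k F] [Algebra k[X] F] [IsScalarTower k k[X] F]
    (K : Type) [Field K] [Algebra k[X] K] [IsFractionRing k[X] K] [Algebra K F]
    [IsScalarTower k[X] K F] [FiniteDimensional K F]

include hp hg hq K

private theorem q1_core (m : ℕ) (hm : 1 ≤ m) (A' : ℝ)
    (hA' : A' = 0 ∨ (0 < A' ∧ A' * HD.ex (finrank ℚ k) m < m - 1) ∨ (m = 2 ∧ A' < 2)) (A B : ℝ)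
    (hA : A < (ramSum k (algebraMap k[X] F X) fun d => d ≤ 2 * m + 1 ∨ (m = 1 ∧ d ≤ 4)) /
      (finrank K F : ℝ) + A') :
    ∃ C δ : ℝ, 0 < δ ∧ ∀ T : ℝ, 0 ≤ T →
      {P ∈ Pts k (algebraMap k[X] F X) m T | aeval (P.eval (algebraMap k[X] F X)) g ≠ 0 ∧
        P.logDiscr ≤ AA.proximity p g q (P.eval (algebraMap k[X] F X)) +
          A * AA.height (P.eval (algebraMap k[X] F X)) + B}.Finite ∧
      ({P ∈ Pts k (algebraMap k[X] F X) m T | aeval (P.eval (algebraMap k[X] F X)) g ≠ 0 ∧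
        P.logDiscr ≤ AA.proximity p g q (P.eval (algebraMap k[X] F X)) +
          A * AA.height (P.eval (algebraMap k[X] F X)) + B}.ncard : ℝ) ≤
        C * Real.exp ((m + 1 - δ) * (finrank ℚ k * m) * T) := by
  obtain ⟨y, s, hs0, hs, hdeg, hQ⟩ := exists_model (k := k) (F := F) K
  obtain ⟨l, Q, hco, hD, hsum⟩ := hQ fun d => d ≤ 2 * m + 1 ∨ (m = 1 ∧ d ≤ 4)
  obtain ⟨hmon, hirr⟩ := minpoly_ok K y
  obtain ⟨C, δ, hδ, h⟩ := RP2.q1_const k p hp g hg q hq (minpoly k[X] y) hmon hirr Q hco m hm hD A'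
    hA' A B (by rw [hsum, hdeg]; exact hA)
  refine ⟨|C| + ({P : Pt k F | algebraMap k[X] F X ∈ P.ring ∧
      P.eval (algebraMap k[X] F X) ∈ s.rootSet (AlgebraicClosure k)}.ncard : ℝ), min δ 1,
    lt_min hδ one_pos, fun T hT => ?_⟩
  obtain ⟨hWf, hWc⟩ := h T hT
  set V := {P ∈ Pts k (algebraMap k[X] F X) m T | aeval (P.eval (algebraMap k[X] F X)) g ≠ 0 ∧
    P.logDiscr ≤ AA.proximity p g q (P.eval (algebraMap k[X] F X)) +
      A * AA.height (P.eval (algebraMap k[X] F X)) + B} with hV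
  set W := {Q ∈ COV.Pts k (minpoly k[X] y) m T | aeval Q.1 g ≠ 0 ∧
    HD.logDiscr Q ≤ AA.proximity p g q Q.1 + A * AA.height Q.1 + B} with hW
  obtain ⟨f1, c1⟩ := trans_upper K y s hs0 hs W V (fun P hP => hP.1.1) (fun P hP he => ⟨⟨
    evalEval_pair P hP.1.1 y, hP.1.2.1, hP.1.2.2⟩, hP.2.1, by rw [← he]; exact hP.2.2⟩) hWf
  refine ⟨f1, ?_⟩
  exact add_few (m + 1) δ C (by linarith [(Nat.cast_nonneg m : (0 : ℝ) ≤ m)]) _ T
    (by positivity) hT _ _ _ c1 hWc

omit hp hg hq [∀ i, Fact (p i).Prime] in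
private theorem int_core (m : ℕ) (hm : 1 ≤ m) (A' : ℝ)
    (hA' : A' = 0 ∨ (0 < A' ∧ A' * HD.ex (finrank ℚ k) m < m - 1)) (A B : ℝ)
    (hA : A < (ramSum k (algebraMap k[X] F X) fun d => d < 2 * m) / (finrank K F : ℝ) + A') :
    ∃ C δ : ℝ, 0 < δ ∧ ∀ T : ℝ, 0 ≤ T →
      ({P ∈ Pts k (algebraMap k[X] F X) m T | IsIntegral ℤ (P.eval (algebraMap k[X] F X)) ∧
        P.logDiscr ≤ A * AA.height (P.eval (algebraMap k[X] F X)) + B}.ncard : ℝ) ≤
        C * Real.exp ((m - δ) * (finrank ℚ k * m) * T) := by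
  obtain ⟨y, s, hs0, hs, hdeg, hQ⟩ := exists_model (k := k) (F := F) K
  obtain ⟨l, Q, hco, hD, hsum⟩ := hQ fun d => d < 2 * m
  obtain ⟨hmon, hirr⟩ := minpoly_ok K y
  obtain ⟨C, δ, hδ, h⟩ := RP2.viol_int k (minpoly k[X] y) hmon hirr Q hco m hm hD A'
    hA' A B (by rw [hsum, hdeg]; exact hA)
  refine ⟨|C| + ({P : Pt k F | algebraMap k[X] F X ∈ P.ring ∧
      P.eval (algebraMap k[X] F X) ∈ s.rootSet (AlgebraicClosure k)}.ncard : ℝ), min δ 1,
    lt_min hδ one_pos, fun T hT => ?_⟩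
  obtain ⟨hWf, hWc⟩ := h T hT
  set V := {P ∈ Pts k (algebraMap k[X] F X) m T | IsIntegral ℤ (P.eval (algebraMap k[X] F X)) ∧
    P.logDiscr ≤ A * AA.height (P.eval (algebraMap k[X] F X)) + B} with hV
  set W := {Q ∈ COV.Pts k (minpoly k[X] y) m T | IsIntegral ℤ Q.1 ∧
    HD.logDiscr Q ≤ A * AA.height Q.1 + B} with hW
  obtain ⟨f1, c1⟩ := trans_upper K y s hs0 hs W V (fun P hP => hP.1.1) (fun P hP he => ⟨⟨
    evalEval_pair P hP.1.1 y, hP.1.2.1, hP.1.2.2⟩, hP.2.1, by rw [← he]; exact hP.2.2⟩) hWf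
  exact add_few m δ C (by exact_mod_cast hm) _ T (by positivity) hT _ _ _ c1 hWc

omit hp hg hq [∀ i, Fact (p i).Prime] in
private theorem lower_core (m : ℕ) (hm : 1 ≤ m) : ∃ c T₀ : ℝ, 0 < c ∧ ∀ T : ℝ, T₀ ≤ T →
      (Pts k (algebraMap k[X] F X) m T).Finite ∧
      c * Real.exp ((m + 1) * (finrank ℚ k * m) * T) ≤
        ((Pts k (algebraMap k[X] F X) m T).ncard : ℝ) ∧
      c * Real.exp (m * (finrank ℚ k * m) * T) ≤
        ({P ∈ Pts k (algebraMap k[X] F X) m T |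
          IsIntegral ℤ (P.eval (algebraMap k[X] F X))}.ncard : ℝ) := by
  obtain ⟨y, s, hs0, hs, hdeg, hQ⟩ := exists_model (k := k) (F := F) K
  obtain ⟨hmon, hirr⟩ := minpoly_ok K y
  have hd1 : 1 ≤ (minpoly k[X] y).natDegree := by
    rw [hdeg]
    exact finrank_pos
  obtain ⟨c₁, T₁, hc₁, h₁⟩ := COV.lower k (minpoly k[X] y) hmon hd1 m hm
  obtain ⟨c₂, T₂, hc₂, h₂⟩ := RP2.lower_int k (minpoly k[X] y) hmon hd1 m hm
  refine ⟨min c₁ c₂, max 0 (max T₁ T₂), lt_min hc₁ hc₂, fun T hT => ?_⟩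
  have hT0 : 0 ≤ T := (le_max_left _ _).trans hT
  have hT' : max T₁ T₂ ≤ T := (le_max_right _ _).trans hT
  obtain ⟨f1, g1⟩ := h₁ T ((le_max_left _ _).trans hT')
  obtain ⟨-, g2⟩ := h₂ T ((le_max_right _ _).trans hT')
  refine ⟨pts_finite K m hm T hT0, ?_, ?_⟩
  · have h3 := trans_lower K y m hm T hT0 (fun _ => True)
    have e1 : {Q ∈ COV.Pts k (minpoly k[X] y) m T | True} = COV.Pts k (minpoly k[X] y) m T :=
      Set.ext fun Q => ⟨fun h => h.1, fun h => ⟨h, trivial⟩⟩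
    have e2 : {P ∈ Pts k (algebraMap k[X] F X) m T | True} = Pts k (algebraMap k[X] F X) m T :=
      Set.ext fun Q => ⟨fun h => h.1, fun h => ⟨h, trivial⟩⟩
    rw [e1, e2] at h3
    have h4 : ((COV.Pts k (minpoly k[X] y) m T).ncard : ℝ) ≤
        (Pts k (algebraMap k[X] F X) m T).ncard := by exact_mod_cast h3
    exact ((mul_le_mul_of_nonneg_right (min_le_left _ _) (Real.exp_pos _).le).trans g1).trans h4
  · have h3 := trans_lower K y m hm T hT0 (fun z => IsIntegral ℤ z)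
    have h4 : ({Q ∈ COV.Pts k (minpoly k[X] y) m T | IsIntegral ℤ Q.1}.ncard : ℝ) ≤
        {P ∈ Pts k (algebraMap k[X] F X) m T |
          IsIntegral ℤ (P.eval (algebraMap k[X] F X))}.ncard := by exact_mod_cast h3
    exact ((mul_le_mul_of_nonneg_right (min_le_right _ _) (Real.exp_pos _).le).trans g2).trans h4

end Core

variable (k : Type) [Field k] [NumberField k] {t : ℕ} (p : Fin t → ℕ)
    [∀ i, Fact (p i).Prime] (hp : Function.Injective p) (g : k[X]) (hg : Squarefree g) (q : ℕ)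
    (hq : q = g.natDegree ∨ q = g.natDegree + 1)
    (F : Type) [Field F] [Algebra k F] (hF : IsCurve k F) {x : F} (hx : Transcendental k x)

include hp hg hq hF hx

/-- the points above the points of degree `m` -/
theorem q1_curve (m : ℕ) (hm : 1 ≤ m) (A' : ℝ)
    (hA' : A' = 0 ∨ (0 < A' ∧ A' * HD.ex (finrank ℚ k) m < m - 1) ∨ (m = 2 ∧ A' < 2)) (A B : ℝ)
    (hA : A < (ramSum k x fun d => d ≤ 2 * m + 1 ∨ (m = 1 ∧ d ≤ 4)) /
      (finrank (IntermediateField.adjoin k {x}) F : ℝ) + A') :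
    ∃ C δ : ℝ, 0 < δ ∧ ∀ T : ℝ, 0 ≤ T →
      {P ∈ Pts k x m T | aeval (P.eval x) g ≠ 0 ∧ P.logDiscr ≤
        AA.proximity p g q (P.eval x) + A * AA.height (P.eval x) + B}.Finite ∧
      ({P ∈ Pts k x m T | aeval (P.eval x) g ≠ 0 ∧ P.logDiscr ≤
        AA.proximity p g q (P.eval x) + A * AA.height (P.eval x) + B}.ncard : ℝ) ≤
        C * Real.exp ((m + 1 - δ) * (finrank ℚ k * m) * T) := by
  have h0 := fin_adjoin hF hx
  obtain ⟨_, _, _, _, _, hX⟩ := exists_setting x hx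
  have h1 := q1_core k p hp g hg q hq F (IntermediateField.adjoin k {x}) m hm A' hA' A B
    (by rwa [hX])
  rwa [hX] at h1

omit hp hg hq [∀ i, Fact (p i).Prime] in
/-- the points above algebraic integers of degree `m` -/
theorem int_curve (m : ℕ) (hm : 1 ≤ m) (A' : ℝ)
    (hA' : A' = 0 ∨ (0 < A' ∧ A' * HD.ex (finrank ℚ k) m < m - 1)) (A B : ℝ)
    (hA : A < (ramSum k x fun d => d < 2 * m) /
      (finrank (IntermediateField.adjoin k {x}) F : ℝ) + A') :
    ∃ C δ : ℝ, 0 < δ ∧ ∀ T : ℝ, 0 ≤ T →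
      ({P ∈ Pts k x m T | IsIntegral ℤ (P.eval x) ∧ P.logDiscr ≤
        A * AA.height (P.eval x) + B}.ncard : ℝ) ≤
        C * Real.exp ((m - δ) * (finrank ℚ k * m) * T) := by
  have h0 := fin_adjoin hF hx
  obtain ⟨_, _, _, _, _, hX⟩ := exists_setting x hx
  have h1 := int_core k F (IntermediateField.adjoin k {x}) m hm A' hA' A B (by rwa [hX])
  rwa [hX] at h1

omit hp hg hq [∀ i, Fact (p i).Prime] in
/-- the number of the points above the points of degree `m` -/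
theorem lower_curve (m : ℕ) (hm : 1 ≤ m) : ∃ c T₀ : ℝ, 0 < c ∧ ∀ T : ℝ, T₀ ≤ T →
      (Pts k x m T).Finite ∧
      c * Real.exp ((m + 1) * (finrank ℚ k * m) * T) ≤ ((Pts k x m T).ncard : ℝ) ∧
      c * Real.exp (m * (finrank ℚ k * m) * T) ≤
        ({P ∈ Pts k x m T | IsIntegral ℤ (P.eval x)}.ncard : ℝ) := by
  have h0 := fin_adjoin hF hx
  obtain ⟨_, _, _, _, _, hX⟩ := exists_setting x hx
  have h1 := lower_core k F (IntermediateField.adjoin k {x}) m hm
  rwa [hX] at h1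

end Pool.Agent.EVC
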