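import Pool.Agent.EVC.LocY

/-!
# Simultaneous local generators (package EVC 8)
-/

set_option autoImplicit false

open Polynomial NumberField IntermediateField Module

namespace Pool.Agent.EVC

private theorem crt_aeval_sub {k R : Type} [Field k] [CommRing R] [Algebra k R] (I : Ideal R)
    (y z : R) (h : y - z ∈ I) (g : k[X]) : aeval y g - aeval z g ∈ I := by
  have h1 : Ideal.Quotient.mk I (aeval y g) = Ideal.Quotient.mk I (aeval z g) := by
    have h2 : Ideal.Quotient.mk I y = Ideal.Quotient.mk I z := Ideal.Quotient.eq.2 h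
    have h3 : ∀ w : R, Ideal.Quotient.mk I (aeval w g) =
        eval₂ ((Ideal.Quotient.mk I).comp (algebraMap k R)) (Ideal.Quotient.mk I w) g := fun w => by
      rw [aeval_def, hom_eval₂]
    rw [h3, h3, h2]
  exact Ideal.Quotient.eq.1 h1

/-- Let `R` be a Dedekind domain which is an algebra over the field `k` of characteristic `0`, and
`B` a finite set of nonzero prime ideals with `R / 𝔓` finite over `k`. There is `y ∈ R` as in
`exists_local` for all `𝔓` in `B`, with different polynomials `q`.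

PROOF. By induction on `B` (`Finset.induction_on`) choose with `exists_local` elements `y_𝔓` and
polynomials `q_𝔓`, `𝔓 ∈ B`, which are pairwise different (take for `Z` the set of the polynomials
already chosen); `𝔓 ≠ ⊥` is prime, so maximal (`Ideal.IsPrime.isMaximal`) and `𝔓 ^ 2 < 𝔓`
(`Ideal.pow_lt_self` or `Ideal.exists_mem_pow_notMem_pow_succ`), which gives `π`. By the Chinese
remainder theorem (`IsDedekindDomain.exists_forall_sub_mem_ideal` with the exponents `2`; the ideals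
of `B` are distinct primes) there is `y ∈ R` with `y - y_𝔓 ∈ 𝔓 ^ 2` for all `𝔓 ∈ B`. Then
`g(y) - g(y_𝔓) ∈ 𝔓 ^ 2` for all `g ∈ k[X]` (`Polynomial.sub_dvd_eval_sub` or `aeval` and the
quotient map), so all the properties carry over from `y_𝔓` to `y`. -/
theorem exists_y {k R : Type} [Field k] [CharZero k] [CommRing R] [IsDedekindDomain R]
    [Algebra k R] (B : Finset (Ideal R))
    (hB : ∀ 𝔓 ∈ B, 𝔓.IsPrime ∧ 𝔓 ≠ ⊥ ∧ FiniteDimensional k (R ⧸ 𝔓)) :
    ∃ (y : R) (q : Ideal R → k[X]), (∀ 𝔓 ∈ B, (q 𝔓).Monic ∧ Irreducible (q 𝔓) ∧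
      aeval y (q 𝔓) ∈ 𝔓 ∧ aeval y (q 𝔓) ∉ 𝔓 ^ 2 ∧ ∀ r : R, ∃ g : k[X], r - aeval y g ∈ 𝔓) ∧
      ∀ 𝔓 ∈ B, ∀ 𝔓' ∈ B, 𝔓 ≠ 𝔓' → q 𝔓 ≠ q 𝔓' := by
  classical
  -- local choices
  have key : ∃ (z : Ideal R → R) (q : Ideal R → k[X]), (∀ 𝔓 ∈ B, (q 𝔓).Monic ∧ Irreducible (q 𝔓) ∧
      aeval (z 𝔓) (q 𝔓) ∈ 𝔓 ∧ aeval (z 𝔓) (q 𝔓) ∉ 𝔓 ^ 2 ∧
        ∀ r : R, ∃ g : k[X], r - aeval (z 𝔓) g ∈ 𝔓) ∧
      ∀ 𝔓 ∈ B, ∀ 𝔓' ∈ B, 𝔓 ≠ 𝔓' → q 𝔓 ≠ q 𝔓' := by
    induction B using Finset.induction_on with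
    | empty => exact ⟨fun _ => 0, fun _ => 0, by simp, by simp⟩
    | insert 𝔔 B h𝔔 ih =>
      obtain ⟨z, q, h1, h2⟩ := ih fun 𝔓 h => hB 𝔓 (Finset.mem_insert_of_mem h)
      obtain ⟨hp, h0, hfin⟩ := hB 𝔔 (Finset.mem_insert_self _ _)
      have hmax : 𝔔.IsMaximal := hp.isMaximal h0
      have hπ : ∃ π ∈ 𝔔, π ∉ 𝔔 ^ 2 := by
        obtain ⟨π, h3, h4⟩ := SetLike.exists_of_lt (Ideal.pow_lt_self 𝔔 h0 hp.ne_top 2 le_rfl)
        exact ⟨π, h3, h4⟩
      obtain ⟨y, q₀, g1, g2, g3, g4, g5, g6⟩ := exists_local 𝔔 hfin hπ (B.image q)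
      refine ⟨Function.update z 𝔔 y, Function.update q 𝔔 q₀, ?_, ?_⟩
      · intro 𝔓 h𝔓
        by_cases h : 𝔓 = 𝔔
        · subst h
          rw [Function.update_self, Function.update_self]
          exact ⟨g2, g3, g4, g5, g6⟩
        · rw [Function.update_of_ne h, Function.update_of_ne h]
          exact h1 𝔓 ((Finset.mem_insert.1 h𝔓).resolve_left h)
      · intro 𝔓 h𝔓 𝔓' h𝔓' hne
        by_cases h : 𝔓 = 𝔔
        · subst h
          rw [Function.update_self, Function.update_of_ne (Ne.symm hne)]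
          rintro rfl
          exact g1 (Finset.mem_image_of_mem q
            ((Finset.mem_insert.1 h𝔓').resolve_left (Ne.symm hne)))
        · by_cases h' : 𝔓' = 𝔔
          · subst h'
            rw [Function.update_self, Function.update_of_ne h]
            intro h3
            exact g1 (h3 ▸ Finset.mem_image_of_mem q ((Finset.mem_insert.1 h𝔓).resolve_left h))
          · rw [Function.update_of_ne h, Function.update_of_ne h']
            exact h2 𝔓 ((Finset.mem_insert.1 h𝔓).resolve_left h) 𝔓'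
              ((Finset.mem_insert.1 h𝔓').resolve_left h') hne
  obtain ⟨z, q, h1, h2⟩ := key
  obtain ⟨y, hy⟩ := IsDedekindDomain.exists_forall_sub_mem_ideal (s := B) (fun 𝔓 => 𝔓)
    (fun _ => 2) (fun 𝔓 h𝔓 => by
      have := hB 𝔓 h𝔓
      exact Ideal.prime_of_isPrime this.2.1 this.1) (fun 𝔓 _ 𝔓' _ h => h) (fun 𝔓 => z 𝔓)
  refine ⟨y, q, fun 𝔓 h𝔓 => ?_, h2⟩
  obtain ⟨g1, g2, g3, g4, g5⟩ := h1 𝔓 h𝔓
  have h5 : y - z 𝔓 ∈ 𝔓 ^ 2 := hy 𝔓 h𝔓
  have h6 : ∀ g : k[X], aeval y g - aeval (z 𝔓) g ∈ 𝔓 ^ 2 := crt_aeval_sub (𝔓 ^ 2) y (z 𝔓) h5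
  have h7 : 𝔓 ^ 2 ≤ 𝔓 := Ideal.pow_le_self two_ne_zero
  refine ⟨g1, g2, ?_, ?_, fun r => ?_⟩
  · have := add_mem (h7 (h6 (q 𝔓))) g3
    rwa [sub_add_cancel] at this
  · intro h8
    apply g4
    have := sub_mem h8 (h6 (q 𝔓))
    rwa [sub_sub_cancel] at this
  · obtain ⟨g, hg⟩ := g5 r
    refine ⟨g, ?_⟩
    have := sub_mem hg (h7 (h6 g))
    rwa [sub_sub, add_sub_cancel] at this

end Pool.Agent.EVC
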