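import Pool.Agent.COV.Tower

/-!
# Geometric points of a curve given by its function field

A complete nonsingular curve `C` over the field `k` is given by its function field `F`
(`IsCurve k F`). The points of `C` with values in the algebraic closure of `k` are given by
`Pt k F`: the local ring of the point is a valuation ring of `F` which contains `k`, and the value
of functions is a homomorphism of this ring to the algebraic closure, with kernel the maximal
ideal.
-/

set_option autoImplicit false

open Polynomial NumberField IntermediateField Module

namespace Pool.Agent.EVC

/-- `F` is the function field of a curve over `k`: it is finite over `k(t)` for some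
transcendental `t`. -/
def IsCurve (k F : Type) [Field k] [Field F] [Algebra k F] : Prop :=
  ∃ t : F, Transcendental k t ∧ FiniteDimensional (IntermediateField.adjoin k {t}) F

/-- The points of the curve with function field `F` over `k` with values in the algebraic closure
of `k`. -/
structure Pt (k F : Type) [Field k] [Field F] [Algebra k F] where
  /-- the local ring of the point -/
  ring : ValuationSubring F
  const : ∀ c : k, algebraMap k F c ∈ ring
  /-- the value of the functions -/
  val : ring →+* AlgebraicClosure k
  val_const : ∀ c : k, val ⟨algebraMap k F c, const c⟩ = algebraMap k (AlgebraicClosure k) c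
  ker : RingHom.ker val = IsLocalRing.maximalIdeal ring

section Points

variable {k F : Type} [Field k] [Field F] [Algebra k F]

open Classical in
/-- The value `f(P)` of the function `f` at the point `P`; it is `0` if `P` is a pole of `f`. -/
noncomputable def Pt.eval (P : Pt k F) (f : F) : AlgebraicClosure k :=
  if h : f ∈ P.ring then P.val ⟨f, h⟩ else 0

/-- The residue field `k(P)`, the field of the values at `P`. -/
noncomputable def Pt.field (P : Pt k F) : IntermediateField k (AlgebraicClosure k) :=
  IntermediateField.adjoin k (Set.range P.val)

open Classical in
/-- The ramification index of `x` at `P`: the order at `P` of `b(x)`, where `b` is the minimal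
polynomial of `x(P)` over `k`, or of `1 / x`, if `P` is a pole of `x`. -/
noncomputable def Pt.ram (P : Pt k F) (x : F) : ℕ :=
  sSup {e : ℕ | ∃ z ∈ IsLocalRing.maximalIdeal P.ring ^ e,
    (z : F) = if x ∈ P.ring then aeval x (minpoly k (P.eval x)) else x⁻¹}

/-- The sum of `e_P - 1` over the points `P` above the points of `k̄` whose degree over `k` has the
property `D`. -/
noncomputable def ramSum (k : Type) {F : Type} [Field k] [Field F] [Algebra k F] (x : F)
    (D : ℕ → Prop) : ℕ :=
  ∑ᶠ P ∈ {P : Pt k F | x ∈ P.ring ∧ D (finrank k (IntermediateField.adjoin k {P.eval x}))},
    (P.ram x - 1)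

open Classical in
/-- The degree `2 g - 2` of the canonical divisor: the degree of the divisor of `dx`. The order of
`dx` at `P` is `e_P - 1`, and `-(e_P + 1)` if `P` is a pole of `x`. -/
noncomputable def canDeg (k : Type) {F : Type} [Field k] [Field F] [Algebra k F] (x : F) : ℤ :=
  ∑ᶠ P : Pt k F, if x ∈ P.ring then (P.ram x : ℤ) - 1 else -((P.ram x : ℤ) + 1)

end Points

section Heights

variable {k F : Type} [Field k] [NumberField k] [Field F] [Algebra k F]

open Classical in
/-- The normalised logarithmic discriminant `d(P)` of the residue field `k(P)`, a finite extension
of `k`. -/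
noncomputable def Pt.logDiscr (P : Pt k F) : ℝ :=
  if _h : FiniteDimensional k P.field then
    haveI : NumberField P.field := NumberField.of_module_finite k P.field
    SST.logDisc P.field
  else 0

/-- The points `P` above the points of `k̄` of degree `m` over `k`, with `h(x(P)) ≤ T`. -/
def Pts (k : Type) {F : Type} [Field k] [NumberField k] [Field F] [Algebra k F] (x : F) (m : ℕ)
    (T : ℝ) : Set (Pt k F) :=
  {P | x ∈ P.ring ∧ finrank k (IntermediateField.adjoin k {P.eval x}) = m ∧
    AA.height (P.eval x) ≤ T}

/-- The points `P` with `x(P) ≠ ∞` and `[k(P) : k] ≤ ν`, with `h(x(P)) ≤ T`. -/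
def PtsLe (k : Type) {F : Type} [Field k] [NumberField k] [Field F] [Algebra k F] (x : F) (ν : ℕ)
    (T : ℝ) : Set (Pt k F) :=
  {P | x ∈ P.ring ∧ finrank k P.field ≤ ν ∧ AA.height (P.eval x) ≤ T}

end Heights

end Pool.Agent.EVC
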