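import Pool.Agent.EVC.Frac

/-!
# Geometric points and homomorphisms of the ring of integral functions
-/

set_option autoImplicit false

open Polynomial NumberField IntermediateField Module

namespace Pool.Agent.EVC

variable {k F : Type} [Field k] [Field F] [Algebra k F] [Algebra k[X] F] [IsScalarTower k k[X] F]
variable (K : Type) [CharZero k] [Field K] [Algebra k[X] K] [IsFractionRing k[X] K] [Algebra K F]
  [IsScalarTower k[X] K F] [FiniteDimensional K F]

theorem Pt.ext' {k F : Type} [Field k] [Field F] [Algebra k F] {P P' : Pt k F}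
    (h : P.ring = P'.ring) (h' : ∀ f ∈ P.ring, P.eval f = P'.eval f) : P = P' := by
  obtain ⟨A, c, v, vc, ker⟩ := P
  obtain ⟨A', c', v', vc', ker'⟩ := P'
  dsimp only at h
  subst h
  have : v = v' := by
    apply RingHom.ext
    intro z
    have h1 := h' z z.2
    rw [Pt.eval_of_mem _ z.2, Pt.eval_of_mem _ (show (z : F) ∈ _ from z.2)] at h1
    exact h1
  subst this
  rfl

include K in
/-- a point is determined by the values of the integral functions -/
theorem ext_int {P P' : Pt k F} (hx : algebraMap k[X] F X ∈ P.ring)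
    (hx' : algebraMap k[X] F X ∈ P'.ring)
    (h : ∀ r : integralClosure k[X] F, P.eval (r : F) = P'.eval (r : F)) : P = P' := by
  have hle : ∀ f ∈ P.ring, f ∈ P'.ring ∧ P.eval f = P'.eval f := by
    intro f hf
    obtain ⟨r, s, hs, hfs⟩ := exists_frac K P hx hf
    have hs' : P'.eval (s : F) ≠ 0 := by rwa [← h]
    have hs0 := P.ne_zero_of_eval hs
    have h1 : f = (r : F) * (s : F)⁻¹ := by rw [← hfs, mul_assoc, mul_inv_cancel₀ hs0, mul_one]
    rw [h1]
    refine ⟨mul_mem (P'.int_mem hx' r) (P'.inv_mem (P'.int_mem hx' s) hs'), ?_⟩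
    rw [P.eval_mul (P.int_mem hx r) (P.inv_mem (P.int_mem hx s) hs),
      P'.eval_mul (P'.int_mem hx' r) (P'.inv_mem (P'.int_mem hx' s) hs'),
      P.eval_inv (P.int_mem hx s) hs, P'.eval_inv (P'.int_mem hx' s) hs', h r, h s]
  have hge : ∀ f ∈ P'.ring, f ∈ P.ring := by
    intro f hf
    obtain ⟨r, s, hs, hfs⟩ := exists_frac K P' hx' hf
    have hs' : P.eval (s : F) ≠ 0 := by rwa [h]
    have hs0 := P'.ne_zero_of_eval hs
    have h1 : f = (r : F) * (s : F)⁻¹ := by rw [← hfs, mul_assoc, mul_inv_cancel₀ hs0, mul_one]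
    rw [h1]
    exact mul_mem (P.int_mem hx r) (P.inv_mem (P.int_mem hx s) hs')
  refine Pt.ext' (SetLike.ext fun f => ⟨fun hf => (hle f hf).1, hge f⟩) fun f hf => (hle f hf).2

open IsDedekindDomain

omit [Algebra k[X] F] [IsScalarTower k k[X] F] [CharZero k] in
/-- the point given by a homomorphism of a Dedekind ring to the algebraic closure -/
theorem exists_pt_aux {R : Type} [CommRing R] [IsDedekindDomain R] [Algebra R F]
    [IsFractionRing R F] [Algebra k R] [IsScalarTower k R F] (φ : R →ₐ[k] AlgebraicClosure k)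
    (hne : RingHom.ker φ ≠ ⊥) :
    ∃ P : Pt k F, ∀ r : R, algebraMap R F r ∈ P.ring ∧ P.eval (algebraMap R F r) = φ r := by
  have hprime : (RingHom.ker φ).IsPrime := RingHom.ker_isPrime _
  obtain ⟨H, hH⟩ : ∃ H : HeightOneSpectrum R, H.asIdeal = RingHom.ker φ :=
    ⟨⟨RingHom.ker φ, hprime, hne⟩, rfl⟩
  have hmem : ∀ r : R, r ∈ H.asIdeal ↔ φ r = 0 := fun r => by rw [hH, RingHom.mem_ker]
  have hunit : ∀ s : H.asIdeal.primeCompl,
      IsUnit ((φ : R →+* AlgebraicClosure k) s) := fun s =>
    isUnit_iff_ne_zero.2 fun h => s.2 ((hmem s).2 h)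
  have hcoe : ∀ r : R, ((algebraMap R (HeightOneSpectrum.valuationSubringAtPrime F H) r :
      HeightOneSpectrum.valuationSubringAtPrime F H) : F) = algebraMap R F r := fun r => rfl
  have hc : ∀ c : k, algebraMap k F c ∈ HeightOneSpectrum.valuationSubringAtPrime F H := fun c => by
    rw [IsScalarTower.algebraMap_apply k R F, ← hcoe]
    exact Subtype.prop _
  have hv : ∀ r : R, (IsLocalization.lift hunit :
      HeightOneSpectrum.valuationSubringAtPrime F H →+* AlgebraicClosure k)
        (algebraMap R _ r) = φ r := fun r => IsLocalization.lift_eq hunit r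
  have hker : RingHom.ker (IsLocalization.lift hunit :
      HeightOneSpectrum.valuationSubringAtPrime F H →+* AlgebraicClosure k) =
      IsLocalRing.maximalIdeal (HeightOneSpectrum.valuationSubringAtPrime F H) := by
    ext z
    obtain ⟨r, s, rfl⟩ := IsLocalization.exists_mk'_eq H.asIdeal.primeCompl z
    rw [RingHom.mem_ker, IsLocalization.lift_mk'_spec, mul_zero]
    rw [IsLocalization.AtPrime.mk'_mem_maximal_iff _ H.asIdeal r s, hmem]
    rfl
  refine ⟨⟨HeightOneSpectrum.valuationSubringAtPrime F H, hc, IsLocalization.lift hunit,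
    fun c => ?_, hker⟩, fun r => ?_⟩
  · rw [← φ.commutes, ← hv]
    congr 1
    apply Subtype.ext
    change algebraMap k F c = algebraMap R F (algebraMap k R c)
    rw [IsScalarTower.algebraMap_apply k R F]
  · have h1 : algebraMap R F r ∈ HeightOneSpectrum.valuationSubringAtPrime F H := by
      rw [← hcoe]
      exact Subtype.prop _
    refine ⟨h1, ?_⟩
    rw [Pt.eval_of_mem _ h1, ← hv]
    rfl

include K in
/-- every homomorphism of the ring of the integral functions to the algebraic closure is given by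
a point -/
theorem exists_pt (φ : integralClosure k[X] F →ₐ[k] AlgebraicClosure k) :
    ∃ (P : Pt k F) (hx : algebraMap k[X] F X ∈ P.ring), P.ihom hx = φ := by
  obtain ⟨_, _, _⟩ := ded (k := k) (F := F) K
  have hne : RingHom.ker φ ≠ ⊥ := by
    obtain ⟨g, hg, hg0⟩ : IsAlgebraic k (φ (algebraMap k[X] _ X)) :=
      Algebra.IsAlgebraic.isAlgebraic _
    intro h
    have h1 : algebraMap k[X] (integralClosure k[X] F) g ∈ RingHom.ker φ := by
      have h3 : φ (algebraMap k[X] (integralClosure k[X] F) g) =
          aeval (φ (algebraMap k[X] (integralClosure k[X] F) X)) g := by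
        rw [aeval_algHom_apply, aeval_algebraMap_apply, aeval_X_left_apply]
      rw [RingHom.mem_ker, h3, hg0]
    rw [h, Ideal.mem_bot] at h1
    have h2 : algebraMap k[X] F g = 0 := congrArg Subtype.val h1
    rw [IsScalarTower.algebraMap_apply k[X] K F, map_eq_zero] at h2
    exact hg ((map_eq_zero_iff _ (IsFractionRing.injective k[X] K)).1 h2)
  obtain ⟨P, hP⟩ := exists_pt_aux (F := F) φ hne
  exact ⟨P, (hP (algebraMap k[X] _ X)).1, AlgHom.ext fun r => (hP r).2⟩

end Pool.Agent.EVC
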