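import Pool.Agent.EVC.Ext

/-!
# The residue field of a geometric point (package EVC 14)
-/

set_option autoImplicit false

open Polynomial NumberField IntermediateField Module

namespace Pool.Agent.EVC

variable {k F : Type} [Field k] [Field F] [Algebra k F] [Algebra k[X] F] [IsScalarTower k k[X] F]
variable (K : Type) [CharZero k] [Field K] [Algebra k[X] K] [IsFractionRing k[X] K] [Algebra K F]
  [IsScalarTower k[X] K F] [FiniteDimensional K F]

include K in
/-- The residue field `k(P)` is the set of the values of the integral functions.

PROOF. Let `R` be the integral closure of `k[X]` in `F` and `φ = P.ihom hx`. Every element of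
`AlgebraicClosure k` is algebraic over `k`, so the subalgebra `φ.range` is a field: it is closed
under inverses. By `exists_frac K` every `z ∈ P.ring` satisfies `z s = r` with `r, s ∈ R`,
`φ s ≠ 0`, so `P.val z = φ r / φ s` is in this field. As `P.field` is generated by the values
`P.val z` it is contained in it. The other inclusion is clear. -/
theorem mem_field (P : Pt k F) (hx : algebraMap k[X] F X ∈ P.ring) (z : AlgebraicClosure k) :
    z ∈ P.field ↔ ∃ r : integralClosure k[X] F, P.eval (r : F) = z := by
  have hinv : ∀ y ∈ (P.ihom hx).range, y⁻¹ ∈ (P.ihom hx).range := by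
    intro y hy
    exact (P.ihom hx).range.inv_mem_of_algebraic (x := ⟨y, hy⟩)
      (Algebra.IsAlgebraic.isAlgebraic (R := k) y)
  have hle : P.field ≤ (P.ihom hx).range.toIntermediateField hinv := by
    rw [Pt.field, IntermediateField.adjoin_le_iff]
    rintro _ ⟨w, rfl⟩
    obtain ⟨r, s, hs, h⟩ := exists_frac K P hx w.2
    have h1 : P.val w * P.eval (s : F) = P.eval (r : F) := by
      rw [← h, P.eval_mul w.2 (P.int_mem hx s), P.eval_coe]
    have h2 : P.val w = P.ihom hx r * (P.ihom hx s)⁻¹ := by
      rw [P.ihom_apply, P.ihom_apply, ← h1, mul_assoc, mul_inv_cancel₀ hs, mul_one]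
    change P.val w ∈ (P.ihom hx).range
    rw [h2]
    exact mul_mem ⟨r, rfl⟩ (hinv _ ⟨s, rfl⟩)
  constructor
  · intro hz
    obtain ⟨r, hr⟩ := hle hz
    exact ⟨r, hr⟩
  · rintro ⟨r, rfl⟩
    rw [P.eval_of_mem (P.int_mem hx r)]
    exact IntermediateField.subset_adjoin k _ ⟨_, rfl⟩

include K in
/-- The degree of the residue field.

PROOF. Let `R` be the integral closure of `k[X]` in `F`; it is a free `k[X]`-module of rank
`n = finrank K F`, let `ω : Fin n → R` be a basis. Let `L = k(x(P))`,
`x(P) = P.eval (algebraMap k[X] F X)`, a finite extension of `k`. Let `V` be the `L`-subspace of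
`AlgebraicClosure k` spanned by the `n` elements `P.eval (ω i)`; so `finrank L V ≤ n` and `V` is
finite over `k` of the dimension `[L : k] · finrank L V`. For `r = ∑ g_i ω_i ∈ R` the value is
`∑ g_i(x(P)) ω_i(P) ∈ V` (`Pt.ihom_algebraMap`), so by `mem_field` the field `P.field` is
contained in `V`. -/
theorem finrank_field_le (P : Pt k F) (hx : algebraMap k[X] F X ∈ P.ring) :
    FiniteDimensional k P.field ∧ finrank k P.field ≤
      finrank K F * finrank k (IntermediateField.adjoin k {P.eval (algebraMap k[X] F X)}) := by
  obtain ⟨_, _, _⟩ := ded (k := k) (F := F) K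
  have h3 : CharZero K := by
    have h4 : CharZero k[X] := inferInstance
    exact charZero_of_injective_algebraMap (IsFractionRing.injective k[X] K)
  have htf : Module.IsTorsionFree k[X] (integralClosure k[X] F) := tf K
  have htf' : Module.IsTorsionFree k[X] F :=
    Module.isTorsionFree_iff_algebraMap_injective.2 (algebraMap_inj_field K)
  have hfree : Module.Free k[X] (integralClosure k[X] F) :=
    IsIntegralClosure.module_free k[X] K F (integralClosure k[X] F)
  have hrank : finrank k[X] (integralClosure k[X] F) = finrank K F :=
    IsIntegralClosure.rank k[X] K F (integralClosure k[X] F)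
  obtain ⟨c, hc⟩ : ∃ c, c = P.eval (algebraMap k[X] F X) := ⟨_, rfl⟩
  rw [← hc, ← hrank]
  let ω := Module.finBasis k[X] (integralClosure k[X] F)
  have hci : IsIntegral k c := (Algebra.IsAlgebraic.isAlgebraic (R := k) c).isIntegral
  have : FiniteDimensional k (IntermediateField.adjoin k {c}) :=
    IntermediateField.adjoin.finiteDimensional hci
  let V : Submodule (IntermediateField.adjoin k {c}) (AlgebraicClosure k) :=
    Submodule.span _ (Set.range fun i => P.ihom hx (ω i))
  have hVfin : FiniteDimensional (IntermediateField.adjoin k {c}) V :=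
    FiniteDimensional.span_of_finite _ (Set.finite_range _)
  have hVle : finrank (IntermediateField.adjoin k {c}) V ≤
      finrank k[X] (integralClosure k[X] F) := by
    have := finrank_range_le_card (R := IntermediateField.adjoin k {c})
      (fun i => P.ihom hx (ω i))
    rwa [Fintype.card_fin] at this
  have : FiniteDimensional k V := FiniteDimensional.trans k (IntermediateField.adjoin k {c}) V
  have hmem : ∀ z ∈ P.field, z ∈ V := by
    intro z hz
    obtain ⟨r, rfl⟩ := (mem_field K P hx z).1 hz
    rw [← P.ihom_apply hx, ← ω.sum_repr r, map_sum]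
    refine Submodule.sum_mem _ fun i _ => ?_
    have h5 : P.ihom hx (ω.repr r i • ω i) =
        (aeval (AdjoinSimple.gen k c) (ω.repr r i) : IntermediateField.adjoin k {c}) •
          P.ihom hx (ω i) := by
      rw [Algebra.smul_def, map_mul, P.ihom_algebraMap, Algebra.smul_def,
        ← aeval_algebraMap_apply, AdjoinSimple.algebraMap_gen, hc]
    rw [h5]
    exact Submodule.smul_mem _ _ (Submodule.subset_span ⟨i, rfl⟩)
  let f : P.field →ₗ[k] V :=
    { toFun := fun z => ⟨z, hmem z z.2⟩
      map_add' := fun _ _ => rfl
      map_smul' := fun _ _ => rfl }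
  have hf : Function.Injective f := fun a b hab => by
    have h6 : (a : AlgebraicClosure k) = b := congrArg (fun v : V => (v : AlgebraicClosure k)) hab
    exact Subtype.ext h6
  refine ⟨FiniteDimensional.of_injective f hf, ?_⟩
  refine (LinearMap.finrank_le_finrank_of_injective hf).trans ?_
  rw [← Module.finrank_mul_finrank k (IntermediateField.adjoin k {c}) V, mul_comm]
  exact Nat.mul_le_mul_right _ hVle

end Pool.Agent.EVC
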