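import Pool.Agent.EVC.Basic

/-!
# The local ring of a geometric point
-/

set_option autoImplicit false

open Polynomial NumberField IntermediateField Module

namespace Pool.Agent.EVC

variable {k F : Type} [Field k] [Field F] [Algebra k F] [Algebra k[X] F] [IsScalarTower k k[X] F]
variable (K : Type) [CharZero k] [Field K] [Algebra k[X] K] [IsFractionRing k[X] K] [Algebra K F]
  [IsScalarTower k[X] K F] [FiniteDimensional K F]

open IsDedekindDomain

include K in
omit [CharZero k] [FiniteDimensional K F] in
/-- the local ring of a point is the valuation ring of its center -/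
theorem exists_val (P : Pt k F) (hx : algebraMap k[X] F X ∈ P.ring)
    [IsDedekindDomain (integralClosure k[X] F)] [IsFractionRing (integralClosure k[X] F) F] :
    ∃ H : HeightOneSpectrum (integralClosure k[X] F), H.asIdeal = P.center hx ∧
      HeightOneSpectrum.valuationSubringAtPrime F H = P.ring ∧
      (∀ f, f ∈ P.ring ↔ H.valuation F f ≤ 1) ∧
      ∀ z : P.ring, z ∈ IsLocalRing.maximalIdeal P.ring ↔ H.valuation F (z : F) < 1 := by
  set H : HeightOneSpectrum (integralClosure k[X] F) :=
    ⟨P.center hx, inferInstance, P.center_ne_bot K hx⟩ with hH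
  have h1 : HeightOneSpectrum.valuationSubringAtPrime F H = P.ring := by
    apply ValuationSubring.eq_of_le_of_ne_top _ _ (P.ne_top (transcendental K))
    rintro x ⟨a, s, hs, rfl⟩
    exact mul_mem (P.int_mem hx a) (P.inv_mem (P.int_mem hx s) hs)
  have h2 : ∀ f, f ∈ P.ring ↔ H.valuation F f ≤ 1 := by
    intro f
    rw [← h1, HeightOneSpectrum.valuationSubringAtPrime_eq_valuationSubring,
      Valuation.mem_valuationSubring_iff]
  refine ⟨H, rfl, h1, h2, fun z => ?_⟩
  rw [← ValuationSubring.coe_mem_nonunits_iff, ValuationSubring.mem_nonunits_iff_or, h2]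
  by_cases hf : (z : F) = 0
  · simp [hf]
  · have h3 : H.valuation F (z : F) ≠ 0 := (Valuation.ne_zero_iff _).2 hf
    rw [map_inv₀, not_le, or_iff_right hf, one_lt_inv₀ (zero_lt_iff.2 h3)]

include K in
/-- the functions which are regular at `P` are the quotients of functions which are integral over
`k[x]`, with denominators which do not vanish at `P` -/
theorem exists_frac (P : Pt k F) (hx : algebraMap k[X] F X ∈ P.ring) {f : F} (hf : f ∈ P.ring) :
    ∃ r s : integralClosure k[X] F, P.eval (s : F) ≠ 0 ∧ f * (s : F) = (r : F) := by
  obtain ⟨_, _, _⟩ := ded (k := k) (F := F) K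
  obtain ⟨H, hH, h1, h2, h3⟩ := exists_val K P hx
  obtain ⟨n, d, h4⟩ := H.exists_primeCompl_mul_eq_of_integer f ((h2 f).1 hf)
  refine ⟨n, d, fun h5 => d.2 ?_, h4⟩
  have h6 : (d : integralClosure k[X] F) ∈ P.center hx := h5
  exact hH.ge h6

include K in
/-- the powers of the maximal ideal of the local ring of a point -/
theorem mem_pow (P : Pt k F) (hx : algebraMap k[X] F X ∈ P.ring) (r : integralClosure k[X] F)
    (e : ℕ) : (∃ z ∈ IsLocalRing.maximalIdeal P.ring ^ e, (z : F) = (r : F)) ↔
      r ∈ P.center hx ^ e := by
  obtain ⟨_, _, _⟩ := ded (k := k) (F := F) K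
  obtain ⟨H, hH, h1, h2, h3⟩ := exists_val K P hx
  constructor
  · rintro ⟨z, hz, hzr⟩
    have h4 : ∀ (e : ℕ) (z : P.ring), z ∈ IsLocalRing.maximalIdeal P.ring ^ e →
        H.valuation F (z : F) ≤ WithZero.exp (-(e : ℤ)) := by
      intro e
      induction e with
      | zero =>
        intro z _
        have := (h2 z).1 z.2
        simpa using this
      | succ e ih =>
        intro z hz
        rw [pow_succ] at hz
        induction hz using Submodule.mul_induction_on' with
        | mem_mul_mem a ha b hb =>
          have h5 := ih a ha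
          have h6 : H.valuation F (b : F) ≤ WithZero.exp (-1 : ℤ) := by
            have h7 := (h3 b).1 hb
            by_cases h0 : H.valuation F (b : F) = 0
            · rw [h0]
              exact zero_le
            · apply WithZero.le_exp_of_log_le
              have h1 : WithZero.log (H.valuation F (b : F)) < 0 := by
                rw [WithZero.log_lt_iff_lt_exp h0, WithZero.exp_zero]
                exact h7
              omega
          have h8 : H.valuation F ((a * b : P.ring) : F) =
              H.valuation F (a : F) * H.valuation F (b : F) := map_mul _ _ _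
          rw [h8, show (-((e + 1 : ℕ) : ℤ)) = -(e : ℤ) + -1 by push_cast; ring, WithZero.exp_add]
          exact mul_le_mul' h5 h6
        | add a ha b hb h5 h6 =>
          exact (Valuation.map_add _ _ _).trans (max_le h5 h6)
    have h5 := h4 e z hz
    rw [hzr] at h5
    rw [← hH, ← HeightOneSpectrum.intValuation_le_pow_iff_mem]
    rwa [← HeightOneSpectrum.valuation_of_algebraMap (K := F)]
  · intro hr
    let j : integralClosure k[X] F →+* P.ring :=
      (algebraMap (integralClosure k[X] F) F).codRestrict P.ring fun r => P.int_mem hx r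
    have h4 : (P.center hx).map j ≤ IsLocalRing.maximalIdeal P.ring := by
      rw [Ideal.map_le_iff_le_comap]
      intro a ha
      rw [Ideal.mem_comap, ← P.val_eq_zero]
      have h5 : P.eval (a : F) = 0 := ha
      rwa [P.eval_of_mem (P.int_mem hx a)] at h5
    have h5 : j r ∈ (P.center hx ^ e).map j := Ideal.mem_map_of_mem j hr
    rw [Ideal.map_pow] at h5
    exact ⟨j r, Ideal.pow_right_mono h4 e h5, rfl⟩

end Pool.Agent.EVC
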