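import Pool.Agent.EVC.Fld
import Pool.Agent.EVC.Fib
import Pool.Agent.COV.Gen
import Pool.Agent.RP2.AllDeg

/-!
# Geometric points and points of the plane model (package EVC 17)
-/

set_option autoImplicit false

open Polynomial NumberField IntermediateField Module

namespace Pool.Agent.EVC

variable {k F : Type} [Field k] [Field F] [Algebra k F] [Algebra k[X] F] [IsScalarTower k k[X] F]
variable (K : Type) [CharZero k] [Field K] [Algebra k[X] K] [IsFractionRing k[X] K] [Algebra K F]
  [IsScalarTower k[X] K F] [FiniteDimensional K F]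

omit [CharZero k] in
/-- The value of a polynomial in `x` and `y`.

PROOF. `aeval y g = eval₂ (algebraMap k[X] R) y g`, and `P.ihom hx` is a ring homomorphism with
`P.ihom hx (algebraMap k[X] R f) = aeval (x(P)) f` (`Pt.ihom_algebraMap`); `hom_eval₂`. -/
theorem ihom_aeval (P : Pt k F) (hx : algebraMap k[X] F X ∈ P.ring)
    (y : integralClosure k[X] F) (g : k[X][X]) :
    P.ihom hx (aeval y g) = g.eval₂ (aeval (P.eval (algebraMap k[X] F X)) :
      k[X] →ₐ[k] AlgebraicClosure k).toRingHom (P.eval (y : F)) := by
  change (P.ihom hx : integralClosure k[X] F →+* AlgebraicClosure k) _ = _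
  rw [aeval_def, hom_eval₂]
  congr 1
  apply RingHom.ext
  intro f
  exact P.ihom_algebraMap hx f

omit [CharZero k] in
/-- The pair of the values of `x` and `y` is a point of the plane curve.

PROOF. `COV.evalEval_eq`, `ihom_aeval` and `minpoly.aeval`. -/
theorem evalEval_pair (P : Pt k F) (hx : algebraMap k[X] F X ∈ P.ring)
    (y : integralClosure k[X] F) :
    ((minpoly k[X] y).map (mapRingHom (algebraMap k (AlgebraicClosure k)))).evalEval
      (P.eval (algebraMap k[X] F X)) (P.eval (y : F)) = 0 := by
  rw [COV.evalEval_eq, ← ihom_aeval P hx, minpoly.aeval, map_zero]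

include K in
/-- Above the complement of the zeros of `s` a geometric point is determined by the values of `x`
and `y`.

PROOF. By `ext_int K` it is enough that `P.eval r = P'.eval r` for `r ∈ R`. Let `s r = g(x, y)`
(`hs`).
By `ihom_aeval` and `Pt.ihom_algebraMap`: `s(x(P)) r(P) = g(x(P), y(P))`, the same for `P'`, and
`s(x(P)) ≠ 0`. -/
theorem pair_injective (y : integralClosure k[X] F) (s : k[X])
    (hs : ∀ r : integralClosure k[X] F, ∃ g : k[X][X],
      algebraMap k[X] (integralClosure k[X] F) s * r = aeval y g)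
    {P P' : Pt k F} (hx : algebraMap k[X] F X ∈ P.ring) (hx' : algebraMap k[X] F X ∈ P'.ring)
    (h0 : aeval (P.eval (algebraMap k[X] F X)) s ≠ 0)
    (h1 : P.eval (algebraMap k[X] F X) = P'.eval (algebraMap k[X] F X))
    (h2 : P.eval (y : F) = P'.eval (y : F)) : P = P' := by
  apply ext_int K hx hx'
  intro r
  obtain ⟨g, hg⟩ := hs r
  have e1 := congrArg (P.ihom hx) hg
  have e2 := congrArg (P'.ihom hx') hg
  rw [map_mul, Pt.ihom_algebraMap, ihom_aeval, Pt.ihom_apply] at e1
  rw [map_mul, Pt.ihom_algebraMap, ihom_aeval, Pt.ihom_apply] at e2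
  rw [h1] at e1 h0
  rw [h2] at e1
  exact mul_left_cancel₀ h0 (e1.trans e2.symm)

include K in
/-- Above the complement of the zeros of `s` the residue field is generated by the values of `x`
and `y`.

PROOF. By `mem_field K` every element of `P.field` is `P.eval r`, `r ∈ R`, and as in
`pair_injective`
`r(P) = g(x(P), y(P)) / s(x(P))` is in `k(x(P), y(P))`. The other inclusion: `x(P)` and `y(P)` are
values of integral functions. -/
theorem field_eq (y : integralClosure k[X] F) (s : k[X])
    (hs : ∀ r : integralClosure k[X] F, ∃ g : k[X][X],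
      algebraMap k[X] (integralClosure k[X] F) s * r = aeval y g)
    (P : Pt k F) (hx : algebraMap k[X] F X ∈ P.ring)
    (h0 : aeval (P.eval (algebraMap k[X] F X)) s ≠ 0) :
    P.field = IntermediateField.adjoin k {P.eval (algebraMap k[X] F X), P.eval (y : F)} := by
  set L := IntermediateField.adjoin k {P.eval (algebraMap k[X] F X), P.eval (y : F)} with hL
  have hxL : P.eval (algebraMap k[X] F X) ∈ L := IntermediateField.subset_adjoin _ _ (by simp)
  have hyL : P.eval (y : F) ∈ L := IntermediateField.subset_adjoin _ _ (by simp)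
  have hpol : ∀ f : k[X], aeval (P.eval (algebraMap k[X] F X)) f ∈ L := fun f => by
    rw [aeval_eq_sum_range]
    exact sum_mem fun i _ => L.smul_mem (pow_mem hxL i)
  apply le_antisymm
  · intro z hz
    obtain ⟨r, rfl⟩ := (mem_field K P hx z).1 hz
    obtain ⟨g, hg⟩ := hs r
    have e1 := congrArg (P.ihom hx) hg
    rw [map_mul, P.ihom_algebraMap, ihom_aeval, Pt.ihom_apply] at e1
    rw [← mul_div_cancel_left₀ (P.eval (r : F)) h0, e1]
    refine div_mem ?_ (hpol s)
    rw [eval₂_eq_sum_range]
    exact sum_mem fun i _ => mul_mem (hpol _) (pow_mem hyL i)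
  · rw [hL, IntermediateField.adjoin_le_iff]
    rintro z (rfl | rfl)
    · exact (mem_field K P hx _).2 ⟨algebraMap k[X] _ X, rfl⟩
    · exact (mem_field K P hx _).2 ⟨y, rfl⟩

end Pool.Agent.EVC
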