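import Pool.Agent.EVC.Lift

/-!
# Every point of the plane model is the image of a geometric point (package EVC 18)
-/

set_option autoImplicit false

open Polynomial NumberField IntermediateField Module

namespace Pool.Agent.EVC

variable {k F : Type} [Field k] [Field F] [Algebra k F] [Algebra k[X] F] [IsScalarTower k k[X] F]
variable (K : Type) [CharZero k] [Field K] [Algebra k[X] K] [IsFractionRing k[X] K] [Algebra K F]
  [IsScalarTower k[X] K F] [FiniteDimensional K F]

/-- A homomorphism to an algebraically closed field extends to integral extensions. -/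
private theorem extend_hom {A R L : Type} [CommRing A] [CommRing R] [IsDomain R] [Algebra A R]
    [Algebra.IsIntegral A R] [Field L] [IsAlgClosed L] (ψ : A →+* L)
    (hker : RingHom.ker (algebraMap A R) ≤ RingHom.ker ψ) :
    ∃ φ : R →+* L, ∀ a, φ (algebraMap A R a) = ψ a := by
  have hp : (RingHom.ker ψ).IsPrime := RingHom.ker_isPrime ψ
  obtain ⟨Q, hQ, hQc⟩ := Ideal.exists_ideal_over_prime_of_isIntegral_of_isDomain (S := R)
    (RingHom.ker ψ) hker
  let ψ' : A ⧸ Q.comap (algebraMap A R) →+* L :=
    Ideal.Quotient.lift _ ψ fun a ha => by rwa [hQc] at ha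
  have hψ' : Function.Injective ψ' := by
    rw [injective_iff_map_eq_zero]
    intro z hz
    obtain ⟨a, rfl⟩ := Ideal.Quotient.mk_surjective z
    rw [Ideal.Quotient.eq_zero_iff_mem, hQc]
    exact hz
  let : Algebra (A ⧸ Q.comap (algebraMap A R)) L := ψ'.toAlgebra
  let : Algebra (A ⧸ Q.comap (algebraMap A R)) (R ⧸ Q) := Ideal.quotientAlgebra
  have i1 : Algebra.IsIntegral (A ⧸ Q.comap (algebraMap A R)) (R ⧸ Q) := by
    constructor
    intro z
    obtain ⟨r, rfl⟩ := Ideal.Quotient.mk_surjective z
    obtain ⟨p, hp1, hp2⟩ := Algebra.IsIntegral.isIntegral (R := A) r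
    refine ⟨p.map (Ideal.Quotient.mk _), hp1.map _, ?_⟩
    rw [eval₂_map]
    have := congrArg (Ideal.Quotient.mk Q) hp2
    rw [map_zero, hom_eval₂] at this
    exact this
  have i2 : IsDomain (A ⧸ Q.comap (algebraMap A R)) := inferInstance
  have i3 : IsTorsionFree (A ⧸ Q.comap (algebraMap A R)) (R ⧸ Q) :=
    Module.isTorsionFree_iff_algebraMap_injective.2 Ideal.algebraMap_quotient_injective
  have i4 : IsTorsionFree (A ⧸ Q.comap (algebraMap A R)) L :=
    Module.isTorsionFree_iff_algebraMap_injective.2 hψ'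
  let θ : R ⧸ Q →ₐ[A ⧸ Q.comap (algebraMap A R)] L := IsAlgClosed.lift
  refine ⟨(θ : R ⧸ Q →+* L).comp (Ideal.Quotient.mk Q), fun a => ?_⟩
  exact θ.commutes (Ideal.Quotient.mk _ a)

include K in
/-- Every point of the plane curve is the image of a geometric point.

PROOF. Let `R` be the integral closure of `k[X]` in `F`, `A' = Algebra.adjoin k[X] {y} ≤ R`. The
kernel
of `aeval y : k[X][X] → R` is generated by `G = minpoly k[X] y` (`minpoly.isIntegrallyClosed_dvd`,
`R`
is a domain, `tf K`), so the homomorphism `k[X][X] → k̄`, `g ↦ g(x₀, y₀)`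
(`eval₂RingHom (aeval x₀).toRingHom y₀`), which kills `G` (`COV.evalEval_eq`), factors through `A'`
(`minpoly.equivAdjoin`, `AdjoinRoot.lift`, or `RingHom.liftOfSurjective`), say `ψ : A' → k̄`. `R` is
integral over `A'` (`ded K`: finite over `k[X]`). By lying over
(`Ideal.exists_ideal_over_prime_of_isIntegral`)
there is a prime ideal `𝔓` of `R` over `ker ψ`; both `A' ⧸ ker ψ → k̄` (injective) and
`A' ⧸ ker ψ → R ⧸ 𝔓` (injective, integral); `R ⧸ 𝔓` is integral over `A' ⧸ ker ψ`, so the
homomorphism extends: there is a Mathlib theorem on extending homomorphisms to integral extensions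
with values in an algebraically closed field, for instance `IsAlgClosed.lift` for
`R ⧸ 𝔓` over `A' ⧸ ker ψ` (both domains, algebraic, `Module.IsTorsionFree`/`NoZeroSMulDivisors`).
The
composite `φ : R → k̄` extends `ψ`, so it is a `k`-algebra homomorphism with `φ x = x₀`, `φ y = y₀`.
Apply `exists_pt K φ`. -/
theorem exists_lift (y : integralClosure k[X] F) (x₀ y₀ : AlgebraicClosure k)
    (h : ((minpoly k[X] y).map (mapRingHom (algebraMap k (AlgebraicClosure k)))).evalEval
      x₀ y₀ = 0) :
    ∃ P : Pt k F, algebraMap k[X] F X ∈ P.ring ∧ P.eval (algebraMap k[X] F X) = x₀ ∧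
      P.eval (y : F) = y₀ := by
  obtain ⟨_, _, _⟩ := ded (k := k) (F := F) K
  have htf : IsTorsionFree k[X] (integralClosure k[X] F) := tf K
  let ψ : k[X][X] →+* AlgebraicClosure k :=
    eval₂RingHom (aeval x₀ : k[X] →ₐ[k] AlgebraicClosure k).toRingHom y₀
  let : Algebra k[X][X] (integralClosure k[X] F) :=
    (aeval y : k[X][X] →ₐ[k[X]] integralClosure k[X] F).toRingHom.toAlgebra
  have halg : ∀ g : k[X][X], algebraMap k[X][X] (integralClosure k[X] F) g = aeval y g :=
    fun _ => rfl
  have hcomp : ∀ f : k[X], algebraMap k[X] (integralClosure k[X] F) f =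
      algebraMap k[X][X] (integralClosure k[X] F) (C f) := fun f => by
    rw [halg, aeval_C]
  have hint : Algebra.IsIntegral k[X] (integralClosure k[X] F) := inferInstance
  have hint' : Algebra.IsIntegral k[X][X] (integralClosure k[X] F) := by
    constructor
    intro r
    obtain ⟨p, hp1, hp2⟩ := hint.isIntegral r
    refine ⟨p.map C, hp1.map _, ?_⟩
    rw [eval₂_map]
    have h1 : (algebraMap k[X][X] (integralClosure k[X] F)).comp C =
        algebraMap k[X] (integralClosure k[X] F) := RingHom.ext fun f => (hcomp f).symm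
    rw [h1]
    exact hp2
  have hker : RingHom.ker (algebraMap k[X][X] (integralClosure k[X] F)) ≤ RingHom.ker ψ := by
    intro g hg
    rw [RingHom.mem_ker, halg] at hg
    obtain ⟨q, rfl⟩ := minpoly.isIntegrallyClosed_dvd (hint.isIntegral y) hg
    have h1 : ψ (minpoly k[X] y) = 0 := by
      rw [COV.evalEval_eq] at h
      exact h
    rw [RingHom.mem_ker, map_mul, h1, zero_mul]
  obtain ⟨φ, hφ⟩ := extend_hom ψ hker
  have hψC : ∀ f : k[X], ψ (C f) = aeval x₀ f := fun f => eval₂_C _ _
  have hφC : ∀ f : k[X], φ (algebraMap k[X] (integralClosure k[X] F) f) = aeval x₀ f := fun f => by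
    rw [hcomp, hφ, hψC]
  let φ' : integralClosure k[X] F →ₐ[k] AlgebraicClosure k :=
    { φ with
      commutes' := fun c => by
        change φ (algebraMap k (integralClosure k[X] F) c) = _
        rw [IsScalarTower.algebraMap_apply k k[X] (integralClosure k[X] F), hφC,
          Polynomial.algebraMap_eq, aeval_C] }
  obtain ⟨P, hx, hP⟩ := exists_pt K φ'
  refine ⟨P, hx, ?_, ?_⟩
  · have h1 := P.ihom_apply hx (algebraMap k[X] (integralClosure k[X] F) X)
    rw [hP] at h1
    refine Eq.trans h1.symm ?_
    change φ _ = _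
    rw [hφC, aeval_X]
  · rw [← P.ihom_apply hx, hP]
    change φ y = _
    have h2 : y = algebraMap k[X][X] (integralClosure k[X] F) X := by rw [halg, aeval_X]
    rw [h2, hφ]
    exact eval₂_X _ _

end Pool.Agent.EVC
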