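import Pool.Agent.EVC.Defs

/-!
# Local generators (package EVC 7)
-/

set_option autoImplicit false

open Polynomial NumberField IntermediateField Module

namespace Pool.Agent.EVC

/-- Let `R` be an algebra over the field `k` of characteristic `0`, and `𝔓` a maximal ideal of `R`
such that `R / 𝔓` is finite over `k` and `𝔓 ≠ 𝔓 ^ 2`. Then there is `y ∈ R` which generates `R / 𝔓`
over `k`, with the minimal polynomial `q` (for its class modulo `𝔓`), such that `q(y)` is in `𝔓` but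
not in `𝔓 ^ 2`; and `q` can be chosen outside any given finite set.

PROOF. The field `L = R / 𝔓` is a finite separable extension of `k`; let `θ` be a primitive element
(`Field.exists_primitive_element`), so every element of `L` is a polynomial in `θ` with coefficients
in `k`. For `c ∈ k` let `θ_c = θ + c`; it is a primitive element too, with the minimal polynomial
`q_c = (minpoly k θ).comp (X - C c)` (`minpoly.add_algebraMap`), and these polynomials are different
for different `c`: the coefficient of `X ^ (n - 1)`, `n` the degree, is `a - n c`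
(alternatively: `q_c = q_c'` and `c ≠ c'` imply that `minpoly k θ` is invariant under the
translation
by `c - c'`, so it has the infinitely many roots `θ + j (c - c')`, `j ∈ ℕ`, in `L`).
As `k` is infinite, there is `c` such that `q_c` is not in `Z`. Let `y₀ ∈ R` be a representative of
`θ_c`, and `q = q_c`; `q` is monic and irreducible and `q(y₀) ∈ 𝔓`. If `q(y₀)` is not in `𝔓 ^ 2` we
take `y = y₀`. Otherwise let `π ∈ 𝔓`, `π ∉ 𝔓 ^ 2` (`hπ`), and `y = y₀ + π`, which has the same class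
modulo `𝔓`. By Taylor's formula `q(y₀ + π) = q(y₀) + q'(y₀) π + z π ^ 2` for some `z ∈ R`
(`Polynomial.binomExpansion` for `q.map (algebraMap k R)`), so if `q(y)` were in `𝔓 ^ 2` then
`q'(y₀) π ∈ 𝔓 ^ 2`. But `q'(y₀) ∉ 𝔓`, as `q` is separable (`(minpoly.irreducible _).separable`, `k`
has characteristic `0`): `a q + b q' = 1` for some polynomials `a`, `b` over `k`, thus there is `w
∈ R`
(`w = b(y₀)`) with `w q'(y₀) - 1 = - a(y₀) q(y₀) ∈ 𝔓`, and
`π = w q'(y₀) π - (w q'(y₀) - 1) π ∈ 𝔓 ^ 2`, a contradiction. The last claim: the class of `r` in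
`L`
is `g(θ_c)` for some `g ∈ k[X]` (`IntermediateField.adjoin_simple` and `Algebra.adjoin_singleton`,
or
`AdjoinRoot`/`minpoly`; `Algebra.adjoin k {θ_c} = ⊤`), so `r - g(y) ∈ 𝔓`. -/
theorem exists_local {k R : Type} [Field k] [CharZero k] [CommRing R] [Algebra k R] (𝔓 : Ideal R)
    [𝔓.IsMaximal] (hfin : FiniteDimensional k (R ⧸ 𝔓)) (hπ : ∃ π ∈ 𝔓, π ∉ 𝔓 ^ 2)
    (Z : Finset k[X]) : ∃ (y : R) (q : k[X]), q ∉ Z ∧ q.Monic ∧ Irreducible q ∧
      aeval y q ∈ 𝔓 ∧ aeval y q ∉ 𝔓 ^ 2 ∧ ∀ r : R, ∃ g : k[X], r - aeval y g ∈ 𝔓 := by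
  classical
  let _ : Field (R ⧸ 𝔓) := Ideal.Quotient.field 𝔓
  have hmk : ∀ (y : R) (g : k[X]),
      Ideal.Quotient.mk 𝔓 (aeval y g) = aeval (Ideal.Quotient.mk 𝔓 y) g := by
    intro y g
    exact (Polynomial.aeval_algHom_apply (Ideal.Quotient.mkₐ k 𝔓) y g).symm
  have : Algebra.IsAlgebraic k (R ⧸ 𝔓) := Algebra.IsAlgebraic.of_finite k (R ⧸ 𝔓)
  have : Algebra.IsSeparable k (R ⧸ 𝔓) := Algebra.IsAlgebraic.isSeparable_of_perfectField
  obtain ⟨θ, hθ⟩ := Field.exists_primitive_element k (R ⧸ 𝔓)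
  -- a translate whose minimal polynomial is not in `Z`
  obtain ⟨c, hc⟩ : ∃ c : k, minpoly k (θ + algebraMap k (R ⧸ 𝔓) c) ∉ Z := by
    by_contra hcon
    push Not at hcon
    have hfin' : (⋃ q ∈ Z, {c : k | θ + algebraMap k (R ⧸ 𝔓) c ∈
        q.rootSet (R ⧸ 𝔓)}).Finite := by
      refine Set.Finite.biUnion Z.finite_toSet fun q _ => ?_
      refine Set.Finite.preimage ?_ (Polynomial.rootSet_finite q (R ⧸ 𝔓))
      intro c _ c' _ h
      exact (algebraMap k (R ⧸ 𝔓)).injective (add_left_cancel h)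
    have : Infinite k := inferInstance
    refine Set.infinite_univ (α := k) (hfin'.subset fun c _ => ?_)
    rw [Set.mem_iUnion₂]
    refine ⟨_, hcon c, ?_⟩
    rw [Set.mem_ofPred_eq, Polynomial.mem_rootSet]
    exact ⟨minpoly.ne_zero (Algebra.IsIntegral.isIntegral _), minpoly.aeval _ _⟩
  obtain ⟨θ', hθ'def⟩ : ∃ θ' : R ⧸ 𝔓, θ' = θ + algebraMap k (R ⧸ 𝔓) c := ⟨_, rfl⟩
  rw [← hθ'def] at hc
  have hint : IsIntegral k θ' := Algebra.IsIntegral.isIntegral _
  have hθ' : k⟮θ'⟯ = ⊤ := by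
    rw [eq_top_iff, ← hθ, IntermediateField.adjoin_simple_le_iff]
    have h1 : θ = θ' - algebraMap k (R ⧸ 𝔓) c := by
      rw [hθ'def, add_sub_cancel_right]
    rw [h1]
    exact sub_mem (IntermediateField.mem_adjoin_simple_self k θ')
      (IntermediateField.algebraMap_mem _ c)
  have hL : ∀ x : R ⧸ 𝔓, ∃ g : k[X], aeval θ' g = x := by
    intro x
    have hx : x ∈ k⟮θ'⟯.toSubalgebra := by
      rw [hθ']
      exact IntermediateField.mem_top
    rw [IntermediateField.adjoin_simple_toSubalgebra_of_isAlgebraic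
      (Algebra.IsAlgebraic.isAlgebraic θ'), Algebra.adjoin_singleton_eq_range_aeval] at hx
    obtain ⟨g, hg⟩ := hx
    exact ⟨g, hg⟩
  obtain ⟨q, hq⟩ : ∃ q : k[X], q = minpoly k θ' := ⟨_, rfl⟩
  have hirr : Irreducible q := by
    rw [hq]
    exact minpoly.irreducible hint
  have hq0 : aeval θ' q = 0 := by
    rw [hq]
    exact minpoly.aeval k θ'
  obtain ⟨y₀, hy₀⟩ := Ideal.Quotient.mk_surjective θ'
  have hmem : ∀ y : R, Ideal.Quotient.mk 𝔓 y = θ' → aeval y q ∈ 𝔓 := by
    intro y hy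
    rw [← Ideal.Quotient.eq_zero_iff_mem, hmk, hy, hq0]
  have hlast : ∀ y : R, Ideal.Quotient.mk 𝔓 y = θ' → ∀ r : R, ∃ g : k[X],
      r - aeval y g ∈ 𝔓 := by
    intro y hy r
    obtain ⟨g, hg⟩ := hL (Ideal.Quotient.mk 𝔓 r)
    refine ⟨g, ?_⟩
    rw [← Ideal.Quotient.eq_zero_iff_mem, map_sub, hmk, hy, hg, sub_self]
  by_cases h : aeval y₀ q ∈ 𝔓 ^ 2
  · obtain ⟨π, hπ1, hπ2⟩ := hπ
    have hy : Ideal.Quotient.mk 𝔓 (y₀ + π) = θ' := by
      rw [map_add, hy₀, Ideal.Quotient.eq_zero_iff_mem.2 hπ1, add_zero]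
    refine ⟨y₀ + π, q, by rw [hq]; exact hc, by rw [hq]; exact minpoly.monic hint, hirr,
      hmem _ hy, ?_, hlast _ hy⟩
    intro hcon
    apply hπ2
    obtain ⟨z, hz⟩ := Polynomial.binomExpansion (q.map (algebraMap k R)) y₀ π
    rw [Polynomial.derivative_map, Polynomial.eval_map_algebraMap,
      Polynomial.eval_map_algebraMap, Polynomial.eval_map_algebraMap] at hz
    have hπsq : π ^ 2 ∈ 𝔓 ^ 2 := Ideal.pow_mem_pow hπ1 2
    have hD : aeval y₀ (derivative q) * π ∈ 𝔓 ^ 2 := by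
      have h1 : aeval y₀ (derivative q) * π =
          aeval (y₀ + π) q - aeval y₀ q - z * π ^ 2 := by
        rw [hz]
        ring
      rw [h1]
      exact sub_mem (sub_mem hcon h) (Ideal.mul_mem_left _ _ hπsq)
    obtain ⟨a, b, hab⟩ := hirr.separable
    have h2 := congrArg (aeval y₀) hab
    rw [map_add, map_mul, map_mul, map_one] at h2
    have h3 : π = aeval y₀ a * (aeval y₀ q * π) + aeval y₀ b * (aeval y₀ (derivative q) * π) := by
      linear_combination (-π) * h2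
    rw [h3]
    exact add_mem (Ideal.mul_mem_left _ _ (Ideal.mul_mem_right _ _ h))
      (Ideal.mul_mem_left _ _ hD)
  · exact ⟨y₀, q, by rw [hq]; exact hc, by rw [hq]; exact minpoly.monic hint, hirr,
      hmem _ hy₀, h, hlast _ hy₀⟩

end Pool.Agent.EVC
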