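import Pool.Agent.EVC.Frac

/-!
# The ramification index of a geometric point
-/

set_option autoImplicit false

open Polynomial NumberField IntermediateField Module

namespace Pool.Agent.EVC

variable {k F : Type} [Field k] [Field F] [Algebra k F] [Algebra k[X] F] [IsScalarTower k k[X] F]
variable (K : Type) [CharZero k] [Field K] [Algebra k[X] K] [IsFractionRing k[X] K] [Algebra K F]
  [IsScalarTower k[X] K F] [FiniteDimensional K F]

omit [CharZero k] in
theorem isIntegral_ac (c : AlgebraicClosure k) : IsIntegral k c :=
  Algebra.IsIntegral.isIntegral c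

include K in
/-- the ramification index is the order of the minimal polynomial of the value -/
theorem ram_spec (P : Pt k F) (hx : algebraMap k[X] F X ∈ P.ring) :
    algebraMap k[X] (integralClosure k[X] F) (minpoly k (P.eval (algebraMap k[X] F X))) ∈
        P.center hx ^ P.ram (algebraMap k[X] F X) ∧
      algebraMap k[X] (integralClosure k[X] F) (minpoly k (P.eval (algebraMap k[X] F X))) ∉
        P.center hx ^ (P.ram (algebraMap k[X] F X) + 1) ∧
      1 ≤ P.ram (algebraMap k[X] F X) := by
  obtain ⟨_, _, _⟩ := ded (k := k) (F := F) K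
  set c := P.eval (algebraMap k[X] F X) with hc
  set b := algebraMap k[X] (integralClosure k[X] F) (minpoly k c) with hb
  set S : Set ℕ := {e : ℕ | b ∈ P.center hx ^ e} with hS
  have h1 : P.ram (algebraMap k[X] F X) = sSup S := by
    unfold Pt.ram
    congr 1
    ext e
    rw [Set.mem_ofPred_eq, hS, Set.mem_ofPred_eq, ← mem_pow K P hx b e, if_pos hx]
    have h2 : aeval (algebraMap k[X] F X) (minpoly k (P.eval (algebraMap k[X] F X))) =
        (b : F) := by
      rw [← algebraMap_eq]
      rfl
    rw [h2]
  have h0 : b ≠ 0 := by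
    intro h
    have h2 : algebraMap k[X] F (minpoly k c) = 0 := congrArg Subtype.val h
    rw [IsScalarTower.algebraMap_apply k[X] K F, map_eq_zero] at h2
    exact minpoly.ne_zero (isIntegral_ac c)
      ((map_eq_zero_iff _ (IsFractionRing.injective k[X] K)).1 h2)
  have hfin : BddAbove S := by
    have h2 : FiniteMultiplicity (P.center hx) (Ideal.span {b}) := by
      apply FiniteMultiplicity.of_not_isUnit
      · rw [Ideal.isUnit_iff]
        exact (P.center_isPrime hx).ne_top
      · rw [Ne, Ideal.zero_eq_bot, Ideal.span_singleton_eq_bot]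
        exact h0
    obtain ⟨n, hn⟩ := h2
    refine ⟨n, fun e he => ?_⟩
    by_contra hlt
    push Not at hlt
    apply hn
    rw [Ideal.dvd_span_singleton]
    exact Ideal.pow_le_pow_right (by omega) he
  have h1S : 1 ∈ S := by
    rw [hS, Set.mem_ofPred_eq, pow_one]
    change P.ihom hx b = 0
    rw [hb, P.ihom_algebraMap, minpoly.aeval]
  rw [h1]
  refine ⟨Nat.sSup_mem ⟨1, h1S⟩ hfin, fun h => ?_, le_csSup hfin h1S⟩
  have := le_csSup hfin (show sSup S + 1 ∈ S from h)
  omega

omit [CharZero k] in
/-- an irreducible polynomial which vanishes at `x(P)` is the minimal polynomial up to a constant -/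
theorem assoc_minpoly (P : Pt k F) (hx : algebraMap k[X] F X ∈ P.ring) (b : k[X])
    (hb : Irreducible b)
    (hbP : algebraMap k[X] (integralClosure k[X] F) b ∈ P.center hx) :
    Associated (minpoly k (P.eval (algebraMap k[X] F X))) b := by
  have h1 : aeval (P.eval (algebraMap k[X] F X)) b = 0 := by
    rw [← P.ihom_algebraMap hx]
    exact hbP
  exact (minpoly.irreducible (isIntegral_ac _)).associated_of_dvd hb (minpoly.dvd _ _ h1)

omit [CharZero k] in
theorem finrank_value (P : Pt k F) (hx : algebraMap k[X] F X ∈ P.ring) (b : k[X])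
    (hb : Irreducible b)
    (hbP : algebraMap k[X] (integralClosure k[X] F) b ∈ P.center hx) :
    finrank k (IntermediateField.adjoin k {P.eval (algebraMap k[X] F X)}) = b.natDegree := by
  rw [IntermediateField.adjoin.finrank (isIntegral_ac _)]
  exact natDegree_eq_of_degree_eq (degree_eq_degree_of_associated (assoc_minpoly P hx b hb hbP))

include K in
/-- the ramification index of a point is the exponent of its center -/
theorem mem_center_pow (P : Pt k F) (hx : algebraMap k[X] F X ∈ P.ring) (b : k[X])
    (hb : Irreducible b)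
    (hbP : algebraMap k[X] (integralClosure k[X] F) b ∈ P.center hx) (e : ℕ) :
    algebraMap k[X] (integralClosure k[X] F) b ∈ P.center hx ^ e ↔
      e ≤ P.ram (algebraMap k[X] F X) := by
  obtain ⟨u, hu⟩ := assoc_minpoly P hx b hb hbP
  obtain ⟨h1, h2, -⟩ := ram_spec K P hx
  have h3 : IsUnit (algebraMap k[X] (integralClosure k[X] F) (u : k[X])) := u.isUnit.map _
  rw [← hu, map_mul, Ideal.mul_unit_mem_iff_mem _ h3]
  constructor
  · intro h
    by_contra hlt
    push Not at hlt
    exact h2 (Ideal.pow_le_pow_right (by omega) h)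
  · intro h
    exact Ideal.pow_le_pow_right h h1

end Pool.Agent.EVC
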