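import Pool.Agent.EVC.Ram
import Pool.Agent.EVC.Card
import Pool.Agent.EVC.Gen
import Pool.Agent.EVC.Fib

/-!
# The fundamental identity for geometric points (package EVC 15)
-/

set_option autoImplicit false

open Polynomial NumberField IntermediateField Module

namespace Pool.Agent.EVC

variable {k F : Type} [Field k] [Field F] [Algebra k F] [Algebra k[X] F] [IsScalarTower k k[X] F]
variable (K : Type) [CharZero k] [Field K] [Algebra k[X] K] [IsFractionRing k[X] K] [Algebra K F]
  [IsScalarTower k[X] K F] [FiniteDimensional K F]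

include K in
/-- The sum of the ramification indices of the geometric zeros of `x` is the degree `[F : k(x)]`.

PROOF. Let `R` be the integral closure of `k[X]` in `F` (`ded K`), `𝔭 = Ideal.span {X} ≤ k[X]`, a
maximal ideal. A point `P` with `x(P) = 0` has the center `𝔓 = P.center hx`, a prime ideal over `𝔭`
(`X ∈ 𝔓` since `P.eval x = 0`); by `mem_center_pow K P hx X irreducible_X` its ramification index
`P.ram x` is the exponent `e(𝔓)` of `𝔓` in `X R`, i.e. `Ideal.ramificationIdx' 𝔭 𝔓`
(`Ideal.ramificationIdx'_spec`, with `𝔭.map (algebraMap k[X] R) = Ideal.span {algebraMap _ _ X}`).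
Conversely, for every prime ideal `𝔓` of `R` over `𝔭` the number of the points with the center `𝔓`
is
`finrank k (R ⧸ 𝔓)` (`card_center K 𝔓`, `fin_quotient K 𝔓`), which is the inertia degree
`Ideal.inertiaDeg' 𝔭 𝔓 = finrank (k[X] ⧸ 𝔭) (R ⧸ 𝔓)`, because `k → k[X] ⧸ 𝔭` is an isomorphism
(every polynomial is congruent to its constant coefficient modulo `X`). The set in question is
finite
(`finite_fibre K 0`), so the sum is `∑ 𝔓, e(𝔓) f(𝔓)` over the primes `𝔓` over `𝔭` (group the points
by their centers), which is `finrank K F` by `Ideal.sum_ramification_inertia` (file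
`Mathlib/NumberTheory/RamificationInertia/Basic.lean`; it needs `Module.IsTorsionFree k[X] R`: `tf
K`).
Alternatively use the new form `Ideal.sum_ramification_inertia_eq_finrank`. -/
theorem sum_zero :
    ∑ᶠ P ∈ {P : Pt k F | algebraMap k[X] F X ∈ P.ring ∧ P.eval (algebraMap k[X] F X) = 0},
      P.ram (algebraMap k[X] F X) = finrank K F := by
  classical
  obtain ⟨_, _, _⟩ := ded (k := k) (F := F) K
  have htf : Module.IsTorsionFree k[X] (integralClosure k[X] F) := tf K
  have hpmax : (Ideal.span {(X : k[X])}).IsMaximal :=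
    PrincipalIdealRing.isMaximal_of_irreducible irreducible_X
  have hp0 : Ideal.span {(X : k[X])} ≠ ⊥ := by
    rw [Ne, Ideal.span_singleton_eq_bot]
    exact X_ne_zero
  have key := Ideal.sum_ramification_inertia (integralClosure k[X] F) K F hp0
  rw [← key]
  have hfin := finite_fibre (F := F) K (0 : AlgebraicClosure k)
  rw [finsum_mem_eq_finite_toFinset_sum _ hfin]
  -- the center of a point
  let g : Pt k F → Ideal (integralClosure k[X] F) := fun P =>
    if hx : algebraMap k[X] F X ∈ P.ring then P.center hx else ⊥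
  have hg : ∀ (P : Pt k F) (hx : algebraMap k[X] F X ∈ P.ring), g P = P.center hx :=
    fun P hx => dif_pos hx
  have hXc : ∀ (P : Pt k F) (hx : algebraMap k[X] F X ∈ P.ring),
      P.eval (algebraMap k[X] F X) = 0 →
      algebraMap k[X] (integralClosure k[X] F) X ∈ P.center hx := by
    intro P hx h0
    rw [P.mem_center hx]
    exact h0
  have hover : ∀ 𝔓 : Ideal (integralClosure k[X] F), 𝔓.IsPrime →
      algebraMap k[X] (integralClosure k[X] F) X ∈ 𝔓 →
      𝔓.LiesOver (Ideal.span {(X : k[X])}) := by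
    intro 𝔓 h𝔓 hX
    refine ⟨hpmax.eq_of_le (Ideal.IsPrime.comap _).ne_top ?_⟩
    rw [Ideal.span_singleton_le_iff_mem]
    exact hX
  have hmaps : ∀ P ∈ hfin.toFinset, g P ∈
      IsDedekindDomain.primesOverFinset (Ideal.span {(X : k[X])}) (integralClosure k[X] F) := by
    intro P hP
    rw [Set.Finite.mem_toFinset] at hP
    obtain ⟨hx, h0⟩ := hP
    rw [hg P hx, IsDedekindDomain.mem_primesOverFinset_iff hp0]
    exact ⟨P.center_isPrime hx, hover _ (P.center_isPrime hx) (hXc P hx h0)⟩
  rw [← Finset.sum_fiberwise_of_maps_to hmaps]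
  refine Finset.sum_congr rfl fun 𝔓 h𝔓 => ?_
  rw [IsDedekindDomain.mem_primesOverFinset_iff hp0] at h𝔓
  obtain ⟨hprime, hlies⟩ := h𝔓
  have hX𝔓 : algebraMap k[X] (integralClosure k[X] F) X ∈ 𝔓 := by
    have h1 : (X : k[X]) ∈ Ideal.span {(X : k[X])} := Ideal.mem_span_singleton_self X
    rw [hlies.over] at h1
    exact h1
  have h𝔓0 : 𝔓 ≠ ⊥ := by
    rintro rfl
    rw [Ideal.mem_bot, map_eq_zero_iff _ (algebraMap_inj (k := k) (F := F) K)] at hX𝔓
    exact X_ne_zero hX𝔓
  have hfq := fin_quotient (k := k) (F := F) K 𝔓 h𝔓0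
  obtain ⟨hcf, hcn⟩ := card_center K 𝔓 h𝔓0 hfq
  have hset : (hfin.toFinset.filter fun P => g P = 𝔓) = hcf.toFinset := by
    ext P
    rw [Finset.mem_filter, Set.Finite.mem_toFinset, Set.Finite.mem_toFinset]
    constructor
    · rintro ⟨⟨hx, h0⟩, h1⟩
      exact ⟨hx, by rw [← hg P hx]; exact h1⟩
    · rintro ⟨hx, h1⟩
      refine ⟨⟨hx, ?_⟩, by rw [hg P hx]; exact h1⟩
      have h2 : algebraMap k[X] (integralClosure k[X] F) X ∈ P.center hx := by
        rw [h1]
        exact hX𝔓
      exact h2
  have hram : ∀ P ∈ hcf.toFinset, P.ram (algebraMap k[X] F X) =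
      Ideal.ramificationIdx' (Ideal.span {(X : k[X])}) 𝔓 := by
    intro P hP
    rw [Set.Finite.mem_toFinset] at hP
    obtain ⟨hx, rfl⟩ := hP
    symm
    apply Ideal.ramificationIdx'_spec
    · rw [Ideal.map_span, Set.image_singleton, Ideal.span_singleton_le_iff_mem]
      exact (mem_center_pow K P hx X irreducible_X hX𝔓 _).2 le_rfl
    · rw [Ideal.map_span, Set.image_singleton, Ideal.span_singleton_le_iff_mem,
        mem_center_pow K P hx X irreducible_X hX𝔓]
      omega
  have hdeg : Ideal.inertiaDeg' (Ideal.span {(X : k[X])}) 𝔓 =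
      finrank k (integralClosure k[X] F ⧸ 𝔓) := by
    rw [Ideal.inertiaDeg'_algebraMap]
    have h1 : finrank k (k[X] ⧸ Ideal.span {(X : k[X])}) = 1 := by
      rw [finrank_quotient_span_eq_natDegree, natDegree_X]
    letI : Field (k[X] ⧸ Ideal.span {(X : k[X])}) := Ideal.Quotient.field _
    have hst : IsScalarTower k (k[X] ⧸ Ideal.span {(X : k[X])})
        (integralClosure k[X] F ⧸ 𝔓) := by
      refine IsScalarTower.of_algebraMap_eq fun c => ?_
      have h3 : algebraMap k (integralClosure k[X] F) c =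
          algebraMap k[X] (integralClosure k[X] F) (algebraMap k k[X] c) :=
        Subtype.ext (IsScalarTower.algebraMap_apply k k[X] F c)
      exact congrArg (Ideal.Quotient.mk 𝔓) h3
    have h2 := Module.finrank_mul_finrank k (k[X] ⧸ Ideal.span {(X : k[X])})
      (integralClosure k[X] F ⧸ 𝔓)
    rw [h1, one_mul] at h2
    exact h2
  rw [hset, Finset.sum_congr rfl hram, Finset.sum_const, smul_eq_mul, mul_comm, hdeg, ← hcn,
    Set.ncard_eq_toFinset_card _ hcf]

end Pool.Agent.EVC
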