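import Pool.Agent.EVC.Crt

/-!
# Approximation by polynomials in one element (package EVC 9)
-/

set_option autoImplicit false

open Polynomial NumberField IntermediateField Module

namespace Pool.Agent.EVC

/-- An element of order one has the `N`-th power of order `N`. -/
private theorem pow_notMem {R : Type} [CommRing R] [IsDedekindDomain R] (𝔓 : Ideal R)
    [𝔓.IsPrime] (h0 : 𝔓 ≠ ⊥) (a : R) (ha : a ∈ 𝔓) (ha2 : a ∉ 𝔓 ^ 2) (N : ℕ) :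
    a ^ N ∉ 𝔓 ^ (N + 1) := by
  have hp : Prime 𝔓 := Ideal.prime_of_isPrime h0 inferInstance
  have h1 : 𝔓 ∣ Ideal.span {a} := by
    rw [Ideal.dvd_iff_le, Ideal.span_singleton_le_iff_mem]
    exact ha
  obtain ⟨J, hJ⟩ := h1
  have hnJ : ¬ 𝔓 ∣ J := by
    intro h
    apply ha2
    have h2 : 𝔓 ^ 2 ∣ Ideal.span {a} := by
      rw [hJ, pow_two]
      exact mul_dvd_mul_left 𝔓 h
    rw [Ideal.dvd_iff_le, Ideal.span_singleton_le_iff_mem] at h2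
    exact h2
  intro h
  have h3 : 𝔓 ^ (N + 1) ∣ 𝔓 ^ N * J ^ N := by
    rw [← mul_pow, ← hJ, Ideal.span_singleton_pow, Ideal.dvd_iff_le,
      Ideal.span_singleton_le_iff_mem]
    exact h
  rw [pow_succ] at h3
  have h4 : 𝔓 ∣ J ^ N := (mul_dvd_mul_iff_left (pow_ne_zero N h0)).mp h3
  exact hnJ (hp.dvd_of_dvd_pow h4)

/-- Let `R` be a Dedekind domain which is an algebra over `k`, `𝔓 ≠ 0` a prime ideal, `y ∈ R` and
`q ∈ k[X]` with `q(y) ∈ 𝔓`, `q(y) ∉ 𝔓 ^ 2`, and suppose that every class modulo `𝔓` contains a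
polynomial in `y`. Then the same holds modulo `𝔓 ^ N`.

PROOF. Induction on `N`. `N = 0` is trivial. Let `z = r - g(y) ∈ 𝔓 ^ N`. Let `a = q(y) ^ N`; it is
in
`𝔓 ^ N` and not in `𝔓 ^ (N + 1)` (the order of `a` at `𝔓` is `N`, since the order of `q(y)` is `1`:
for example, if `q(y) ^ N ∈ 𝔓 ^ (N + 1)`; write `Ideal.span {q(y)} = 𝔓 * J` with `J` not contained
in
`𝔓` (because `q(y) ∉ 𝔓 ^ 2`), thus `𝔓 ^ (N + 1) ∣ 𝔓 ^ N * J ^ N`, so `𝔓 ∣ J ^ N`, `𝔓 ∣ J`, a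
contradiction). By `Ideal.exists_mul_add_mem_pow_succ` there are `d` and `e ∈ 𝔓 ^ (N + 1)` with
`a * d + e = z`. Choose `g'` with `d - g'(y) ∈ 𝔓`; then `r - g(y) - q(y) ^ N g'(y) =
a (d - g'(y)) + e ∈ 𝔓 ^ (N + 1)`, so the polynomial `g + q ^ N g'` works. -/
theorem surj_pow {k R : Type} [Field k] [CommRing R] [IsDedekindDomain R] [Algebra k R]
    (𝔓 : Ideal R) [𝔓.IsPrime] (h0 : 𝔓 ≠ ⊥) (y : R) (q : k[X]) (hq : aeval y q ∈ 𝔓)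
    (hq2 : aeval y q ∉ 𝔓 ^ 2) (hgen : ∀ r : R, ∃ g : k[X], r - aeval y g ∈ 𝔓) (N : ℕ) (r : R) :
    ∃ g : k[X], r - aeval y g ∈ 𝔓 ^ N := by
  induction N with
  | zero => exact ⟨0, by simp⟩
  | succ N ih =>
    obtain ⟨g, hg⟩ := ih
    have h1 : aeval y q ^ N ∈ 𝔓 ^ N := Ideal.pow_mem_pow hq N
    have h2 : aeval y q ^ N ∉ 𝔓 ^ (N + 1) := pow_notMem 𝔓 h0 _ hq hq2 N
    obtain ⟨d, e, he, hde⟩ := Ideal.exists_mul_add_mem_pow_succ h0 _ _ h1 h2 hg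
    obtain ⟨g', hg'⟩ := hgen d
    refine ⟨g + q ^ N * g', ?_⟩
    have h3 : r - aeval y (g + q ^ N * g') = aeval y q ^ N * (d - aeval y g') + e := by
      rw [map_add, map_mul, map_pow]
      linear_combination -hde
    rw [h3]
    refine Ideal.add_mem _ ?_ he
    rw [pow_succ]
    exact Ideal.mul_mem_mul h1 hg'

/-- Simultaneous approximation by polynomials in `y`, for `y` as in `exists_y`.

PROOF. For `𝔓` in `B` let `g_𝔓` be as in `surj_pow`. The polynomials `q 𝔓`, `𝔓 ∈ B`, are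
irreducible,
monic and different, so they are pairwise coprime (`Irreducible.coprime_or_dvd` or
`Polynomial.isCoprime_of_irreducible...`; two associated monic polynomials are equal), and so are
`(q 𝔓) ^ N` (`IsCoprime.pow`). By the Chinese remainder theorem in `k[X]`
(`Ideal.exists_forall_sub_mem_ideal` for the ideals `Ideal.span {(q 𝔓) ^ N}`, which are pairwise
coprime: `Ideal.isCoprime_span_singleton_iff`) there is `g` with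
`g - g_𝔓 ∈ Ideal.span {(q 𝔓) ^ N}` for all `𝔓`, so `g(y) - g_𝔓(y) = q_𝔓(y) ^ N * (...)` is in
`𝔓 ^ N`. -/
theorem surj_all {k R : Type} [Field k] [CommRing R] [IsDedekindDomain R] [Algebra k R]
    (B : Finset (Ideal R)) (hB : ∀ 𝔓 ∈ B, 𝔓.IsPrime ∧ 𝔓 ≠ ⊥) (y : R) (q : Ideal R → k[X])
    (hq : ∀ 𝔓 ∈ B, (q 𝔓).Monic ∧ Irreducible (q 𝔓) ∧
      aeval y (q 𝔓) ∈ 𝔓 ∧ aeval y (q 𝔓) ∉ 𝔓 ^ 2 ∧ ∀ r : R, ∃ g : k[X], r - aeval y g ∈ 𝔓)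
    (hne : ∀ 𝔓 ∈ B, ∀ 𝔓' ∈ B, 𝔓 ≠ 𝔓' → q 𝔓 ≠ q 𝔓') (N : ℕ) (r : R) :
    ∃ g : k[X], ∀ 𝔓 ∈ B, r - aeval y g ∈ 𝔓 ^ N := by
  have h1 : ∀ 𝔓 : B, ∃ g : k[X], r - aeval y g ∈ 𝔓.1 ^ N := by
    rintro ⟨𝔓, h𝔓⟩
    obtain ⟨_, _, h3, h4, h5⟩ := hq 𝔓 h𝔓
    have := (hB 𝔓 h𝔓).1
    exact surj_pow 𝔓 (hB 𝔓 h𝔓).2 y (q 𝔓) h3 h4 h5 N r
  choose G hG using h1
  have h2 : Pairwise (Function.onFun IsCoprime
      fun 𝔓 : B => Ideal.span {(q 𝔓.1) ^ N}) := by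
    intro 𝔓 𝔓' hne'
    simp only [Function.onFun]
    rw [Ideal.isCoprime_span_singleton_iff]
    obtain ⟨m1, i1, _⟩ := hq 𝔓.1 𝔓.2
    obtain ⟨m2, i2, _⟩ := hq 𝔓'.1 𝔓'.2
    apply IsCoprime.pow
    rw [i1.coprime_iff_not_dvd]
    intro hd
    have h3 : Associated (q 𝔓.1) (q 𝔓'.1) := (i1.dvd_irreducible_iff_associated i2).mp hd
    exact hne 𝔓.1 𝔓.2 𝔓'.1 𝔓'.2 (fun h => hne' (Subtype.ext h))
      (Polynomial.eq_of_monic_of_associated m1 m2 h3)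
  obtain ⟨g, hg⟩ := Ideal.exists_forall_sub_mem_ideal h2 G
  refine ⟨g, fun 𝔓 h𝔓 => ?_⟩
  have h3 := hg ⟨𝔓, h𝔓⟩
  rw [Ideal.mem_span_singleton] at h3
  obtain ⟨c, hc⟩ := h3
  have h4 : r - aeval y g = (r - aeval y (G ⟨𝔓, h𝔓⟩)) - aeval y (q 𝔓) ^ N * aeval y c := by
    have h5 := congrArg (aeval y) hc
    rw [map_sub, map_mul, map_pow] at h5
    linear_combination -h5
  rw [h4]
  exact Ideal.sub_mem _ (hG ⟨𝔓, h𝔓⟩)
    (Ideal.mul_mem_right _ _ (Ideal.pow_mem_pow (hq 𝔓 h𝔓).2.2.1 N))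

end Pool.Agent.EVC
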