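import Pool.Agent.EVC.Lift
import Pool.Agent.EVC.LiftEx
import Pool.Agent.EVC.RamPts

/-!
# Counting geometric points and points of the plane model
-/

set_option autoImplicit false

open Polynomial NumberField IntermediateField Module

namespace Pool.Agent.EVC

variable {k F : Type} [Field k] [NumberField k] [Field F] [Algebra k F] [Algebra k[X] F]
  [IsScalarTower k k[X] F]
variable (K : Type) [Field K] [Algebra k[X] K] [IsFractionRing k[X] K] [Algebra K F]
  [IsScalarTower k[X] K F] [FiniteDimensional K F]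

omit [Algebra k[X] F] [IsScalarTower k k[X] F] in
/-- the discriminant of the residue field -/
theorem logDiscr_eq (P : Pt k F) (x y : AlgebraicClosure k)
    (h : P.field = IntermediateField.adjoin k {x, y}) : P.logDiscr = HD.logDiscr (x, y) := by
  have hfin : FiniteDimensional k P.field := by
    rw [h]
    exact IntermediateField.finiteDimensional_adjoin
      fun z _ => (Algebra.IsIntegral.isIntegral z : IsIntegral k z)
  unfold Pt.logDiscr HD.logDiscr
  rw [dif_pos hfin]
  have key : ∀ (L L' : IntermediateField k (AlgebraicClosure k)) (h : L = L')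
      (i : NumberField L) (i' : NumberField L'), SST.logDisc L = SST.logDisc L' := by
    intro L L' h i i'
    subst h
    rfl
  exact key _ _ h _ _

include K in
/-- upper bounds -/
theorem trans_upper (y : integralClosure k[X] F) (s : k[X]) (hs0 : s ≠ 0)
    (hs : ∀ r : integralClosure k[X] F, ∃ g : k[X][X],
      algebraMap k[X] (integralClosure k[X] F) s * r = aeval y g)
    (W : Set (AlgebraicClosure k × AlgebraicClosure k))
    (V : Set (Pt k F)) (hV : ∀ P ∈ V, algebraMap k[X] F X ∈ P.ring)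
    (hVW : ∀ P ∈ V, P.logDiscr = HD.logDiscr (P.eval (algebraMap k[X] F X), P.eval (y : F)) →
      (P.eval (algebraMap k[X] F X), P.eval (y : F)) ∈ W)
    (hW : W.Finite) : V.Finite ∧ V.ncard ≤ W.ncard + {P : Pt k F | algebraMap k[X] F X ∈ P.ring ∧
      P.eval (algebraMap k[X] F X) ∈ s.rootSet (AlgebraicClosure k)}.ncard := by
  classical
  set B := {P : Pt k F | algebraMap k[X] F X ∈ P.ring ∧
      P.eval (algebraMap k[X] F X) ∈ s.rootSet (AlgebraicClosure k)} with hB
  have hBf : B.Finite := finite_over K _ (rootSet_finite _ _)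
  set V₁ := {P ∈ V | P ∉ B} with hV₁
  have hns : ∀ P ∈ V₁, aeval (P.eval (algebraMap k[X] F X)) s ≠ 0 := by
    rintro P ⟨hP, hPB⟩ h
    exact hPB ⟨hV P hP, (mem_rootSet.2 ⟨hs0, h⟩)⟩
  let f : Pt k F → AlgebraicClosure k × AlgebraicClosure k := fun P =>
    (P.eval (algebraMap k[X] F X), P.eval (y : F))
  have hmaps : ∀ P ∈ V₁, f P ∈ W := by
    intro P hP
    refine hVW P hP.1 (logDiscr_eq P _ _ ?_)
    exact field_eq K y s hs P (hV P hP.1) (hns P hP)
  have hinj : Set.InjOn f V₁ := by
    intro P hP P' hP' h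
    exact pair_injective K y s hs (hV P hP.1) (hV P' hP'.1) (hns P hP)
      (congrArg Prod.fst h) (congrArg Prod.snd h)
  have hV₁f : V₁.Finite :=
    Set.Finite.of_finite_image (hW.subset (Set.image_subset_iff.2 hmaps)) hinj
  have hsub : V ⊆ V₁ ∪ B := by
    intro P hP
    by_cases h : P ∈ B
    · exact Or.inr h
    · exact Or.inl ⟨hP, h⟩
  refine ⟨(hV₁f.union hBf).subset hsub, ?_⟩
  calc V.ncard ≤ (V₁ ∪ B).ncard := Set.ncard_le_ncard hsub (hV₁f.union hBf)
    _ ≤ V₁.ncard + B.ncard := Set.ncard_union_le _ _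
    _ ≤ W.ncard + B.ncard := by
        have := Set.ncard_le_ncard_of_injOn f hmaps hinj hW
        omega

include K in
/-- the points above the numbers of degree `m` and bounded height are finite in number -/
theorem pts_finite (m : ℕ) (hm : 1 ≤ m) (T : ℝ) (hT : 0 ≤ T) :
    (Pts k (algebraMap k[X] F X) m T).Finite := by
  refine (finite_over K _ (SFD.bounded_finite k m hm T hT)).subset ?_
  rintro P ⟨hx, h1, h2⟩
  exact ⟨hx, h1, h2⟩

include K in
/-- lower bounds -/
theorem trans_lower (y : integralClosure k[X] F) (m : ℕ) (hm : 1 ≤ m) (T : ℝ) (hT : 0 ≤ T)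
    (Ω : AlgebraicClosure k → Prop) :
    {Q ∈ COV.Pts k (minpoly k[X] y) m T | Ω Q.1}.ncard ≤
      {P ∈ Pts k (algebraMap k[X] F X) m T | Ω (P.eval (algebraMap k[X] F X))}.ncard := by
  classical
  have h1 : ∀ Q : AlgebraicClosure k × AlgebraicClosure k, Q ∈ COV.Pts k (minpoly k[X] y) m T →
      ∃ P : Pt k F, algebraMap k[X] F X ∈ P.ring ∧ P.eval (algebraMap k[X] F X) = Q.1 ∧
        P.eval (y : F) = Q.2 := fun Q hQ => exists_lift K y Q.1 Q.2 hQ.1
  set S := {P ∈ Pts k (algebraMap k[X] F X) m T | Ω (P.eval (algebraMap k[X] F X))} with hS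
  have hSf : S.Finite := (pts_finite K m hm T hT).subset (Set.sep_subset _ _)
  let f : Pt k F → AlgebraicClosure k × AlgebraicClosure k := fun P =>
    (P.eval (algebraMap k[X] F X), P.eval (y : F))
  have hsub : {Q ∈ COV.Pts k (minpoly k[X] y) m T | Ω Q.1} ⊆ f '' S := by
    rintro Q ⟨hQ, hΩ⟩
    obtain ⟨P, g1, g2, g3⟩ := h1 Q hQ
    refine ⟨P, ⟨⟨g1, ?_, ?_⟩, ?_⟩, Prod.ext g2 g3⟩
    · rw [g2]
      exact hQ.2.1
    · rw [g2]
      exact hQ.2.2
    · rw [g2]
      exact hΩ
  exact (Set.ncard_le_ncard hsub (hSf.image f)).trans (Set.ncard_image_le hSf)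

end Pool.Agent.EVC
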